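import Pool.Agent.R755.KF.M
import Pool.Agent.R755.KF.Defs3
import Pool.Agent.R755.KF.Iso
import Pool.Agent.R754.KG.G

/-!
# Convex bodies fibred over a base of small dimension: the class of bodies
-/

set_option autoImplicit false

namespace Pool.Agent.R755.KF

open MeasureTheory Set Filter Topology
open scoped ENNReal InnerProductSpace
open Pool.Agent.R754.KG (E un sl Rv min_const cc_trans int_trans cc_zero VW_ind un_prob)
open Pool.Agent.Y506.RG (EW VW Adm Star)
open Pool.Agent.Y506.PV (CcW ind Base)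

theorem cc_of_kp {c0 δ : ℝ} (hc0 : 0 < c0) (hδ : 0 < δ) {N : ℕ} {C : Set (E N)}
    (hm : IsCompact C) (hi : (interior C).Nonempty) (h : KP c0 C) :
    CcW (Real.sqrt (δ / c0)) δ (ind C) := by
  intro k hk T s hs hT v hv hvb hvd
  have hp : IsProbabilityMeasure (un C) := un_prob (vol_ne hi) hm.measure_lt_top.ne
  have h1 := h k T s hs (fun θ hθ => by
    have := hT θ hθ
    rwa [VW_ind hm.measurableSet] at this) v hv
  rw [VW_ind hm.measurableSet]
  refine h1.trans ?_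
  have hTc : Continuous T := T.continuous_of_finiteDimensional
  have hd : Continuous (fderiv ℝ v) := hv.continuous_fderiv one_ne_zero
  have hκ : (Real.sqrt (δ / c0) / Real.sqrt s) ^ 2 = δ / c0 / s := by
    rw [div_pow, Real.sq_sqrt (by positivity), Real.sq_sqrt hs.le]
  have h2 : ∫ x, ‖fderiv ℝ v (T x)‖ ^ 2 ∂(un C) ≤ δ / c0 / s := by
    rw [← hκ]
    have h3 : ∫ _, (Real.sqrt (δ / c0) / Real.sqrt s) ^ 2 ∂(un C) =
        (Real.sqrt (δ / c0) / Real.sqrt s) ^ 2 := by simp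
    rw [← h3]
    refine integral_mono (Pool.Agent.R754.KG.un_int (vol_ne hi) hm.isBounded
      ((hd.comp hTc).norm.pow 2)) (integrable_const _) fun x => ?_
    exact pow_le_pow_left₀ (norm_nonneg _) (hvd _) 2
  calc c0 * s * ∫ x, ‖fderiv ℝ v (T x)‖ ^ 2 ∂(un C) ≤ c0 * s * (δ / c0 / s) :=
        mul_le_mul_of_nonneg_left h2 (by positivity)
    _ = δ := by
        field_simp

/-- the class of bodies -/
inductive Cm (q B : ℕ) (p c0 : ℝ) (d r : ℕ) : ℕ → ∀ n : ℕ, Set (E n) → Prop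
  | base (m : ℕ) (K : Set (E m)) : Base q B p K → Cm q B p c0 d r 0 m K
  | poinc (m : ℕ) (K : Set (E m)) : PI c0 K → Cm q B p c0 d r 0 m K
  | up (h n : ℕ) (K : Set (E n)) : Cm q B p c0 d r h n K → Cm q B p c0 d r (h + 1) n K
  | image (h m n : ℕ) (K : Set (E m)) (A : E m →ₗ[ℝ] E n) (w : E n) : m ≤ n + r →
      Function.Surjective A → Cm q B p c0 d r h m K →
      Cm q B p c0 d r (h + 1) n ((fun x => w + A x) '' K)
  | lift (h m n : ℕ) (K : Set (E m)) (A : E m →ₗ[ℝ] E n) : m ≤ n + r →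
      Function.Surjective A → IsCompact K → Convex ℝ K → (interior K).Nonempty →
      Cm q B p c0 d r h n (A '' K) → Cm q B p c0 d r (h + 1) m K
  | fibred (h N j n : ℕ) (K : Set (E n)) (e : (E N × E j) ≃ₗ[ℝ] E n) : j ≤ d → IsCompact K →
      Convex ℝ K → (interior K).Nonempty →
      (∀ t, volume (sl (e ⁻¹' K) t) ≠ 0 → Cm q B p c0 d r h N (sl (e ⁻¹' K) t)) →
      Cm q B p c0 d r (h + 1) n K

/-- the properties of the fibration theorem -/
def S_CC : Prop := ∀ (d : ℕ) (δ : ℝ), 0 < δ → ∃ δ' : ℝ, 0 < δ' ∧ ∀ κ' : ℝ, 0 < κ' →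
  ∃ κ : ℝ, 0 < κ ∧ ∀ (N n : ℕ) (e : (E N × E d) ≃ₗ[ℝ] E n) (K : Set (E N × E d)), CB K →
  (∀ t, volume (sl K t) ≠ 0 → CcW κ' δ' (ind (sl K t))) → CcW κ δ (ind (e '' K))

/-- concentration for all bodies of the class -/
theorem cm_cc (hcc : S_CC) (hli : S_LIFT) (q B : ℕ) (p c0 : ℝ) (hp : 1 ≤ p) (hc0 : 0 < c0) (d r h : ℕ) :
    ∀ δ : ℝ, 0 < δ → ∃ κ : ℝ, 0 < κ ∧
    ∀ (n : ℕ) (K : Set (E n)), Cm q B p c0 d r h n K → IsCompact K ∧ Convex ℝ K ∧
      (interior K).Nonempty ∧ CcW κ δ (ind K) := by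
  induction h with
  | zero =>
    intro δ hδ
    obtain ⟨κ, hκ, H⟩ := Pool.Agent.Y506.PV.cc_base Pool.Agent.Y506.PV.ccl
      Pool.Agent.Y363.PV.phis Pool.Agent.Y506.PV.radR Pool.Agent.Y211.PV.iso q B p hp δ hδ
    refine ⟨min κ (Real.sqrt (δ / c0)), lt_min hκ (Real.sqrt_pos.2 (by positivity)),
      fun n K hK => ?_⟩
    cases hK with
    | base _ _ hb =>
      refine ⟨hb.compact Pool.Agent.Y363.PV.phis hp, hb.convex Pool.Agent.Y363.PV.phis hp,
        hb.2.1, ?_⟩
      rcases Nat.eq_zero_or_pos n with rfl | hn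
      · exact cc_zero hδ.le K (hb.compact Pool.Agent.Y363.PV.phis hp) hb.2.1
      · exact (H n K hn hb).mono (min_le_left _ _)
    | poinc _ _ hb =>
      exact ⟨hb.comp, hb.conv, hb.int,
        (cc_of_kp hc0 hδ hb.comp hb.int (hb.kp hc0.le)).mono (min_le_right _ _)⟩
  | succ h ih =>
    intro δ hδ
    obtain ⟨κ0, hκ0, H0⟩ := ih δ hδ
    -- images
    obtain ⟨κ1, hκ1, H1⟩ := min_const (P := fun j κ => ∀ (n : ℕ) (K : Set (E (n + j)))
        (A : E (n + j) →ₗ[ℝ] E n), Function.Surjective A → Cm q B p c0 d r h (n + j) K →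
        CcW κ δ (ind (A '' K)))
      (fun j => by
        obtain ⟨δ0, c, hδ0, hc, H1⟩ := Pool.Agent.Y506.PV.cc_img Pool.Agent.Y941.PV.prj
          Pool.Agent.Y506.PV.denR Pool.Agent.Y388.PV.cmp Pool.Agent.Y388.PV.fac j δ hδ
        obtain ⟨κ, hκ, H2⟩ := ih δ0 hδ0
        refine ⟨c * κ, by positivity, fun n K A hA hK => ?_⟩
        obtain ⟨h1, h2, h3, h4⟩ := H2 _ K hK
        exact H1 n κ K A hκ h1 h2 h3 hA h4)
      (fun j κ κ' hκκ hP n K A hA hK => (hP n K A hA hK).mono hκκ) r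
    -- fibrations
    obtain ⟨κ2, hκ2, H2⟩ := min_const (P := fun j κ => ∀ (N n : ℕ) (e : (E N × E j) ≃ₗ[ℝ] E n)
        (K : Set (E N × E j)), CB K →
        (∀ t, volume (sl K t) ≠ 0 → Cm q B p c0 d r h N (sl K t)) → CcW κ δ (ind (e '' K)))
      (fun j => by
        obtain ⟨δ', hδ', H3⟩ := hcc j δ hδ
        obtain ⟨κ, hκ, H2⟩ := ih δ' hδ'
        obtain ⟨κ', hκ', H4⟩ := H3 κ hκ
        exact ⟨κ', hκ', fun N n e K hF hK => H4 N n e K hF fun t ht => (H2 _ _ (hK t ht)).2.2.2⟩)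
      (fun j κ κ' hκκ hP N n e K hF hK => (hP N n e K hF hK).mono hκκ) d
    -- adding dimensions
    obtain ⟨κ3, hκ3, H3⟩ := min_const (P := fun j κ => ∀ (n : ℕ) (K : Set (E (n + j)))
        (A : E (n + j) →ₗ[ℝ] E n), Function.Surjective A → IsCompact K → Convex ℝ K →
        (interior K).Nonempty → Cm q B p c0 d r h n (A '' K) → CcW κ δ (ind K))
      (fun j => by
        obtain ⟨δ0, hδ0, H1⟩ := hli j δ hδ
        obtain ⟨κ, hκ, H2⟩ := ih δ0 hδ0
        obtain ⟨κ', hκ', H4⟩ := H1 κ hκ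
        exact ⟨κ', hκ', fun n K A hA h1 h2 h3 hK => H4 n K A hA h1 h2 h3 (H2 _ _ hK).2.2.2⟩)
      (fun j κ κ' hκκ hP n K A hA h1 h2 h3 hK => (hP n K A hA h1 h2 h3 hK).mono hκκ) r
    refine ⟨min κ0 (min κ1 (min κ2 κ3)), lt_min hκ0 (lt_min hκ1 (lt_min hκ2 hκ3)),
      fun n K hK => ?_⟩
    cases hK with
    | up _ _ _ hK =>
      obtain ⟨h1, h2, h3, h4⟩ := H0 n K hK
      exact ⟨h1, h2, h3, h4.mono (min_le_left _ _)⟩
    | image _ m _ K A w hm hA hK =>
      obtain ⟨h1, h2, h3, -⟩ := H0 m K hK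
      have hAc : Continuous A := A.continuous_of_finiteDimensional
      have e : (fun x => w + A x) '' K = (fun x => w + x) '' (A '' K) := by
        rw [image_image]
      have hnm : n ≤ m := by
        have := LinearMap.finrank_le_finrank_of_surjective (f := A) hA
        simpa using this
      obtain ⟨j, rfl⟩ : ∃ j, m = n + j := ⟨m - n, by omega⟩
      have i1 : IsCompact (A '' K) := h1.image hAc
      have i3 := Pool.Agent.Y506.PV.int_image h3 A hA
      rw [e]
      refine ⟨i1.image (by fun_prop), (h2.linear_image A).translate w, int_trans i3 w, ?_⟩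
      exact (cc_trans _ i1 i3 w (H1 j (by omega) n K A hA hK)).mono
        ((min_le_right _ _).trans (min_le_left _ _))
    | lift _ _ n' _ A hm hA hc hcv hi hK =>
      refine ⟨hc, hcv, hi, ?_⟩
      have hnm : n' ≤ n := by
        have := LinearMap.finrank_le_finrank_of_surjective (f := A) hA
        simpa using this
      obtain ⟨j, rfl⟩ : ∃ j, n = n' + j := ⟨n - n', by omega⟩
      exact (H3 j (by omega) n' K A hA hc hcv hi hK).mono
        ((min_le_right _ _).trans ((min_le_right _ _).trans (min_le_right _ _)))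
    | fibred _ N j _ K e hj hc hcv hi hfib =>
      refine ⟨hc, hcv, hi, ?_⟩
      let e' : (E N × E j) ≃L[ℝ] E n := e.toContinuousLinearEquiv
      have hpc : IsCompact (e ⁻¹' K) := e'.toHomeomorph.isCompact_preimage.2 hc
      have hint : (interior (e ⁻¹' K)).Nonempty := by
        obtain ⟨x, hx⟩ := hi
        have h2 : IsOpen (e' ⁻¹' interior K) := isOpen_interior.preimage e'.continuous
        refine ⟨e'.symm x, interior_maximal (preimage_mono interior_subset) h2 ?_⟩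
        change e' (e'.symm x) ∈ interior K
        rw [e'.apply_symm_apply]
        exact hx
      have hF : CB (e ⁻¹' K) := by
        refine ⟨hcv.linear_preimage e.toLinearMap, hpc, ?_⟩
        exact lt_of_lt_of_le (isOpen_interior.measure_pos volume hint)
          (measure_mono interior_subset)
      have h3 := H2 j hj N n e (e ⁻¹' K) hF hfib
      rw [image_preimage_eq K e.surjective] at h3
      exact h3.mono ((min_le_right _ _).trans ((min_le_right _ _).trans (min_le_left _ _)))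

/-- the functional inequality for all bodies of the class -/
theorem cm_star (hcc : S_CC) (hli : S_LIFT) (q B : ℕ) (p c0 : ℝ) (hp : 1 ≤ p) (hc0 : 0 < c0) (d r h : ℕ) :
    ∃ c : ℝ, 0 < c ∧
    ∀ (n : ℕ) (K : Set (E n)), Cm q B p c0 d r h n K → IsCompact K ∧ Convex ℝ K ∧
      (interior K).Nonempty ∧ Star c (ind K) := by
  obtain ⟨κ, hκ, H⟩ := cm_cc hcc hli q B p c0 hp hc0 d r h (1 / 25) (by norm_num)
  obtain ⟨c, hc, H'⟩ := Pool.Agent.Y506.PV.stb Pool.Agent.Y211.PV.iso κ hκ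
  refine ⟨c, hc, fun n K hK => ?_⟩
  obtain ⟨h1, h2, h3, h4⟩ := H n K hK
  exact ⟨h1, h2, h3, H' n K h1 h2 h3 h4⟩

end Pool.Agent.R755.KF
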