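import Pool.Agent.R755.KF.Defs
import Pool.Agent.R339.KFaux

/-!
# KF, G5: improved Gaussian Poincare inequality
-/

set_option autoImplicit false

namespace Pool.Agent.R755.KF

open MeasureTheory Set Filter Topology
open scoped ENNReal InnerProductSpace
open Pool.Agent.H888R2.KT (gs gc)
open Pool.Agent.R754.KG (E)
open Pool.Agent.R339.KFaux

/-- G5 -/
theorem imp (h1 : S_GP) (h2 : S_SG) (h3 : S_AN) (_h4 : S_BE) : S_IMP := by
  intro k h B f hh hf x
  have hg : 0 < h / 2 := by positivity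
  have h2g : 2 * (h / 2) = h := by ring
  -- semigroup
  have sg : ∀ {C : ℝ} {φ : E k → ℝ}, BC C φ → ∀ x, gs (h / 2) (gs (h / 2) φ) x = gs h φ x := by
    intro C φ hφ x
    have := h2 k (h / 2) C φ hg hφ.c hφ.b x
    rwa [h2g] at this
  have fbc := bl_bc hf
  have Fbl := gs_bl hf hg
  have Fbc := bl_bc Fbl
  have gbc := gd_bc hf
  have Gbc := gd_bc Fbl
  -- first part
  have p1 : gs (h / 2) (gs (h / 2) (fun y => f y ^ 2)) x ≤
      gs (h / 2) (fun y => gs (h / 2) f y ^ 2) x +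
        h / 2 * gs (h / 2) (gs (h / 2) (fun y => ‖fderiv ℝ f y‖ ^ 2)) x := by
    rw [← gs_const_mul, ← gs_add Fbc.sq ((gs_bc gbc hg).const_mul (h / 2)) hg]
    refine gs_mono (gs_bc fbc.sq hg) (Fbc.sq.add ((gs_bc gbc hg).const_mul (h / 2)))
      (fun y => ?_) hg x
    have := h1 k (h / 2) B f hg hf y
    linarith
  -- second part
  have p2 := h1 k (h / 2) B (gs (h / 2) f) hg Fbl x
  -- gradient of F
  have p3 : gs (h / 2) (fun y => ‖fderiv ℝ (gs (h / 2) f) y‖ ^ 2) x ≤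
      1 / 2 * (gs h (fun y => ‖fderiv ℝ f y‖ ^ 2) x + ‖fderiv ℝ (gs h f) x‖ ^ 2) := by
    have e1 : (fun y => ‖fderiv ℝ (gs (h / 2) f) y‖ ^ 2) =
        fun y => ∑ j, gs (h / 2) (pd f j) y ^ 2 := by
      funext y
      rw [norm_sq_pd]
      exact Finset.sum_congr rfl fun j _ => by rw [pd_gs hf hg]
    have e2 : (fun y => ‖fderiv ℝ f y‖ ^ 2) = fun y => ∑ j, pd f j y ^ 2 := by
      funext y
      rw [norm_sq_pd]
    have e3 : ‖fderiv ℝ (gs h f) x‖ ^ 2 = ∑ j, gs h (pd f j) x ^ 2 := by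
      rw [norm_sq_pd]
      exact Finset.sum_congr rfl fun j _ => by rw [pd_gs hf hh]
    rw [e1, e2, e3, gs_sum Finset.univ (fun j _ => (gs_bc (pd_bc hf j) hg).sq) hg,
      gs_sum Finset.univ (fun j _ => (pd_bc hf j).sq) hh, ← Finset.sum_add_distrib,
      Finset.mul_sum]
    refine Finset.sum_le_sum fun j _ => ?_
    have hj := pd_bc hf j
    have h5 := h3 k (h / 2) B (pd f j) hg hj.c hj.b x
    rw [sg hj, sg hj.sq] at h5
    linarith
  rw [sg fbc.sq, sg gbc] at p1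
  rw [sg fbc] at p2
  have p4 := mul_le_mul_of_nonneg_left p3 hg.le
  nlinarith [p1, p2, p4]

end Pool.Agent.R755.KF
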