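import Pool.Agent.R683.KFx
import Pool.Agent.PZ871.Pl

/-!
# K2: second moments over large fibres
-/

set_option autoImplicit false

namespace Pool.Agent.R755.KF

open MeasureTheory Set Filter Topology
open scoped ENNReal InnerProductSpace
open Pool.Agent.R754.KG (E un sl Rv lint_half un_lint un_int un_prob R_nonneg)

namespace K2aux

open Pool.Agent.R683.KFx

variable {N d : ℕ} {K : Set (E N × E d)}

theorem ptw {σ m a x : ℝ} (hσ : 0 < σ) (hm : 0 ≤ m) (_ha : 0 ≤ a) (hx : 0 ≤ x)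
    (h : x ≤ 2 * m + a) : x ^ 2 * (σ ^ 2 / (σ ^ 2 + a ^ 2)) ≤ (2 * m + σ) ^ 2 := by
  rw [mul_div_assoc', div_le_iff₀ (by positivity)]
  have h1 : x ^ 2 ≤ (2 * m + a) ^ 2 := pow_le_pow_left₀ hx h 2
  have h2 : x ^ 2 * σ ^ 2 ≤ (2 * m + a) ^ 2 * σ ^ 2 :=
    mul_le_mul_of_nonneg_right h1 (sq_nonneg σ)
  have h3 : 0 ≤ m * σ * (σ ^ 2 + a ^ 2 - a * σ) :=
    mul_nonneg (mul_nonneg hm hσ.le) (by nlinarith [sq_nonneg (σ - a), mul_nonneg _ha hσ.le])
  have h4 : 0 ≤ m ^ 2 * a ^ 2 := by positivity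
  have h5 : 0 ≤ σ ^ 4 := by positivity
  nlinarith

theorem plt (h : CB K) (t0 t : E d) (ℓ : E N × E d → ℝ) (hℓ : Continuous ℓ)
    (hmid : ∀ z z', ℓ ((1 / 2 : ℝ) • (z + z')) = (ℓ z + ℓ z') / 2) {σ : ℝ} (hσ : 0 < σ) :
    (∫⁻ x in sl K t0, ENNReal.ofReal (ℓ (x, t0) ^ 2)) *
      (∫⁻ x in sl K t, ENNReal.ofReal (σ ^ 2 / (σ ^ 2 + ℓ (x, t) ^ 2))) ≤
    (∫⁻ x in sl K ((1 / 2 : ℝ) • (t0 + t)),
      ENNReal.ofReal (2 * |ℓ (x, (1 / 2 : ℝ) • (t0 + t))| + σ)) ^ 2 := by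
  have c1 : ∀ s : E d, Continuous fun x : E N => ℓ (x, s) := fun s =>
    hℓ.comp (Continuous.prodMk_left s)
  rw [← lintegral_indicator (sl_meas h _), ← lintegral_indicator (sl_meas h _),
    ← lintegral_indicator (sl_meas h _)]
  refine Pool.Agent.PZ871.M_pl.pl N _ _ _ ?_ ?_ ?_ ?_
  · exact (((c1 t0).pow 2).measurable.ennreal_ofReal).indicator (sl_meas h _)
  · refine Measurable.indicator ?_ (sl_meas h _)
    exact ((continuous_const.div (continuous_const.add ((c1 t).pow 2))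
      fun x => (add_pos_of_pos_of_nonneg (by positivity) (sq_nonneg _)).ne').measurable).ennreal_ofReal
  · refine Measurable.indicator ?_ (sl_meas h _)
    exact (((continuous_const.mul (c1 _).abs).add continuous_const).measurable).ennreal_ofReal
  · intro x y
    by_cases hx : x ∈ sl K t0
    · by_cases hy : y ∈ sl K t
      · rw [indicator_of_mem hx, indicator_of_mem hy, indicator_of_mem (mid_mem h hx hy),
          ← ENNReal.ofReal_mul (sq_nonneg _), ← ENNReal.ofReal_pow (by positivity)]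
        refine ENNReal.ofReal_le_ofReal ?_
        have e4 : ℓ ((1 / 2 : ℝ) • (x + y), (1 / 2 : ℝ) • (t0 + t)) =
            (ℓ (x, t0) + ℓ (y, t)) / 2 := by
          rw [← hmid]
          rfl
        have h5 : |ℓ (x, t0)| ≤ 2 * |ℓ ((1 / 2 : ℝ) • (x + y), (1 / 2 : ℝ) • (t0 + t))| +
            |ℓ (y, t)| := by
          rw [e4]
          have e6 : ℓ (x, t0) = 2 * ((ℓ (x, t0) + ℓ (y, t)) / 2) + -ℓ (y, t) := by ring
          calc |ℓ (x, t0)| = |2 * ((ℓ (x, t0) + ℓ (y, t)) / 2) + -ℓ (y, t)| := by rw [← e6]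
            _ ≤ |2 * ((ℓ (x, t0) + ℓ (y, t)) / 2)| + |-ℓ (y, t)| := abs_add_le _ _
            _ = _ := by rw [abs_mul, abs_neg, abs_of_pos (by norm_num : (0 : ℝ) < 2)]
        have h6 := ptw (x := |ℓ (x, t0)|) hσ (abs_nonneg _) (abs_nonneg _) (abs_nonneg _) h5
        rw [sq_abs, sq_abs] at h6
        exact h6
      · rw [indicator_of_notMem hy, mul_zero]
        exact zero_le
    · rw [indicator_of_notMem hx, zero_mul]
      exact zero_le

theorem key (h : CB K) {S : ℝ} (hS : 0 < S) (hR : ∀ t, Rv K t ≤ S) (t0 : E d)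
    (ℓ : E N × E d → ℝ) (hℓ : Continuous ℓ)
    (hmid : ∀ z z', ℓ ((1 / 2 : ℝ) • (z + z')) = (ℓ z + ℓ z') / 2) {σ : ℝ} (hσ : 0 < σ)
    {r : ℝ} (hr : 0 ≤ r)
    (hq : ∫⁻ x in sl K t0, ENNReal.ofReal (ℓ (x, t0) ^ 2) = ENNReal.ofReal (r ^ 2 * S)) :
    ENNReal.ofReal r * (∫⁻ z in K, ENNReal.ofReal (σ ^ 2 / (σ ^ 2 + ℓ z ^ 2))) ≤
      ENNReal.ofReal (2 ^ d) * ∫⁻ z in K, ENNReal.ofReal (2 * |ℓ z| + σ) := by
  have hg : Measurable fun z : E N × E d => ENNReal.ofReal (σ ^ 2 / (σ ^ 2 + ℓ z ^ 2)) :=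
    ((continuous_const.div (continuous_const.add (hℓ.pow 2))
      fun x => (add_pos_of_pos_of_nonneg (by positivity) (sq_nonneg _)).ne').measurable).ennreal_ofReal
  have hH : Measurable fun z : E N × E d => ENNReal.ofReal (2 * |ℓ z| + σ) :=
    (((continuous_const.mul hℓ.abs).add continuous_const).measurable).ennreal_ofReal
  obtain ⟨X, hX⟩ : ∃ X : E d → ℝ≥0∞, X = fun t =>
      ∫⁻ x in sl K t, ENNReal.ofReal (σ ^ 2 / (σ ^ 2 + ℓ (x, t) ^ 2)) := ⟨_, rfl⟩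
  obtain ⟨Y, hY⟩ : ∃ Y : E d → ℝ≥0∞, Y = fun t =>
      ∫⁻ x in sl K t, ENNReal.ofReal (2 * |ℓ (x, t)| + σ) := ⟨_, rfl⟩
  have hXS : ∀ t, X t ≤ ENNReal.ofReal S := by
    intro t
    rw [hX]
    calc ∫⁻ x in sl K t, ENNReal.ofReal (σ ^ 2 / (σ ^ 2 + ℓ (x, t) ^ 2))
        ≤ ∫⁻ _ in sl K t, 1 := by
          refine lintegral_mono fun x => ?_
          rw [← ENNReal.ofReal_one]
          refine ENNReal.ofReal_le_ofReal ?_
          rw [div_le_one (by positivity)]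
          nlinarith [sq_nonneg (ℓ (x, t))]
      _ = volume (sl K t) := by simp
      _ = ENNReal.ofReal (Rv K t) := R_vol h t
      _ ≤ ENNReal.ofReal S := ENNReal.ofReal_le_ofReal (hR t)
  have hpt : ∀ t, ENNReal.ofReal r * X t ≤ Y ((1 / 2 : ℝ) • (t0 + t)) := by
    intro t
    have h1 := plt h t0 t ℓ hℓ hmid hσ
    rw [hq] at h1
    by_contra hc
    push Not at hc
    have h2 : Y ((1 / 2 : ℝ) • (t0 + t)) ^ 2 < (ENNReal.ofReal r * X t) ^ 2 :=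
      ENNReal.pow_lt_pow_left (by norm_num) hc
    have h3 : ENNReal.ofReal (r ^ 2 * S) * X t ≤ Y ((1 / 2 : ℝ) • (t0 + t)) ^ 2 := by
      rw [hX, hY]
      exact h1
    have h4 : ENNReal.ofReal S * (ENNReal.ofReal r * X t) ^ 2 ≤
        ENNReal.ofReal S * Y ((1 / 2 : ℝ) • (t0 + t)) ^ 2 := by
      calc ENNReal.ofReal S * (ENNReal.ofReal r * X t) ^ 2
          = X t * (ENNReal.ofReal (r ^ 2 * S) * X t) := by
            rw [ENNReal.ofReal_mul (by positivity), ENNReal.ofReal_pow hr]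
            ring
        _ ≤ ENNReal.ofReal S * (ENNReal.ofReal (r ^ 2 * S) * X t) :=
            mul_le_mul_left (hXS t) _
        _ ≤ _ := mul_le_mul_right h3 _
    have h5 : (ENNReal.ofReal r * X t) ^ 2 ≤ Y ((1 / 2 : ℝ) • (t0 + t)) ^ 2 :=
      (ENNReal.mul_le_mul_iff_right (by simpa using hS) ENNReal.ofReal_ne_top).1 h4
    exact absurd h2 (not_lt.2 h5)
  calc ENNReal.ofReal r * (∫⁻ z in K, ENNReal.ofReal (σ ^ 2 / (σ ^ 2 + ℓ z ^ 2)))
      = ENNReal.ofReal r * ∫⁻ t, X t := by rw [fub h _ hg, hX]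
    _ = ∫⁻ t, ENNReal.ofReal r * X t := by
        rw [lintegral_const_mul' _ _ ENNReal.ofReal_ne_top]
    _ ≤ ∫⁻ t, Y ((1 / 2 : ℝ) • (t0 + t)) := lintegral_mono hpt
    _ = ENNReal.ofReal (2 ^ d) * ∫⁻ t, Y t := by
        rw [lint_half Y t0]
        simp
    _ = _ := by rw [fub h _ hH, hY]

theorem int1 (h : CB K) {f : E N × E d → ℝ} (hf : Continuous f) : IntegrableOn f K :=
  hf.continuousOn.integrableOn_compact h.comp

theorem real (h : CB K) {S : ℝ} (hS : 0 < S) (hR : ∀ t, Rv K t ≤ S) (t0 : E d)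
    (ℓ : E N × E d → ℝ) (hℓ : Continuous ℓ)
    (hmid : ∀ z z', ℓ ((1 / 2 : ℝ) • (z + z')) = (ℓ z + ℓ z') / 2) {σ : ℝ} (hσ : 0 < σ)
    (hm : ∫ z in K, ℓ z ^ 2 ≤ σ ^ 2 * (volume K).toReal) :
    ∫ x in sl K t0, ℓ (x, t0) ^ 2 ≤ 36 * 4 ^ d * σ ^ 2 * S := by
  have c1 : Continuous fun x : E N => ℓ (x, t0) := hℓ.comp (Continuous.prodMk_left t0)
  obtain ⟨q, hq⟩ : ∃ q : ℝ, q = ∫ x in sl K t0, ℓ (x, t0) ^ 2 := ⟨_, rfl⟩
  have hq0 : 0 ≤ q := by
    rw [hq]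
    exact integral_nonneg fun x => sq_nonneg _
  have hqi : IntegrableOn (fun x => ℓ (x, t0) ^ 2) (sl K t0) :=
    (c1.pow 2).continuousOn.integrableOn_compact (sl_comp h t0)
  obtain ⟨r, hr⟩ : ∃ r : ℝ, r = Real.sqrt (q / S) := ⟨_, rfl⟩
  have hr0 : 0 ≤ r := by rw [hr]; exact Real.sqrt_nonneg _
  have hrq : r ^ 2 * S = q := by
    rw [hr, Real.sq_sqrt (by positivity), div_mul_cancel₀ _ hS.ne']
  have k := key h hS hR t0 ℓ hℓ hmid hσ hr0 (by
    rw [hrq, hq, ofReal_integral_eq_lintegral_ofReal hqi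
      (Eventually.of_forall fun x => sq_nonneg _)])
  obtain ⟨V, hV⟩ : ∃ V : ℝ, V = (volume K).toReal := ⟨_, rfl⟩
  have hV0 : 0 < V := by
    rw [hV]
    exact ENNReal.toReal_pos h.pos.ne' (kfin h)
  have cg : Continuous fun z : E N × E d => σ ^ 2 / (σ ^ 2 + ℓ z ^ 2) :=
    continuous_const.div (continuous_const.add (hℓ.pow 2))
      fun x => (add_pos_of_pos_of_nonneg (by positivity) (sq_nonneg _)).ne'
  have cH : Continuous fun z : E N × E d => 2 * |ℓ z| + σ :=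
    (continuous_const.mul hℓ.abs).add continuous_const
  rw [← ofReal_integral_eq_lintegral_ofReal (int1 h cg)
      (Eventually.of_forall fun x => by positivity),
    ← ofReal_integral_eq_lintegral_ofReal (int1 h cH)
      (Eventually.of_forall fun x => by positivity),
    ← ENNReal.ofReal_mul hr0, ← ENNReal.ofReal_mul (by positivity),
    ENNReal.ofReal_le_ofReal_iff (mul_nonneg (by positivity)
      (integral_nonneg fun x => by positivity))] at k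
  have ic : ∀ c : ℝ, ∫ _ in K, c = c * V := by
    intro c
    rw [setIntegral_const, hV, smul_eq_mul, mul_comm]
    rfl
  have i2 : IntegrableOn (fun z => ℓ z ^ 2) K := int1 h (hℓ.pow 2)
  have ig : V / 2 ≤ ∫ z in K, σ ^ 2 / (σ ^ 2 + ℓ z ^ 2) := by
    have e1 : ∫ z in K, (3 / 4 - 1 / (4 * σ ^ 2) * ℓ z ^ 2) ≤
        ∫ z in K, σ ^ 2 / (σ ^ 2 + ℓ z ^ 2) := by
      refine setIntegral_mono (int1 h (continuous_const.sub (continuous_const.mul (hℓ.pow 2))))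
        (int1 h cg) fun z => ?_
      show 3 / 4 - 1 / (4 * σ ^ 2) * ℓ z ^ 2 ≤ σ ^ 2 / (σ ^ 2 + ℓ z ^ 2)
      rw [le_div_iff₀ (by positivity)]
      have e2 : (3 / 4 - 1 / (4 * σ ^ 2) * ℓ z ^ 2) * (σ ^ 2 + ℓ z ^ 2) =
          σ ^ 2 - (ℓ z ^ 2 - σ ^ 2) ^ 2 / (4 * σ ^ 2) := by
        field_simp
        ring
      rw [e2]
      have : 0 ≤ (ℓ z ^ 2 - σ ^ 2) ^ 2 / (4 * σ ^ 2) := by positivity
      linarith
    have e3 : ∫ z in K, (3 / 4 - 1 / (4 * σ ^ 2) * ℓ z ^ 2) =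
        3 / 4 * V - 1 / (4 * σ ^ 2) * ∫ z in K, ℓ z ^ 2 := by
      rw [integral_sub (int1 h continuous_const) (i2.const_mul _),
        integral_const_mul, ic]
    rw [e3] at e1
    have e4 : 1 / (4 * σ ^ 2) * ∫ z in K, ℓ z ^ 2 ≤ 1 / (4 * σ ^ 2) * (σ ^ 2 * V) := by
      rw [hV]
      exact mul_le_mul_of_nonneg_left hm (by positivity)
    have e5 : 1 / (4 * σ ^ 2) * (σ ^ 2 * V) = V / 4 := by
      field_simp
    linarith
  have iH : ∫ z in K, (2 * |ℓ z| + σ) ≤ 3 * σ * V := by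
    have e1 : ∫ z in K, (2 * |ℓ z| + σ) ≤ ∫ z in K, (1 / σ * ℓ z ^ 2 + 2 * σ) := by
      refine setIntegral_mono (int1 h cH)
        (int1 h ((continuous_const.mul (hℓ.pow 2)).add continuous_const)) fun z => ?_
      show 2 * |ℓ z| + σ ≤ 1 / σ * ℓ z ^ 2 + 2 * σ
      have e2 : 1 / σ * ℓ z ^ 2 + 2 * σ - (2 * |ℓ z| + σ) = (|ℓ z| - σ) ^ 2 / σ := by
        rw [← sq_abs (ℓ z)]
        field_simp
        ring
      have : 0 ≤ (|ℓ z| - σ) ^ 2 / σ := by positivity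
      linarith
    have e3 : ∫ z in K, (1 / σ * ℓ z ^ 2 + 2 * σ) = 1 / σ * (∫ z in K, ℓ z ^ 2) + 2 * σ * V := by
      rw [integral_add (i2.const_mul _) (int1 h continuous_const),
        integral_const_mul, ic]
    rw [e3] at e1
    have e4 : 1 / σ * ∫ z in K, ℓ z ^ 2 ≤ 1 / σ * (σ ^ 2 * V) := by
      rw [hV]
      exact mul_le_mul_of_nonneg_left hm (by positivity)
    have e5 : 1 / σ * (σ ^ 2 * V) = σ * V := by
      field_simp
    linarith
  have k2 : r * (V / 2) ≤ 2 ^ d * (3 * σ * V) :=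
    (mul_le_mul_of_nonneg_left ig hr0).trans (k.trans
      (mul_le_mul_of_nonneg_left iH (by positivity)))
  have k3 : r ≤ 6 * 2 ^ d * σ := by
    have : r * V ≤ (6 * 2 ^ d * σ) * V := by nlinarith
    exact le_of_mul_le_mul_right this hV0
  have k4 : r ^ 2 ≤ (6 * 2 ^ d * σ) ^ 2 := pow_le_pow_left₀ hr0 k3 2
  have k5 : (6 * 2 ^ d * σ) ^ 2 = 36 * 4 ^ d * σ ^ 2 := by
    have : ((4 : ℝ)) ^ d = (2 ^ d) ^ 2 := by
      rw [← pow_mul, mul_comm, pow_mul]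
      norm_num
    rw [this]
    ring
  rw [k5] at k4
  rw [← hq, ← hrq]
  exact mul_le_mul_of_nonneg_right k4 hS.le

end K2aux

open K2aux Pool.Agent.R683.KFx in
/-- K2 -/
theorem mom : S_MOM := by
  intro N d K h S ε t0 hS hε hR ht0 ℓ hℓ hmid
  have hR0 : 0 < Rv K t0 := lt_of_lt_of_le (by positivity) ht0
  obtain ⟨V, hV⟩ : ∃ V : ℝ, V = (volume K).toReal := ⟨_, rfl⟩
  have hV0 : 0 < V := by
    rw [hV]
    exact ENNReal.toReal_pos h.pos.ne' (kfin h)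
  have e1 : ∫ x, ℓ (x, t0) ^ 2 ∂(un (sl K t0)) = (Rv K t0)⁻¹ * ∫ x in sl K t0, ℓ (x, t0) ^ 2 := by
    unfold un Rv
    rw [integral_smul_measure, ENNReal.toReal_inv, smul_eq_mul]
  have e2 : ∫ z, ℓ z ^ 2 ∂(un K) = V⁻¹ * ∫ z in K, ℓ z ^ 2 := by
    unfold un
    rw [integral_smul_measure, ENNReal.toReal_inv, smul_eq_mul, hV]
  obtain ⟨m, hm⟩ : ∃ m : ℝ, m = ∫ z, ℓ z ^ 2 ∂(un K) := ⟨_, rfl⟩
  have hm0 : 0 ≤ m := by
    rw [hm]
    exact integral_nonneg fun x => sq_nonneg _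
  rw [← hm]
  have e3 : ∫ z in K, ℓ z ^ 2 = m * V := by
    rw [hm, e2]
    field_simp
  have main : ∀ δ : ℝ, 0 < δ → ∫ x, ℓ (x, t0) ^ 2 ∂(un (sl K t0)) ≤
      36 * 4 ^ d / ε * (m + δ) := by
    intro δ hδ
    have hσ : 0 < Real.sqrt (m + δ) := Real.sqrt_pos.2 (by positivity)
    have hσ2 : Real.sqrt (m + δ) ^ 2 = m + δ := Real.sq_sqrt (by positivity)
    have k := K2aux.real h hS hR t0 ℓ hℓ hmid hσ (by
      rw [hσ2, e3, ← hV]
      nlinarith)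
    rw [hσ2] at k
    rw [e1]
    calc (Rv K t0)⁻¹ * ∫ x in sl K t0, ℓ (x, t0) ^ 2
        ≤ (Rv K t0)⁻¹ * (36 * 4 ^ d * (m + δ) * S) :=
          mul_le_mul_of_nonneg_left k (by positivity)
      _ ≤ (ε * S)⁻¹ * (36 * 4 ^ d * (m + δ) * S) := by
          refine mul_le_mul_of_nonneg_right ?_ (by positivity)
          exact inv_anti₀ (by positivity) ht0
      _ = _ := by
          field_simp
  refine le_of_forall_pos_le_add fun δ hδ => ?_
  have hC : 0 < 36 * 4 ^ d / ε := by positivity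
  have k := main (δ / (36 * 4 ^ d / ε)) (by positivity)
  rw [mul_add, mul_div_cancel₀ _ hC.ne'] at k
  exact k

end Pool.Agent.R755.KF
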