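import Pool.Agent.R755.KF.Defs
import Pool.Agent.H888R2.KT.N0

/-!
# KF, P1: Fubini for the density `zn`
-/

set_option autoImplicit false

namespace Pool.Agent.R755.KF

open MeasureTheory Set Filter Topology
open scoped ENNReal InnerProductSpace
open Pool.Agent.H888R2.KT (gs gc gc_pos)
open Pool.Agent.R754.KG (E)

namespace P1aux

variable {k : ℕ}

theorem int_prod {h B C : ℝ} {ν : Measure (E k)} {f : E k → ℝ} (hh : 0 < h) (hν : PB B ν)
    (hf : Continuous f) (hC : ∀ y, |f y| ≤ C * (1 + ‖y‖)) :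
    Integrable (fun z : E k × E k => f z.2 * Real.exp (-(‖z.1 - z.2‖ ^ 2 / (2 * h))))
      (ν.prod volume) := by
  have := hν.prob
  obtain ⟨hg0, hg1, hg2, hg3⟩ := gc_pos (κ := Fin k) h hh
  have hC0 : 0 ≤ C := by
    have h1 := (abs_nonneg _).trans (hC 0)
    rw [norm_zero, add_zero, mul_one] at h1
    exact h1
  have hcont : Continuous (fun z : E k × E k =>
      f z.2 * Real.exp (-(‖z.1 - z.2‖ ^ 2 / (2 * h)))) := by fun_prop
  have hbd : ∀ x y : E k, ‖f y * Real.exp (-(‖x - y‖ ^ 2 / (2 * h)))‖ ≤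
      C * (1 + ‖x‖) * Real.exp (-(‖x - y‖ ^ 2 / (2 * h))) +
        C * (‖x - y‖ * Real.exp (-(‖x - y‖ ^ 2 / (2 * h)))) := by
    intro x y
    have he := (Real.exp_pos (-(‖x - y‖ ^ 2 / (2 * h)))).le
    rw [norm_mul, Real.norm_eq_abs, Real.norm_eq_abs, abs_of_nonneg he]
    have h1 : ‖y‖ ≤ ‖x‖ + ‖x - y‖ := by
      have h2 := norm_sub_le x (x - y)
      rwa [sub_sub_cancel] at h2
    have h3 : |f y| ≤ C * (1 + ‖x‖) + C * ‖x - y‖ := by
      refine (hC y).trans ?_
      have h4 := mul_le_mul_of_nonneg_left h1 hC0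
      linarith
    calc |f y| * Real.exp (-(‖x - y‖ ^ 2 / (2 * h)))
        ≤ (C * (1 + ‖x‖) + C * ‖x - y‖) * Real.exp (-(‖x - y‖ ^ 2 / (2 * h))) :=
          mul_le_mul_of_nonneg_right h3 he
      _ = _ := by ring
  have hIb : ∀ x : E k, Integrable (fun y => C * (1 + ‖x‖) * Real.exp (-(‖x - y‖ ^ 2 / (2 * h))) +
        C * (‖x - y‖ * Real.exp (-(‖x - y‖ ^ 2 / (2 * h))))) := fun x =>
    ((hg2 x).const_mul _).add ((hg3 x).const_mul _)
  have hin : ∀ x : E k, Integrable (fun y => f y * Real.exp (-(‖x - y‖ ^ 2 / (2 * h)))) := by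
    intro x
    have hc : Continuous (fun y : E k => f y * Real.exp (-(‖x - y‖ ^ 2 / (2 * h)))) := by fun_prop
    exact (hIb x).mono' hc.aestronglyMeasurable (Filter.Eventually.of_forall fun y => hbd x y)
  have hI1 : ∀ x : E k, ∫ y, ‖x - y‖ * Real.exp (-(‖x - y‖ ^ 2 / (2 * h))) =
      ∫ y : E k, ‖y‖ * Real.exp (-(‖y‖ ^ 2 / (2 * h))) := fun x =>
    integral_sub_left_eq_self (fun y : E k => ‖y‖ * Real.exp (-(‖y‖ ^ 2 / (2 * h)))) volume x
  rw [integrable_prod_iff hcont.aestronglyMeasurable]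
  refine ⟨Filter.Eventually.of_forall fun x => hin x, ?_⟩
  refine Integrable.mono' (integrable_const (C * (1 + B) * gc (Fin k) h +
    C * ∫ y : E k, ‖y‖ * Real.exp (-(‖y‖ ^ 2 / (2 * h))))) ?_ ?_
  · exact hcont.norm.aestronglyMeasurable.integral_prod_right'
  · filter_upwards [hν.bdd] with x hx
    rw [Real.norm_eq_abs, abs_of_nonneg (integral_nonneg fun y => norm_nonneg _)]
    calc ∫ y, ‖f y * Real.exp (-(‖x - y‖ ^ 2 / (2 * h)))‖
        ≤ ∫ y, (C * (1 + ‖x‖) * Real.exp (-(‖x - y‖ ^ 2 / (2 * h))) +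
            C * (‖x - y‖ * Real.exp (-(‖x - y‖ ^ 2 / (2 * h))))) :=
          integral_mono (hin x).norm (hIb x) fun y => hbd x y
      _ = C * (1 + ‖x‖) * gc (Fin k) h +
            C * ∫ y : E k, ‖y‖ * Real.exp (-(‖y‖ ^ 2 / (2 * h))) := by
          rw [integral_add ((hg2 x).const_mul _) ((hg3 x).const_mul _), integral_const_mul,
            integral_const_mul, hg1, hI1]
      _ ≤ _ := by
          have h5 : C * (1 + ‖x‖) ≤ C * (1 + B) :=
            mul_le_mul_of_nonneg_left (by linarith) hC0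
          have h6 := mul_le_mul_of_nonneg_right h5 hg0.le
          linarith

end P1aux

open P1aux in
/-- P1 -/
theorem rep : S_REP := by
  intro k h B C ν f hh hν hf hC
  have := hν.prob
  obtain ⟨hg0, hg1, hg2, hg3⟩ := gc_pos (κ := Fin k) h hh
  have hI := int_prod hh hν hf hC
  have hy : ∀ y, ∫ x, f y * Real.exp (-(‖x - y‖ ^ 2 / (2 * h))) ∂ν = f y * zn h ν y := by
    intro y
    unfold zn
    rw [integral_const_mul]
  have hx : ∀ x, ∫ y, f y * Real.exp (-(‖x - y‖ ^ 2 / (2 * h))) = gc (Fin k) h * gs h f x := by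
    intro x
    unfold gs
    rw [mul_div_cancel₀ _ hg0.ne']
  refine ⟨?_, ?_, ?_⟩
  · have h1 := (hI.integral_prod_left).const_mul (gc (Fin k) h)⁻¹
    refine h1.congr (Filter.Eventually.of_forall fun x => ?_)
    simp only
    rw [hx, ← mul_assoc, inv_mul_cancel₀ hg0.ne', one_mul]
  · have h1 := hI.integral_prod_right
    exact h1.congr (Filter.Eventually.of_forall fun y => hy y)
  · have h1 := integral_integral_swap (f := fun x y =>
      f y * Real.exp (-(‖x - y‖ ^ 2 / (2 * h)))) hI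
    simp only [hy, hx] at h1
    rw [integral_const_mul] at h1
    unfold ey
    rw [← h1, ← mul_assoc, inv_mul_cancel₀ hg0.ne', one_mul]

end Pool.Agent.R755.KF
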