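import Pool.Agent.R755.KF.Defs

set_option autoImplicit false

namespace Pool.Agent.R755.KF

open MeasureTheory Set Filter Topology
open scoped ENNReal InnerProductSpace NNReal
open Pool.Agent.H888R2.KT (gs gc)
open Pool.Agent.R754.KG (E un sl Rv)

namespace L2aux

variable {k : ℕ} {h B : ℝ} {ν : Measure (E k)}

/-- the kernel -/
noncomputable def ke (h : ℝ) (y x : E k) : ℝ := Real.exp (-(‖x - y‖ ^ 2 / (2 * h)))

theorem ke_pos (h : ℝ) (y x : E k) : 0 < ke h y x := Real.exp_pos _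

theorem ke_le (hh : 0 < h) (y x : E k) : ke h y x ≤ 1 := by
  unfold ke
  rw [Real.exp_le_one_iff]
  have : 0 ≤ ‖x - y‖ ^ 2 / (2 * h) := by positivity
  linarith

theorem ke_cont (h : ℝ) (y : E k) : Continuous (ke h y) := by
  unfold ke; fun_prop

theorem zn_eq (h : ℝ) (ν : Measure (E k)) (y : E k) : zn h ν y = ∫ x, ke h y x ∂ν := rfl

/-- weighted version -/
noncomputable def nu (h : ℝ) (ν : Measure (E k)) (u : E k → ℝ) (y : E k) : ℝ :=
  ∫ x, u x * ke h y x ∂ν

theorem int_bdd [IsProbabilityMeasure ν] {u : E k → ℝ} (hu : Continuous u) {C : ℝ}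
    (hb : ∀ x, |u x| ≤ C) : Integrable u ν :=
  Integrable.of_bound hu.aestronglyMeasurable C (ae_of_all _ fun x => by
    rw [Real.norm_eq_abs]; exact hb x)

theorem int_ke [IsProbabilityMeasure ν] (hh : 0 < h) {u : E k → ℝ} (hu : Continuous u) {C : ℝ}
    (hb : ∀ x, |u x| ≤ C) (y : E k) : Integrable (fun x => u x * ke h y x) ν := by
  apply int_bdd (hu.mul (ke_cont h y)) (C := C)
  intro x
  show |u x * ke h y x| ≤ C
  rw [abs_mul, abs_of_pos (ke_pos h y x)]
  have h1 := hb x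
  have h2 := ke_le hh y x
  have h3 := ke_pos h y x
  calc |u x| * ke h y x ≤ C * 1 := mul_le_mul h1 h2 h3.le ((abs_nonneg _).trans h1)
    _ = C := mul_one C

theorem int_ke' [IsProbabilityMeasure ν] (hh : 0 < h) (y : E k) : Integrable (ke h y) ν :=
  int_bdd (ke_cont h y) (C := 1) fun x => by
    rw [abs_of_pos (ke_pos h y x)]; exact ke_le hh y x

theorem lemA (hz : S_ZN) (hh : 0 < h) (hB : 0 ≤ B) (hν : PB B ν) {u : E k → ℝ}
    (hu : Continuous u) (hb : ∀ x, |u x| ≤ 1) :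
    ContDiff ℝ 1 (nu h ν u) ∧ Integrable (nu h ν u) ∧
      ∫ y, nu h ν u y = (∫ x, u x ∂ν) * gc (Fin k) h := by
  have hp := hν.prob
  obtain ⟨c, hc⟩ : ∃ c : ℝ, c = ∫ x, (u x + 2) ∂ν := ⟨_, rfl⟩
  have hui : Integrable u ν := int_bdd hu hb
  have hu2 : Integrable (fun x => u x + 2) ν := hui.add (integrable_const _)
  have hc2 : c = (∫ x, u x ∂ν) + 2 := by
    rw [hc, integral_add hui (integrable_const _), integral_const]; simp
  have hc1 : 1 ≤ c := by
    rw [hc]
    have : ∫ x, (1:ℝ) ∂ν ≤ ∫ x, (u x + 2) ∂ν :=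
      integral_mono (integrable_const _) hu2 fun x => by
        have := (abs_le.1 (hb x)).1
        show (1:ℝ) ≤ u x + 2
        linarith
    simpa using this
  have hc0 : 0 < c := by linarith
  let d : E k → ℝ≥0 := fun x => Real.toNNReal ((u x + 2) / c)
  have hd : Measurable d := (((hu.add continuous_const).div_const c).measurable).real_toNNReal
  have hdr : ∀ x, (d x : ℝ) = (u x + 2) / c := fun x =>
    Real.coe_toNNReal _ (div_nonneg (by have := (abs_le.1 (hb x)).1; linarith) hc0.le)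
  let ν' : Measure (E k) := ν.withDensity (fun x => (d x : ℝ≥0∞))
  have hint : ∀ g : E k → ℝ, ∫ x, g x ∂ν' = ∫ x, (u x + 2) / c * g x ∂ν := by
    intro g
    show ∫ x, g x ∂(ν.withDensity (fun x => (d x : ℝ≥0∞))) = _
    rw [integral_withDensity_eq_integral_smul hd]
    apply integral_congr_ae
    filter_upwards with x
    rw [NNReal.smul_def, hdr x, smul_eq_mul]
  have hprob : IsProbabilityMeasure ν' := by
    refine ⟨?_⟩
    show (ν.withDensity (fun x => (d x : ℝ≥0∞))) univ = 1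
    rw [withDensity_apply _ MeasurableSet.univ, Measure.restrict_univ]
    have h1 : ∀ x, (d x : ℝ≥0∞) = ENNReal.ofReal ((u x + 2) / c) := fun x => rfl
    simp_rw [h1]
    rw [← ofReal_integral_eq_lintegral_ofReal (hu2.div_const c)
      (ae_of_all _ fun x => div_nonneg (by have := (abs_le.1 (hb x)).1; linarith) hc0.le)]
    rw [integral_div, ← hc, div_self hc0.ne', ENNReal.ofReal_one]
  have hPB : PB B ν' := ⟨hprob, (withDensity_absolutelyContinuous ν _).ae_le hν.bdd⟩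
  have hzn : ∀ y, nu h ν u y = c * zn h ν' y - 2 * zn h ν y := by
    intro y
    have h1 : zn h ν' y = ∫ x, (u x + 2) / c * ke h y x ∂ν := hint _
    have h2 : c * zn h ν' y = ∫ x, (u x * ke h y x + 2 * ke h y x) ∂ν := by
      rw [h1, ← integral_const_mul]
      apply integral_congr_ae
      filter_upwards with x
      field_simp
    rw [h2, integral_add (int_ke hh hu hb y) ((int_ke' hh y).const_mul 2), integral_const_mul,
      ← zn_eq]
    unfold nu
    ring
  obtain ⟨z1, _, _, _, _, z6, z7⟩ := hz k h B ν hh hB hν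
  obtain ⟨w1, _, _, _, _, w6, w7⟩ := hz k h B ν' hh hB hPB
  have hfun : nu h ν u = fun y => c * zn h ν' y - 2 * zn h ν y := funext hzn
  rw [hfun]
  refine ⟨(contDiff_const.mul w1).sub (contDiff_const.mul z1),
    (w6.const_mul c).sub (z6.const_mul 2), ?_⟩
  rw [integral_sub (w6.const_mul c) (z6.const_mul 2), integral_const_mul, integral_const_mul, w7,
    z7, hc2]
  ring

theorem lip_of_fderiv {v : E k → ℝ} (hv : ContDiff ℝ 1 v) {L : ℝ}
    (hL : ∀ y, ‖fderiv ℝ v y‖ ≤ L) (x x' : E k) : v x - v x' ≤ L * ‖x - x'‖ := by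
  have h1 := Convex.norm_image_sub_le_of_norm_fderiv_le (𝕜 := ℝ) (f := v) (C := L)
    (s := Set.univ) (fun y _ => (hv.differentiable (by norm_num)) y) (fun y _ => hL y) convex_univ
    (Set.mem_univ x') (Set.mem_univ x)
  rw [Real.norm_eq_abs] at h1
  exact (le_abs_self _).trans h1

theorem kernel_ineq (hh : 0 < h) {v : E k → ℝ} {L θ : ℝ} (hθ : 0 ≤ θ)
    (hlip : ∀ x x', v x - v x' ≤ L * ‖x - x'‖) (hL : 0 ≤ L) (y y' x x' : E k) :
    (Real.exp (θ * v x) * ke h y' x) * (Real.exp (-θ * v x') * ke h y x') ≤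
      (Real.exp ((θ * L * ‖y' - y‖ + θ ^ 2 * L ^ 2 * h) / 2) *
        ke h ((1 / 2 : ℝ) • (y + y')) ((1 / 2 : ℝ) • (x + x'))) ^ 2 := by
  unfold ke
  rw [← Real.exp_add, ← Real.exp_add, ← Real.exp_add, ← Real.exp_add, ← Real.exp_nat_mul]
  apply Real.exp_le_exp.2
  obtain ⟨a, ha⟩ : ∃ a, a = x - y' := ⟨_, rfl⟩
  obtain ⟨b, hb⟩ : ∃ b, b = x' - y := ⟨_, rfl⟩
  have hpar : ‖a + b‖ * ‖a + b‖ + ‖a - b‖ * ‖a - b‖ = 2 * (‖a‖ * ‖a‖ + ‖b‖ * ‖b‖) :=
    by simpa [pow_two] using parallelogram_law_with_norm ℝ a b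
  have hmid : (1 / 2 : ℝ) • (x + x') - (1 / 2 : ℝ) • (y + y') = (1 / 2 : ℝ) • (a + b) := by
    rw [ha, hb, ← smul_sub]; congr 1; abel
  have hdiff : x - x' = (a - b) + (y' - y) := by rw [ha, hb]; abel
  have h1 : v x - v x' ≤ L * (‖a - b‖ + ‖y' - y‖) := by
    refine (hlip x x').trans (mul_le_mul_of_nonneg_left ?_ hL)
    rw [hdiff]; exact norm_add_le _ _
  have h2 : θ * (v x - v x') ≤ θ * (L * (‖a - b‖ + ‖y' - y‖)) := mul_le_mul_of_nonneg_left h1 hθ
  rw [hmid, ← ha, ← hb, norm_smul, Real.norm_of_nonneg (by norm_num : (0:ℝ) ≤ 1/2)]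
  set s := ‖a - b‖
  set w := ‖y' - y‖
  have h3 : θ * L * s ≤ s * s / (4 * h) + θ ^ 2 * L ^ 2 * h := by
    have h4 : 0 ≤ (s - 2 * h * (θ * L)) ^ 2 / (4 * h) := by positivity
    have h5 : (s - 2 * h * (θ * L)) ^ 2 / (4 * h) =
        s * s / (4 * h) + θ ^ 2 * L ^ 2 * h - θ * L * s := by
      field_simp; ring
    linarith
  have h6 : (‖a‖ ^ 2 / (2 * h)) + (‖b‖ ^ 2 / (2 * h)) =
      2 * ((1 / 2 * ‖a + b‖) ^ 2 / (2 * h)) + s * s / (4 * h) := by
    have : ‖a‖ ^ 2 + ‖b‖ ^ 2 = (‖a + b‖ ^ 2 + s * s) / 2 := by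
      have := hpar; nlinarith
    rw [← add_div, this]
    field_simp
    ring
  push_cast
  nlinarith

theorem plI [IsProbabilityMeasure ν] (hh : 0 < h) (hPL : PL3 ν ν ν 1) {v : E k → ℝ}
    (hv : Continuous v) (hb : ∀ x, |v x| ≤ 1) {L θ : ℝ} (hθ : 0 ≤ θ) (hL : 0 ≤ L)
    (hlip : ∀ x x', v x - v x' ≤ L * ‖x - x'‖) (y y' : E k) :
    (nu h ν (fun x => Real.exp (θ * v x)) y') * (nu h ν (fun x => Real.exp (-θ * v x)) y) ≤
      Real.exp (θ * L * ‖y' - y‖ + θ ^ 2 * L ^ 2 * h) * zn h ν ((1 / 2 : ℝ) • (y + y')) ^ 2 := by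
  have c1 : Continuous (fun x => Real.exp (θ * v x)) := by fun_prop
  have c2 : Continuous (fun x => Real.exp (-θ * v x)) := by fun_prop
  have b1 : ∀ x, |Real.exp (θ * v x)| ≤ Real.exp θ := by
    intro x
    rw [abs_of_pos (Real.exp_pos _)]
    apply Real.exp_le_exp.2
    have := (abs_le.1 (hb x)).2
    nlinarith
  have b2 : ∀ x, |Real.exp (-θ * v x)| ≤ Real.exp θ := by
    intro x
    rw [abs_of_pos (Real.exp_pos _)]
    apply Real.exp_le_exp.2
    have := (abs_le.1 (hb x)).1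
    nlinarith
  obtain ⟨c, hc⟩ : ∃ c, c = Real.exp ((θ * L * ‖y' - y‖ + θ ^ 2 * L ^ 2 * h) / 2) := ⟨_, rfl⟩
  have hc0 : 0 < c := by rw [hc]; exact Real.exp_pos _
  obtain ⟨m, hm⟩ : ∃ m : E k, m = (1 / 2 : ℝ) • (y + y') := ⟨_, rfl⟩
  have h1 := hPL (fun x => ENNReal.ofReal (Real.exp (θ * v x) * ke h y' x))
    (fun x => ENNReal.ofReal (Real.exp (-θ * v x) * ke h y x))
    (fun x => ENNReal.ofReal (c * ke h m x))
    (c1.mul (ke_cont h y')).measurable.ennreal_ofReal
    (c2.mul (ke_cont h y)).measurable.ennreal_ofReal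
    (continuous_const.mul (ke_cont h m)).measurable.ennreal_ofReal (by
      intro x x'
      rw [← ENNReal.ofReal_mul (by positivity [ke_pos h y' x]), ← ENNReal.ofReal_pow
        (mul_nonneg hc0.le (ke_pos h m _).le)]
      apply ENNReal.ofReal_le_ofReal
      rw [hc, hm]
      exact kernel_ineq hh hθ hlip hL y y' x x')
  rw [← ofReal_integral_eq_lintegral_ofReal (int_ke hh c1 b1 y')
      (ae_of_all _ fun x => mul_nonneg (Real.exp_pos _).le (ke_pos h y' x).le),
    ← ofReal_integral_eq_lintegral_ofReal (int_ke hh c2 b2 y)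
      (ae_of_all _ fun x => mul_nonneg (Real.exp_pos _).le (ke_pos h y x).le),
    ← ofReal_integral_eq_lintegral_ofReal ((int_ke' hh m).const_mul c)
      (ae_of_all _ fun x => mul_nonneg hc0.le (ke_pos h m x).le), ENNReal.ofReal_one, one_mul,
    integral_const_mul, ← ENNReal.ofReal_mul (integral_nonneg fun x =>
      mul_nonneg (Real.exp_pos _).le (ke_pos h y' x).le), ← zn_eq] at h1
  have hzn0 : 0 ≤ zn h ν m := integral_nonneg fun x => (ke_pos h m x).le
  rw [← ENNReal.ofReal_pow (mul_nonneg hc0.le hzn0), ENNReal.ofReal_le_ofReal_iff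
    (by positivity)] at h1
  have h2 : c ^ 2 = Real.exp (θ * L * ‖y' - y‖ + θ ^ 2 * L ^ 2 * h) := by
    rw [hc, ← Real.exp_nat_mul]; congr 1; push_cast; ring
  rw [mul_pow, h2] at h1
  unfold nu
  rw [← hm]
  exact h1

theorem znm [IsProbabilityMeasure ν] (hh : 0 < h) (y y' : E k) (h1 : 0 < zn h ν y)
    (h2 : 0 < zn h ν y') :
    zn h ν ((1 / 2 : ℝ) • (y + y')) ^ 2 ≤
      Real.exp (‖y' - y‖ ^ 2 / (4 * h)) * (zn h ν y * zn h ν y') := by
  obtain ⟨m, hm⟩ : ∃ m : E k, m = (1 / 2 : ℝ) • (y + y') := ⟨_, rfl⟩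
  rw [← hm]
  set A := zn h ν y with hA
  set A' := zn h ν y' with hA'
  obtain ⟨q, hq⟩ : ∃ q, q = Real.sqrt (A * A') := ⟨_, rfl⟩
  have hAA : 0 < A * A' := mul_pos h1 h2
  have hq0 : 0 < q := by rw [hq]; exact Real.sqrt_pos.2 hAA
  have hqq : q ^ 2 = A * A' := by rw [hq]; exact Real.sq_sqrt hAA.le
  obtain ⟨e, he⟩ : ∃ e, e = Real.exp (‖y' - y‖ ^ 2 / (8 * h)) := ⟨_, rfl⟩
  have he0 : 0 < e := by rw [he]; exact Real.exp_pos _
  -- pointwise
  have hpt : ∀ x, ke h m x ≤ e * q / 2 * (ke h y x / A + ke h y' x / A') := by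
    intro x
    have hsq : ke h m x ^ 2 = e ^ 2 * (ke h y x * ke h y' x) := by
      rw [he, ← Real.exp_nat_mul]
      unfold ke
      rw [← Real.exp_nat_mul, ← Real.exp_add, ← Real.exp_add]
      congr 1
      have hpar : ‖(x - y) + (x - y')‖ * ‖(x - y) + (x - y')‖ +
          ‖(x - y) - (x - y')‖ * ‖(x - y) - (x - y')‖ =
          2 * (‖x - y‖ * ‖x - y‖ + ‖x - y'‖ * ‖x - y'‖) := by
        simpa [pow_two] using parallelogram_law_with_norm ℝ (x - y) (x - y')
      have e1 : (x - y) - (x - y') = y' - y := by abel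
      have e2 : x - m = (1 / 2 : ℝ) • ((x - y) + (x - y')) := by
        rw [hm, show (x - y) + (x - y') = (2:ℝ) • x - (y + y') by rw [two_smul]; abel, smul_sub,
          smul_smul]
        norm_num
      rw [e1] at hpar
      rw [e2, norm_smul, Real.norm_of_nonneg (by norm_num : (0:ℝ) ≤ 1/2)]
      push_cast
      have hh' : h ≠ 0 := hh.ne'
      field_simp
      nlinarith
    have hp : 0 < ke h y x := ke_pos h y x
    have hp' : 0 < ke h y' x := ke_pos h y' x
    have hR : 0 ≤ e * q / 2 * (ke h y x / A + ke h y' x / A') := by positivity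
    apply le_of_sq_le_sq _ hR
    rw [hsq, mul_pow, div_pow, mul_pow, hqq]
    have h3 : ke h y x * ke h y' x =
        A * A' * ((ke h y x / A) * (ke h y' x / A')) := by field_simp
    rw [h3]
    have h4 : 4 * ((ke h y x / A) * (ke h y' x / A')) ≤ (ke h y x / A + ke h y' x / A') ^ 2 := by
      nlinarith [sq_nonneg (ke h y x / A - ke h y' x / A')]
    have h5 : 0 ≤ e ^ 2 * (A * A') := by positivity
    nlinarith [mul_le_mul_of_nonneg_left h4 h5]
  have hint : zn h ν m ≤ e * q := by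
    have h3 : zn h ν m ≤ ∫ x, e * q / 2 * (ke h y x / A + ke h y' x / A') ∂ν := by
      rw [zn_eq]
      apply integral_mono (int_ke' hh m) _ hpt
      exact (((int_ke' hh y).div_const A).add ((int_ke' hh y').div_const A')).const_mul _
    rw [integral_const_mul, integral_add ((int_ke' hh y).div_const A)
      ((int_ke' hh y').div_const A'), integral_div, integral_div, ← zn_eq, ← zn_eq, ← hA, ← hA',
      div_self h1.ne', div_self h2.ne'] at h3
    linarith
  have h0 : 0 ≤ zn h ν m := integral_nonneg fun x => (ke_pos h m x).le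
  calc zn h ν m ^ 2 ≤ (e * q) ^ 2 := pow_le_pow_left₀ h0 hint 2
    _ = Real.exp (‖y' - y‖ ^ 2 / (4 * h)) * (A * A') := by
        rw [mul_pow, hqq, he, ← Real.exp_nat_mul]
        congr 2
        push_cast
        field_simp
        ring

theorem jen [IsProbabilityMeasure ν] (hh : 0 < h) {v : E k → ℝ}
    (hv : Continuous v) (hb : ∀ x, |v x| ≤ 1) (θ : ℝ) (y : E k) (hz : 0 < zn h ν y) :
    Real.exp (θ * (nu h ν v y / zn h ν y)) * zn h ν y ≤
      nu h ν (fun x => Real.exp (θ * v x)) y := by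
  obtain ⟨f, hf⟩ : ∃ f, f = nu h ν v y / zn h ν y := ⟨_, rfl⟩
  rw [← hf]
  have c1 : Continuous (fun x => Real.exp (θ * v x)) := by fun_prop
  have b1 : ∀ x, |Real.exp (θ * v x)| ≤ Real.exp |θ| := by
    intro x
    rw [abs_of_pos (Real.exp_pos _)]
    apply Real.exp_le_exp.2
    calc θ * v x ≤ |θ * v x| := le_abs_self _
      _ = |θ| * |v x| := abs_mul _ _
      _ ≤ |θ| * 1 := mul_le_mul_of_nonneg_left (hb x) (abs_nonneg _)
      _ = |θ| := mul_one _
  have i1 := int_ke hh hv hb (ν := ν) y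
  have i2 := int_ke' (ν := ν) hh y
  have hi : Integrable (fun x => Real.exp (θ * f) *
      (θ * (v x * ke h y x) + (1 - θ * f) * ke h y x)) ν :=
    ((i1.const_mul θ).add (i2.const_mul (1 - θ * f))).const_mul _
  have h1 : ∫ x, Real.exp (θ * f) * (θ * (v x * ke h y x) + (1 - θ * f) * ke h y x) ∂ν ≤
      nu h ν (fun x => Real.exp (θ * v x)) y := by
    apply integral_mono hi (int_ke hh c1 b1 y)
    intro x
    show Real.exp (θ * f) * (θ * (v x * ke h y x) + (1 - θ * f) * ke h y x) ≤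
      Real.exp (θ * v x) * ke h y x
    have h2 : Real.exp (θ * f) * (θ * v x - θ * f + 1) ≤ Real.exp (θ * v x) := by
      have h3 := Real.add_one_le_exp (θ * v x - θ * f)
      have h4 : Real.exp (θ * v x) = Real.exp (θ * f) * Real.exp (θ * v x - θ * f) := by
        rw [← Real.exp_add]; ring_nf
      rw [h4]
      exact mul_le_mul_of_nonneg_left h3 (Real.exp_pos _).le
    have h5 := mul_le_mul_of_nonneg_right h2 (ke_pos h y x).le
    calc _ = Real.exp (θ * f) * (θ * v x - θ * f + 1) * ke h y x := by ring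
      _ ≤ _ := h5
  rw [integral_const_mul, integral_add (i1.const_mul θ) (i2.const_mul (1 - θ * f)),
    integral_const_mul, integral_const_mul, ← zn_eq] at h1
  have h6 : ∫ x, v x * ke h y x ∂ν = f * zn h ν y := by
    rw [hf, div_mul_cancel₀ _ hz.ne']; rfl
  rw [h6] at h1
  calc Real.exp (θ * f) * zn h ν y =
      Real.exp (θ * f) * (θ * (f * zn h ν y) + (1 - θ * f) * zn h ν y) := by ring
    _ ≤ _ := h1

theorem lip_f [IsProbabilityMeasure ν] (hh : 0 < h) (hPL : PL3 ν ν ν 1) {v : E k → ℝ}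
    (hv : Continuous v) (hb : ∀ x, |v x| ≤ 1) {L : ℝ} (hL : 0 < L)
    (hlip : ∀ x x', v x - v x' ≤ L * ‖x - x'‖) (hz : ∀ y, 0 < zn h ν y) (y y' : E k) :
    nu h ν v y' / zn h ν y' - nu h ν v y / zn h ν y ≤ 2 * L * ‖y' - y‖ := by
  by_cases hw0 : ‖y' - y‖ = 0
  · have : y' = y := by rwa [norm_eq_zero, sub_eq_zero] at hw0
    rw [this]; simp
  have hw : 0 < ‖y' - y‖ := lt_of_le_of_ne (norm_nonneg _) (Ne.symm hw0)
  set w := ‖y' - y‖ with hwdef
  obtain ⟨θ, hθ⟩ : ∃ θ, θ = w / (2 * h * L) := ⟨_, rfl⟩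
  have hθ0 : 0 < θ := by rw [hθ]; positivity
  have h1 := plI hh hPL hv hb hθ0.le hL.le hlip y y' (ν := ν)
  have h2 := znm hh y y' (hz y) (hz y') (ν := ν)
  have h3 := jen hh hv hb θ y' (hz y') (ν := ν)
  have h4 := jen hh hv hb (-θ) y (hz y) (ν := ν)
  rw [← hwdef] at h1 h2
  set f' := nu h ν v y' / zn h ν y'
  set f := nu h ν v y / zn h ν y
  set A := zn h ν y
  set A' := zn h ν y'
  have hA : 0 < A := hz y
  have hA' : 0 < A' := hz y'
  have h5 : (Real.exp (θ * f') * A') * (Real.exp (-θ * f) * A) ≤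
      Real.exp (θ * L * w + θ ^ 2 * L ^ 2 * h) * (Real.exp (w ^ 2 / (4 * h)) * (A * A')) := by
    refine (mul_le_mul h3 h4 (by positivity) ?_).trans (h1.trans ?_)
    · exact le_trans (by positivity) h3
    · exact mul_le_mul_of_nonneg_left h2 (Real.exp_pos _).le
  have h6 : Real.exp (θ * (f' - f)) ≤
      Real.exp (θ * L * w + θ ^ 2 * L ^ 2 * h + w ^ 2 / (4 * h)) := by
    have h7 : (Real.exp (θ * f') * A') * (Real.exp (-θ * f) * A) =
        Real.exp (θ * (f' - f)) * (A * A') := by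
      have : Real.exp (θ * (f' - f)) = Real.exp (θ * f') * Real.exp (-θ * f) := by
        rw [← Real.exp_add]; ring_nf
      rw [this]; ring
    have h8 : Real.exp (θ * L * w + θ ^ 2 * L ^ 2 * h) * (Real.exp (w ^ 2 / (4 * h)) * (A * A')) =
        Real.exp (θ * L * w + θ ^ 2 * L ^ 2 * h + w ^ 2 / (4 * h)) * (A * A') := by
      rw [Real.exp_add _ (w ^ 2 / (4 * h))]; ring
    rw [h7, h8] at h5
    exact le_of_mul_le_mul_right h5 (mul_pos hA hA')
  have h9 := Real.exp_le_exp.1 h6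
  have h10 : θ * L * w + θ ^ 2 * L ^ 2 * h + w ^ 2 / (4 * h) = θ * (2 * L * w) := by
    rw [hθ]; field_simp; ring
  rw [h10] at h9
  exact le_of_mul_le_mul_left h9 hθ0

theorem two_cosh (t : ℝ) : 2 + t ^ 2 ≤ Real.exp t + Real.exp (-t) := by
  have h1 : Real.exp t + Real.exp (-t) - 2 = (Real.exp (t/2) - Real.exp (-(t/2))) ^ 2 := by
    have e1 : Real.exp t = Real.exp (t/2) * Real.exp (t/2) := by rw [← Real.exp_add]; ring_nf
    have e2 : Real.exp (-t) = Real.exp (-(t/2)) * Real.exp (-(t/2)) := by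
      rw [← Real.exp_add]; ring_nf
    have e3 : Real.exp (t/2) * Real.exp (-(t/2)) = 1 := by rw [← Real.exp_add]; simp
    rw [e1, e2]; nlinarith
  have h2 : t ^ 2 ≤ (Real.exp (t/2) - Real.exp (-(t/2))) ^ 2 := by
    have h3 : Real.exp (t/2) - Real.exp (-(t/2)) = 2 * Real.sinh (t/2) := by
      rw [Real.sinh_eq]; ring
    rw [h3]
    rcases le_total 0 t with ht | ht
    · have h4 : t/2 ≤ Real.sinh (t/2) := Real.self_le_sinh_iff.2 (by linarith)
      nlinarith
    · have h4 : Real.sinh (t/2) ≤ t/2 := Real.sinh_le_self_iff.2 (by linarith)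
      nlinarith
  linarith

theorem var_f [IsProbabilityMeasure ν] (hh : 0 < h) (hPL : PL3 ν ν ν 1) {v : E k → ℝ}
    (hv : Continuous v) (hb : ∀ x, |v x| ≤ 1) {L : ℝ} (hL : 0 < L)
    (hlip : ∀ x x', v x - v x' ≤ L * ‖x - x'‖) (y : E k) (hz : 0 < zn h ν y) :
    nu h ν (fun x => v x ^ 2) y / zn h ν y - (nu h ν v y / zn h ν y) ^ 2 ≤ 2 * h * L ^ 2 := by
  obtain ⟨θ, hθ⟩ : ∃ θ, θ = 1 / (L * Real.sqrt h) := ⟨_, rfl⟩
  have hsh : 0 < Real.sqrt h := Real.sqrt_pos.2 hh
  have hθ0 : 0 < θ := by rw [hθ]; positivity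
  have hθ2 : θ ^ 2 * L ^ 2 * h = 1 := by
    rw [hθ, div_pow, mul_pow, Real.sq_sqrt hh.le]; field_simp
  have h1 := plI hh hPL hv hb hθ0.le hL.le hlip y y (ν := ν)
  have hyy : (1 / 2 : ℝ) • (y + y) = y := by
    rw [← two_smul ℝ y, smul_smul]; norm_num
  rw [hyy, sub_self, norm_zero, mul_zero, zero_add, hθ2] at h1
  have h3 := jen hh hv hb θ y hz (ν := ν)
  have h4 := jen hh hv hb (-θ) y hz (ν := ν)
  set A := zn h ν y with hA
  set f := nu h ν v y / A with hf
  set I := nu h ν (fun x => Real.exp (θ * v x)) y with hI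
  set J := nu h ν (fun x => Real.exp (-θ * v x)) y with hJ
  set m := nu h ν (fun x => v x ^ 2) y / A with hm
  obtain ⟨p, hp⟩ : ∃ p, p = I * Real.exp (-θ * f) / A := ⟨_, rfl⟩
  obtain ⟨q, hq⟩ : ∃ q, q = J * Real.exp (θ * f) / A := ⟨_, rfl⟩
  have hee : Real.exp (-θ * f) * Real.exp (θ * f) = 1 := by rw [← Real.exp_add]; simp
  have hp1 : 1 ≤ p := by
    rw [hp, le_div_iff₀ hz, one_mul]
    calc A = (Real.exp (θ * f) * A) * Real.exp (-θ * f) := by
          rw [mul_comm (Real.exp (θ * f)), mul_assoc, mul_comm (Real.exp (θ * f)), hee, mul_one]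
      _ ≤ _ := mul_le_mul_of_nonneg_right h3 (Real.exp_pos _).le
  have hq1 : 1 ≤ q := by
    rw [hq, le_div_iff₀ hz, one_mul]
    calc A = (Real.exp (-θ * f) * A) * Real.exp (θ * f) := by
          rw [mul_comm (Real.exp (-θ * f)), mul_assoc, hee, mul_one]
      _ ≤ _ := mul_le_mul_of_nonneg_right h4 (Real.exp_pos _).le
  have hpq : p * q ≤ Real.exp 1 := by
    have : p * q = I * J / A ^ 2 := by
      rw [hp, hq]
      have : I * Real.exp (-θ * f) / A * (J * Real.exp (θ * f) / A) =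
        I * J * (Real.exp (-θ * f) * Real.exp (θ * f)) / A ^ 2 := by field_simp
      rw [this, hee, mul_one]
    rw [this, div_le_iff₀ (by positivity)]
    exact h1
  -- p + q
  have i1 := int_ke hh hv hb (ν := ν) y
  have i0 := int_ke' (ν := ν) hh y
  have hv2 : Continuous (fun x => v x ^ 2) := hv.pow 2
  have hb2 : ∀ x, |v x ^ 2| ≤ 1 := fun x => by
    rw [abs_pow]; exact pow_le_one₀ (abs_nonneg _) (hb x)
  have i2 := int_ke hh hv2 hb2 (ν := ν) y
  have bexp : ∀ s : ℝ, ∀ x, |Real.exp (s * v x)| ≤ Real.exp |s| := by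
    intro s x
    rw [abs_of_pos (Real.exp_pos _)]
    apply Real.exp_le_exp.2
    calc s * v x ≤ |s * v x| := le_abs_self _
      _ = |s| * |v x| := abs_mul _ _
      _ ≤ |s| * 1 := mul_le_mul_of_nonneg_left (hb x) (abs_nonneg _)
      _ = |s| := mul_one _
  have i3 := int_ke hh (by fun_prop : Continuous (fun x => Real.exp (θ * v x))) (bexp θ) y (ν := ν)
  have i4 := int_ke hh (by fun_prop : Continuous (fun x => Real.exp (-θ * v x))) (bexp (-θ)) y
    (ν := ν)
  have hsum : (2 + θ ^ 2 * (m - f ^ 2)) * A ≤ I * Real.exp (-θ * f) + J * Real.exp (θ * f) := by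
    have h5 : ∫ x, ((2 + θ ^ 2 * f ^ 2) * ke h y x + ((-2 * θ ^ 2 * f) * (v x * ke h y x) +
        θ ^ 2 * (v x ^ 2 * ke h y x))) ∂ν ≤
        ∫ x, (Real.exp (-θ * f) * (Real.exp (θ * v x) * ke h y x) +
          Real.exp (θ * f) * (Real.exp (-θ * v x) * ke h y x)) ∂ν := by
      apply integral_mono
      · exact (i0.const_mul _).add ((i1.const_mul _).add (i2.const_mul _))
      · exact (i3.const_mul _).add (i4.const_mul _)
      · intro x
        show (2 + θ ^ 2 * f ^ 2) * ke h y x + ((-2 * θ ^ 2 * f) * (v x * ke h y x) +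
          θ ^ 2 * (v x ^ 2 * ke h y x)) ≤ Real.exp (-θ * f) * (Real.exp (θ * v x) * ke h y x) +
          Real.exp (θ * f) * (Real.exp (-θ * v x) * ke h y x)
        have h6 := two_cosh (θ * (v x - f))
        have e1 : Real.exp (θ * (v x - f)) = Real.exp (-θ * f) * Real.exp (θ * v x) := by
          rw [← Real.exp_add]; ring_nf
        have e2 : Real.exp (-(θ * (v x - f))) = Real.exp (θ * f) * Real.exp (-θ * v x) := by
          rw [← Real.exp_add]; ring_nf
        rw [e1, e2] at h6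
        have h7 := mul_le_mul_of_nonneg_right h6 (ke_pos h y x).le
        calc _ = (2 + (θ * (v x - f)) ^ 2) * ke h y x := by ring
          _ ≤ _ := h7
          _ = _ := by ring
    have j1 : Integrable (fun x => (-2 * θ ^ 2 * f) * (v x * ke h y x) +
        θ ^ 2 * (v x ^ 2 * ke h y x)) ν := (i1.const_mul _).add (i2.const_mul _)
    rw [integral_add (i0.const_mul _) j1,
      integral_add (i1.const_mul _) (i2.const_mul _), integral_const_mul, integral_const_mul,
      integral_const_mul, integral_add (i3.const_mul _) (i4.const_mul _), integral_const_mul,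
      integral_const_mul] at h5
    have g1 : ∫ x, v x * ke h y x ∂ν = f * A := by
      rw [hf, div_mul_cancel₀ _ hz.ne']; rfl
    have g2 : ∫ x, v x ^ 2 * ke h y x ∂ν = m * A := by
      rw [hm, div_mul_cancel₀ _ hz.ne']; rfl
    have g3 : ∫ x, Real.exp (θ * v x) * ke h y x ∂ν = I := rfl
    have g4 : ∫ x, Real.exp (-θ * v x) * ke h y x ∂ν = J := rfl
    rw [g1, g2, g3, g4, ← zn_eq, ← hA] at h5
    calc _ = (2 + θ ^ 2 * f ^ 2) * A + (-2 * θ ^ 2 * f * (f * A) + θ ^ 2 * (m * A)) := by ring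
      _ ≤ _ := h5
      _ = _ := by ring
  have hsum2 : 2 + θ ^ 2 * (m - f ^ 2) ≤ p + q := by
    rw [hp, hq, ← add_div, le_div_iff₀ hz]
    exact hsum
  have h8 : 1 + θ ^ 2 * (m - f ^ 2) ≤ Real.exp 1 := by nlinarith [mul_nonneg (sub_nonneg.2 hp1) (sub_nonneg.2 hq1)]
  have h9 : θ ^ 2 * (m - f ^ 2) ≤ 2 := by have := Real.exp_one_lt_d9; linarith
  have h10 : (m - f ^ 2) = (θ ^ 2 * (m - f ^ 2)) * (L ^ 2 * h) := by
    calc m - f ^ 2 = (m - f ^ 2) * (θ ^ 2 * L ^ 2 * h) := by rw [hθ2, mul_one]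
      _ = _ := by ring
  rw [h10]
  have h11 : 0 ≤ L ^ 2 * h := by positivity
  nlinarith [mul_le_mul_of_nonneg_right h9 h11]

end L2aux

open L2aux in
theorem px (h1 : S_REP) (h2 : S_ZN) : S_PX := by
  intro k h B L ν hh hB hL hν hPL v hv hb hfd
  have hp := hν.prob
  obtain ⟨z1, z2, z3, _, _, z6, z7⟩ := h2 k h B ν hh hB hν
  have hvc : Continuous v := hv.continuous
  have hv2 : Continuous (fun x => v x ^ 2) := hvc.pow 2
  have hb2 : ∀ x, |v x ^ 2| ≤ 1 := fun x => by
    rw [abs_pow]; exact pow_le_one₀ (abs_nonneg _) (hb x)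
  obtain ⟨a1, a2, a3⟩ := lemA h2 hh hB hν hvc hb
  obtain ⟨b1, b2, b3⟩ := lemA h2 hh hB hν hv2 hb2
  have hlip : ∀ x x', v x - v x' ≤ L * ‖x - x'‖ := lip_of_fderiv hv hfd
  have hlip' : ∀ L', L < L' → ∀ x x', v x - v x' ≤ L' * ‖x - x'‖ := fun L' hL' x x' =>
    (hlip x x').trans (mul_le_mul_of_nonneg_right hL'.le (norm_nonneg _))
  set f : E k → ℝ := fun y => nu h ν v y / zn h ν y with hf
  set m : E k → ℝ := fun y => nu h ν (fun x => v x ^ 2) y / zn h ν y with hm
  have hfC : ContDiff ℝ 1 f := a1.div z1 fun y => (z2 y).ne'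
  have hmc : Continuous m := b1.continuous.div z1.continuous fun y => (z2 y).ne'
  have habs : ∀ u : E k → ℝ, Continuous u → (∀ x, |u x| ≤ 1) → ∀ y,
      |nu h ν u y / zn h ν y| ≤ 1 := by
    intro u hu hub y
    rw [abs_div, abs_of_pos (z2 y), div_le_one (z2 y)]
    refine (abs_integral_le_integral_abs).trans ?_
    rw [zn_eq]
    apply integral_mono (int_ke hh hu hub y).abs (int_ke' hh y)
    intro x
    show |u x * ke h y x| ≤ ke h y x
    rw [abs_mul, abs_of_pos (ke_pos h y x)]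
    exact mul_le_of_le_one_left (ke_pos h y x).le (hub x)
  have hf1 : ∀ y, |f y| ≤ 1 := habs v hvc hb
  have hm1 : ∀ y, |m y| ≤ 1 := habs _ hv2 hb2
  refine ⟨f, hfC, hf1, ?_, ?_⟩
  · intro y
    apply le_of_forall_pos_le_add
    intro ε hε
    have hL' : L < L + ε / 2 := by linarith
    have hlf : ∀ y y', |f y' - f y| ≤ 2 * (L + ε / 2) * ‖y' - y‖ := by
      intro y y'
      rw [abs_le]
      constructor
      · have := lip_f hh hPL hvc hb (by linarith : 0 < L + ε / 2) (hlip' _ hL') z2 y' y (ν := ν)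
        rw [norm_sub_rev] at this
        show -(2 * (L + ε / 2) * ‖y' - y‖) ≤ f y' - f y
        linarith
      · exact lip_f hh hPL hvc hb (by linarith : 0 < L + ε / 2) (hlip' _ hL') z2 y y' (ν := ν)
    have hlw : LipschitzWith (Real.toNNReal (2 * (L + ε / 2))) f := by
      apply LipschitzWith.of_dist_le_mul
      intro a b
      rw [Real.dist_eq, dist_eq_norm, Real.coe_toNNReal _ (by linarith)]
      exact hlf b a
    have := norm_fderiv_le_of_lipschitz ℝ hlw (x₀ := y)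
    rw [Real.coe_toNNReal _ (by linarith)] at this
    linarith
  · -- variance
    have hlin : ∀ (g : E k → ℝ), (∀ y, |g y| ≤ 1) → ∀ y, |g y| ≤ 1 * (1 + ‖y‖) := fun g hg y => by
      have := hg y; have := norm_nonneg y; linarith
    obtain ⟨_, _, rf⟩ := h1 k h B 1 ν f hh hν hfC.continuous (hlin f hf1)
    obtain ⟨_, rm1, rm⟩ := h1 k h B 1 ν m hh hν hmc (hlin m hm1)
    have hf2b : ∀ y, |f y ^ 2| ≤ 1 := fun y => by
      rw [abs_pow]; exact pow_le_one₀ (abs_nonneg _) (hf1 y)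
    obtain ⟨_, rf21, rf2⟩ := h1 k h B 1 ν (fun y => f y ^ 2) hh hν (hfC.continuous.pow 2)
      (hlin _ hf2b)
    have hgc : 0 < gc (Fin k) h := by
      rw [← z7]
      apply integral_pos_of_integrable_nonneg_nonzero (x := 0) z1.continuous z6
        (fun y => (z2 y).le) (z2 0).ne'
    have efv : ey h ν f = ∫ x, v x ∂ν := by
      rw [rf]
      have : ∀ y, f y * zn h ν y = nu h ν v y := fun y => div_mul_cancel₀ _ (z2 y).ne'
      simp_rw [this]
      rw [a3]; field_simp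
    have emv : ey h ν m = ∫ x, v x ^ 2 ∂ν := by
      rw [rm]
      have : ∀ y, m y * zn h ν y = nu h ν (fun x => v x ^ 2) y := fun y =>
        div_mul_cancel₀ _ (z2 y).ne'
      simp_rw [this]
      rw [b3]; field_simp
    have key : ∀ L', L < L' → (∫ x, v x ^ 2 ∂ν) - (∫ x, v x ∂ν) ^ 2 ≤
        2 * h * L' ^ 2 + (ey h ν (fun y => f y ^ 2) - ey h ν f ^ 2) := by
      intro L' hL'
      have hpt : ∀ y, m y * zn h ν y ≤ f y ^ 2 * zn h ν y + 2 * h * L' ^ 2 * zn h ν y := by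
        intro y
        have h3 := var_f hh hPL hvc hb (by linarith : 0 < L') (hlip' _ hL') y (z2 y) (ν := ν)
        have h4 : m y ≤ f y ^ 2 + 2 * h * L' ^ 2 := by
          show nu h ν (fun x => v x ^ 2) y / zn h ν y ≤ (nu h ν v y / zn h ν y) ^ 2 + _
          linarith
        calc m y * zn h ν y ≤ (f y ^ 2 + 2 * h * L' ^ 2) * zn h ν y :=
              mul_le_mul_of_nonneg_right h4 (z2 y).le
          _ = _ := by ring
      have h5 : ∫ y, m y * zn h ν y ≤ ∫ y, (f y ^ 2 * zn h ν y + 2 * h * L' ^ 2 * zn h ν y) :=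
        integral_mono rm1 (rf21.add (z6.const_mul _)) hpt
      rw [integral_add rf21 (z6.const_mul _), integral_const_mul, z7] at h5
      have h6 : ey h ν m ≤ ey h ν (fun y => f y ^ 2) + 2 * h * L' ^ 2 := by
        rw [rm, rf2]
        have h7 := mul_le_mul_of_nonneg_left h5 (inv_pos.2 hgc).le
        have h8 : (gc (Fin k) h)⁻¹ * ((∫ y, f y ^ 2 * zn h ν y) + 2 * h * L' ^ 2 * gc (Fin k) h) =
            (gc (Fin k) h)⁻¹ * (∫ y, f y ^ 2 * zn h ν y) + 2 * h * L' ^ 2 := by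
          rw [mul_add, mul_comm (gc (Fin k) h)⁻¹ (2 * h * L' ^ 2 * gc (Fin k) h),
            mul_assoc _ (gc (Fin k) h), mul_inv_cancel₀ hgc.ne', mul_one]
        rw [h8] at h7
        exact h7
      rw [← emv, ← efv]
      linarith
    have hcont : Tendsto (fun L' : ℝ => 2 * h * L' ^ 2 +
        (ey h ν (fun y => f y ^ 2) - ey h ν f ^ 2)) (𝓝[>] L)
        (𝓝 (2 * h * L ^ 2 + (ey h ν (fun y => f y ^ 2) - ey h ν f ^ 2))) := by
      apply tendsto_nhdsWithin_of_tendsto_nhds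
      apply Continuous.tendsto
      fun_prop
    apply ge_of_tendsto hcont
    filter_upwards [self_mem_nhdsWithin] with L' hL'
    exact key L' hL'

end Pool.Agent.R755.KF
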