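import Pool.Agent.R755.KF.Defs
import Pool.Agent.R339.KFaux

/-!
# KF, P3: variances of functions of `X + √h Z`
-/

set_option autoImplicit false

namespace Pool.Agent.R755.KF

open MeasureTheory Set Filter Topology
open scoped ENNReal InnerProductSpace
open Pool.Agent.H888R2.KT (gs gc)
open Pool.Agent.R754.KG (E)
open Pool.Agent.R339.KFaux

namespace P3aux

variable {k : ℕ}

theorem bc_int {B : ℝ} {f : E k → ℝ} (hf : BC B f) (ν : Measure (E k)) [IsProbabilityMeasure ν] :
    Integrable f ν :=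
  (integrable_const B).mono' hf.c.aestronglyMeasurable
    (Filter.Eventually.of_forall fun y => by rw [Real.norm_eq_abs]; exact hf.b y)

theorem expand (L : E k →L[ℝ] ℝ) (v : E k) :
    L v = ∑ j, v j * L (EuclideanSpace.single j 1) := by
  have h1 : v = ∑ j, v j • (EuclideanSpace.single j (1 : ℝ) : E k) := by
    have h2 := (EuclideanSpace.basisFun (Fin k) ℝ).sum_repr v
    simp only [EuclideanSpace.basisFun_repr, EuclideanSpace.basisFun_apply] at h2
    exact h2.symm
  conv_lhs => rw [h1]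
  rw [map_sum]
  exact Finset.sum_congr rfl fun j _ => by rw [map_smul, smul_eq_mul]

end P3aux

open P3aux in
/-- P3 -/
theorem var_ok (h1 : S_IMP) (h2 : S_BE) : S_VAR := by
  intro k h A B C K ν f hA hAh hν hf hK hKb
  have hh : 0 < h := by linarith
  have := hν.pb.prob
  have fbc := bl_bc hf
  have gbc := gd_bc hf
  have Sbl := gs_bl hf hh
  have Sbc := bl_bc Sbl
  have Gbc := gd_bc Sbl
  have gsf2 := gs_bc fbc.sq hh
  have gsg := gs_bc gbc hh
  set D := ey h ν (fun y => ‖fderiv ℝ f y‖ ^ 2) with hD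
  set G := ∫ x, ‖fderiv ℝ (gs h f) x‖ ^ 2 ∂ν with hG
  have hD0 : 0 ≤ D := by
    rw [hD]
    unfold ey
    refine integral_nonneg fun x => ?_
    have h3 := gs_mono (bc_const (k := k) 0) gbc (fun y => by positivity) hh x
    rwa [gs_one hh] at h3
  -- step 1
  have I0 : Integrable (fun x => 3 / 4 * gs h (fun y => ‖fderiv ℝ f y‖ ^ 2) x) ν :=
    (bc_int gsg ν).const_mul _
  have I0' : Integrable (fun x => 1 / 4 * ‖fderiv ℝ (gs h f) x‖ ^ 2) ν :=
    (bc_int Gbc ν).const_mul _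
  have I1 : Integrable (fun x => 3 / 4 * gs h (fun y => ‖fderiv ℝ f y‖ ^ 2) x +
      1 / 4 * ‖fderiv ℝ (gs h f) x‖ ^ 2) ν := I0.add I0'
  have I2 : Integrable (fun x => h * (3 / 4 * gs h (fun y => ‖fderiv ℝ f y‖ ^ 2) x +
      1 / 4 * ‖fderiv ℝ (gs h f) x‖ ^ 2)) ν := I1.const_mul h
  have p1 : ey h ν (fun y => f y ^ 2) ≤ (∫ x, gs h f x ^ 2 ∂ν) + h * (3 / 4 * D + 1 / 4 * G) := by
    have e1 : (∫ x, gs h f x ^ 2 ∂ν) + h * (3 / 4 * D + 1 / 4 * G) =
        ∫ x, (gs h f x ^ 2 + h * (3 / 4 * gs h (fun y => ‖fderiv ℝ f y‖ ^ 2) x +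
          1 / 4 * ‖fderiv ℝ (gs h f) x‖ ^ 2)) ∂ν := by
      rw [integral_add (bc_int Sbc.sq ν) I2, integral_const_mul, integral_add I0 I0',
        integral_const_mul, integral_const_mul]
      rfl
    rw [e1]
    unfold ey
    refine integral_mono (bc_int gsf2 ν) ((bc_int Sbc.sq ν).add I2) fun x => ?_
    have h3 := h1 k h C f hh hf x
    simp only
    linarith
  -- step 2
  have p2 := hν.poi (gs h f) Sbl.c1
  -- step 3
  have p3 : ∀ j : Fin k, ∫ x, gs h (pd f j) x ^ 2 ∂ν ≤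
      (ey h ν (pd f j)) ^ 2 + A / h * ∫ x, gs h (fun y => pd f j y ^ 2) x ∂ν := by
    intro j
    have hj := pd_bc hf j
    obtain ⟨q1, q2, q3⟩ := h2 k h C (pd f j) hh hj.c hj.b
    have h3 := hν.poi (gs h (pd f j)) q1
    have h4 : ∀ x, ‖fderiv ℝ (gs h (pd f j)) x‖ ^ 2 ≤ gs h (fun y => pd f j y ^ 2) x / h := by
      intro x
      rw [le_div_iff₀ hh]
      have h5 := q3 x
      nlinarith [sq_nonneg (gs h (pd f j) x)]
    have bj := gs_bc hj.sq hh
    have h6 : ∫ x, ‖fderiv ℝ (gs h (pd f j)) x‖ ^ 2 ∂ν ≤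
        (∫ x, gs h (fun y => pd f j y ^ 2) x ∂ν) / h := by
      rw [← integral_div]
      refine integral_mono_of_nonneg (Filter.Eventually.of_forall fun x => by positivity)
        ((bc_int bj ν).div_const h) (Filter.Eventually.of_forall h4)
    have h7 := mul_le_mul_of_nonneg_left h6 hA.le
    have h8 : A * ((∫ x, gs h (fun y => pd f j y ^ 2) x ∂ν) / h) =
        A / h * ∫ x, gs h (fun y => pd f j y ^ 2) x ∂ν := by ring
    unfold ey
    linarith
  have p4 : G = ∑ j, ∫ x, gs h (pd f j) x ^ 2 ∂ν := by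
    rw [hG, ← integral_finsetSum _ fun j _ => bc_int (gs_bc (pd_bc hf j) hh).sq ν]
    refine integral_congr_ae (Filter.Eventually.of_forall fun x => ?_)
    simp only
    rw [norm_sq_pd]
    exact Finset.sum_congr rfl fun j _ => by rw [pd_gs hf hh]
  have p5 : D = ∑ j, ∫ x, gs h (fun y => pd f j y ^ 2) x ∂ν := by
    rw [hD, ← integral_finsetSum _ fun j _ => bc_int (gs_bc (pd_bc hf j).sq hh) ν]
    unfold ey
    refine integral_congr_ae (Filter.Eventually.of_forall fun x => ?_)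
    simp only
    have e2 : (fun y => ‖fderiv ℝ f y‖ ^ 2) = fun y => ∑ j, pd f j y ^ 2 := by
      funext y
      rw [norm_sq_pd]
    rw [e2, gs_sum Finset.univ (fun j _ => (pd_bc hf j).sq) hh]
  -- step 4
  have p6 : ∑ j, (ey h ν (pd f j)) ^ 2 ≤ K ^ 2 := by
    set v : E k := WithLp.toLp 2 (fun j => ey h ν (pd f j)) with hv
    have hvj : ∀ j, v j = ey h ν (pd f j) := fun j => rfl
    have e1 : ey h ν (fun y => fderiv ℝ f y v) = ∑ j, (ey h ν (pd f j)) ^ 2 := by
      have e2 : (fun y => fderiv ℝ f y v) = fun y => ∑ j, v j * pd f j y := by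
        funext y
        exact expand _ _
      rw [e2]
      unfold ey
      have e3 : ∀ x, gs h (fun y => ∑ j, v j * pd f j y) x = ∑ j, v j * gs h (pd f j) x := by
        intro x
        rw [gs_sum Finset.univ (fun j _ => (pd_bc hf j).const_mul (v j)) hh]
        exact Finset.sum_congr rfl fun j _ => gs_const_mul _ _ _ _
      simp only [e3]
      rw [integral_finsetSum _ fun j _ => (bc_int (gs_bc (pd_bc hf j) hh) ν).const_mul _]
      refine Finset.sum_congr rfl fun j _ => ?_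
      rw [integral_const_mul, hvj, pow_two]
      rfl
    have e4 : ‖v‖ ^ 2 = ∑ j, (ey h ν (pd f j)) ^ 2 := by
      rw [EuclideanSpace.norm_sq_eq]
      refine Finset.sum_congr rfl fun j _ => ?_
      rw [Real.norm_eq_abs, sq_abs, hvj]
    have e5 := hKb v
    rw [e1, ← e4, abs_of_nonneg (by positivity)] at e5
    rw [← e4]
    have hv0 := norm_nonneg v
    by_cases h0 : ‖v‖ = 0
    · rw [h0, zero_pow two_ne_zero]
      positivity
    · have hvp : 0 < ‖v‖ := lt_of_le_of_ne hv0 (Ne.symm h0)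
      have e6 : ‖v‖ ≤ K := by
        rw [pow_two] at e5
        exact le_of_mul_le_mul_right e5 hvp
      exact pow_le_pow_left₀ hv0 e6 2
  have p7 : G ≤ K ^ 2 + A / h * D := by
    rw [p4, p5, Finset.mul_sum]
    calc ∑ j, ∫ x, gs h (pd f j) x ^ 2 ∂ν
        ≤ ∑ j, ((ey h ν (pd f j)) ^ 2 + A / h * ∫ x, gs h (fun y => pd f j y ^ 2) x ∂ν) :=
          Finset.sum_le_sum fun j _ => p3 j
      _ = ∑ j, (ey h ν (pd f j)) ^ 2 +
          ∑ j, A / h * ∫ x, gs h (fun y => pd f j y ^ 2) x ∂ν := Finset.sum_add_distrib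
      _ ≤ _ := by linarith
  have p8 : A / h ≤ 1 / 32 := by
    rw [div_le_div_iff₀ hh (by norm_num)]
    linarith
  have p9 : G ≤ K ^ 2 + 1 / 32 * D := by
    have := mul_le_mul_of_nonneg_right p8 hD0
    linarith
  have hG0 : 0 ≤ G := integral_nonneg fun x => by positivity
  have e7 : ey h ν f = ∫ x, gs h f x ∂ν := rfl
  rw [e7]
  have q1 : A * G ≤ h / 32 * G := mul_le_mul_of_nonneg_right (by linarith) hG0
  have q2 : h * (9 / 32) * G ≤ h * (9 / 32) * (K ^ 2 + 1 / 32 * D) :=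
    mul_le_mul_of_nonneg_left p9 (by positivity)
  have hK2 : 0 ≤ h * K ^ 2 := by positivity
  have hDh : 0 ≤ h * D := by positivity
  nlinarith [p1, p2, q1, q2, hK2, hDh]

end Pool.Agent.R755.KF
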