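import Pool.Agent.R755.KF.Defs

/-! Task T1 (helper711): the angle between two densities. -/

set_option autoImplicit false

namespace Pool.Agent.R755.KF

open MeasureTheory Set Filter Topology
open scoped ENNReal InnerProductSpace
open Pool.Agent.H888R2.KT (gs gc)

namespace T1aux

theorem sin_om (q : ℝ) : Real.sin (2 * Real.arctan q - Real.pi / 2) = (q ^ 2 - 1) / (q ^ 2 + 1) := by
  rw [Real.sin_sub_pi_div_two, Real.cos_two_mul, Real.cos_sq_arctan]
  have : (0 : ℝ) < q ^ 2 + 1 := by positivity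
  field_simp
  ring

theorem cos_om (q : ℝ) : Real.cos (2 * Real.arctan q - Real.pi / 2) = 2 * q / (q ^ 2 + 1) := by
  rw [Real.cos_sub_pi_div_two, Real.sin_two_mul, Real.sin_arctan, Real.cos_arctan]
  have h1 : (0 : ℝ) < 1 + q ^ 2 := by positivity
  have h2 : 0 < Real.sqrt (1 + q ^ 2) := Real.sqrt_pos.2 h1
  have h3 : Real.sqrt (1 + q ^ 2) * Real.sqrt (1 + q ^ 2) = 1 + q ^ 2 := Real.mul_self_sqrt h1.le
  have h4 : 2 * (q / Real.sqrt (1 + q ^ 2)) * (1 / Real.sqrt (1 + q ^ 2)) =
      2 * q / (Real.sqrt (1 + q ^ 2) * Real.sqrt (1 + q ^ 2)) := by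
    field_simp
  rw [h4, h3, add_comm]

end T1aux

open T1aux in
theorem om_ok (h1 : S_ZN) : S_OM := by
  intro k h B νa νb hh hB ha hb
  obtain ⟨ca, pa, -, da, -, -, -⟩ := h1 k h B νa hh hB ha
  obtain ⟨cb, pb, -, db, -, -, -⟩ := h1 k h B νb hh hB hb
  set za := zn h νa with hza
  set zb := zn h νb with hzb
  have hq2 : ∀ y, Real.sqrt (zb y / za y) ^ 2 = zb y / za y := fun y =>
    Real.sq_sqrt (div_pos (pb y) (pa y)).le
  have hom : om h νa νb = fun y => 2 * Real.arctan (Real.sqrt (zb y / za y)) - Real.pi / 2 := rfl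
  have hsin : ∀ y, Real.sin (om h νa νb y) = (zb y - za y) / (za y + zb y) := by
    intro y
    rw [hom]
    simp only
    rw [sin_om, hq2]
    have h2 := pa y
    have h3 := pb y
    field_simp
    ring
  have hcos : ∀ y, Real.cos (om h νa νb y) =
      2 * Real.sqrt (za y * zb y) / (za y + zb y) := by
    intro y
    rw [hom]
    simp only
    rw [cos_om, hq2]
    have h2 := pa y
    have h3 := pb y
    have h4 : Real.sqrt (za y * zb y) = za y * Real.sqrt (zb y / za y) := by
      have : za y * zb y = (za y) ^ 2 * (zb y / za y) := by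
        field_simp
      rw [this, Real.sqrt_mul (by positivity), Real.sqrt_sq h2.le]
    rw [h4]
    field_simp
    ring
  have hbd : ∀ y, |om h νa νb y| < Real.pi / 2 := by
    intro y
    have h2 : 0 < Real.arctan (Real.sqrt (zb y / za y)) :=
      Real.arctan_pos.2 (Real.sqrt_pos.2 (div_pos (pb y) (pa y)))
    have h3 := Real.arctan_lt_pi_div_two (Real.sqrt (zb y / za y))
    rw [hom]
    simp only
    rw [abs_lt]
    constructor <;> linarith
  have hder : ∀ y, HasFDerivAt (om h νa νb) (Real.cos (om h νa νb y) • sd h νa νb y) y := by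
    intro y
    have h2 := pa y
    have h3 := pb y
    have hda : HasFDerivAt za (fderiv ℝ za y) y := (ca.differentiable (by norm_num) y).hasFDerivAt
    have hdb : HasFDerivAt zb (fderiv ℝ zb y) y := (cb.differentiable (by norm_num) y).hasFDerivAt
    have hL : HasFDerivAt (fun y => (1 / 2 : ℝ) * (Real.log (zb y) - Real.log (za y)))
        (sd h νa νb y) y := ((hdb.log h3.ne').sub (hda.log h2.ne')).const_mul (1 / 2 : ℝ)
    have h5 := ((hL.exp.arctan).const_mul 2).sub_const (Real.pi / 2)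
    have hexp : ∀ x, Real.exp ((1 / 2 : ℝ) * (Real.log (zb x) - Real.log (za x))) =
        Real.sqrt (zb x / za x) := by
      intro x
      rw [← Real.log_div (pb x).ne' (pa x).ne', mul_comm, ← Real.rpow_def_of_pos
        (div_pos (pb x) (pa x)), ← Real.sqrt_eq_rpow]
    have h6 : (fun x => 2 * Real.arctan (Real.exp ((1 / 2 : ℝ) *
        (Real.log (zb x) - Real.log (za x)))) - Real.pi / 2) = om h νa νb := by
      rw [hom]
      funext x
      rw [hexp]
    rw [h6] at h5
    refine h5.congr_fderiv ?_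
    have hcosq : Real.cos (om h νa νb y) =
        2 * Real.sqrt (zb y / za y) / (zb y / za y + 1) := by
      rw [hom]
      simp only
      rw [cos_om, hq2]
    rw [hcosq, hexp, hq2, smul_smul, smul_smul]
    congr 1
    have h8 : 0 < zb y / za y := div_pos h3 h2
    field_simp
    ring
  have hz0 : ∀ y, ‖(zb y)⁻¹ • (fderiv ℝ zb y + ((1 / h) * zb y) • innerSL ℝ y)‖ ≤ B / h := by
    intro y
    have h3 := pb y
    rw [norm_smul, norm_inv, Real.norm_eq_abs, abs_of_pos h3]
    calc (zb y)⁻¹ * ‖fderiv ℝ zb y + ((1 / h) * zb y) • innerSL ℝ y‖ ≤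
        (zb y)⁻¹ * (B / h * zb y) := by
          gcongr
          exact db y
      _ = B / h := by field_simp
  have hz1 : ∀ y, ‖(za y)⁻¹ • (fderiv ℝ za y + ((1 / h) * za y) • innerSL ℝ y)‖ ≤ B / h := by
    intro y
    have h3 := pa y
    rw [norm_smul, norm_inv, Real.norm_eq_abs, abs_of_pos h3]
    calc (za y)⁻¹ * ‖fderiv ℝ za y + ((1 / h) * za y) • innerSL ℝ y‖ ≤
        (za y)⁻¹ * (B / h * za y) := by
          gcongr
          exact da y
      _ = B / h := by field_simp
  have hsd : ∀ y, ‖sd h νa νb y‖ ≤ B / h := by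
    intro y
    have h2 := pa y
    have h3 := pb y
    have h4 : sd h νa νb y = (1 / 2 : ℝ) •
        ((zb y)⁻¹ • (fderiv ℝ zb y + ((1 / h) * zb y) • innerSL ℝ y) -
          (za y)⁻¹ • (fderiv ℝ za y + ((1 / h) * za y) • innerSL ℝ y)) := by
      unfold sd
      simp only [← hza, ← hzb]
      congr 1
      rw [smul_add, smul_add, smul_smul, smul_smul]
      have e1 : (zb y)⁻¹ * ((1 / h) * zb y) = 1 / h := by field_simp
      have e2 : (za y)⁻¹ * ((1 / h) * za y) = 1 / h := by field_simp
      rw [e1, e2]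
      abel
    rw [h4, norm_smul]
    have h5 := norm_sub_le ((zb y)⁻¹ • (fderiv ℝ zb y + ((1 / h) * zb y) • innerSL ℝ y))
      ((za y)⁻¹ • (fderiv ℝ za y + ((1 / h) * za y) • innerSL ℝ y))
    have h6 := hz0 y
    have h7 := hz1 y
    rw [Real.norm_eq_abs, abs_of_pos (by norm_num : (0 : ℝ) < 1 / 2)]
    linarith
  have hC1 : ContDiff ℝ 1 (om h νa νb) := by
    rw [hom]
    have h2 : ContDiff ℝ 1 fun y => zb y / za y := cb.div ca (fun y => (pa y).ne')
    have h3 : ContDiff ℝ 1 fun y => Real.sqrt (zb y / za y) :=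
      h2.sqrt (fun y => (div_pos (pb y) (pa y)).ne')
    exact (contDiff_const.mul h3.arctan).sub contDiff_const
  refine ⟨⟨Real.pi / 2 + B / h, ⟨hC1, ?_, ?_⟩⟩, hbd, hsin, hcos, fun y => (hder y).fderiv⟩
  · intro y
    have h2 : 0 ≤ B / h := by positivity
    linarith [hbd y]
  · intro y
    rw [(hder y).fderiv, norm_smul, Real.norm_eq_abs]
    have h2 := Real.abs_cos_le_one (om h νa νb y)
    have h3 := hsd y
    have h4 : |Real.cos (om h νa νb y)| * ‖sd h νa νb y‖ ≤ 1 * (B / h) := by
      gcongr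
    have h5 := Real.pi_pos
    linarith

end Pool.Agent.R755.KF
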