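import Pool.Agent.R755.KF.Defs
import Pool.Agent.H888R2.KT.N0

/-!
# Convex bodies fibred over a base of small dimension: angle and affinity
-/

set_option autoImplicit false

namespace Pool.Agent.R755.KF

open MeasureTheory Set Filter Topology
open scoped ENNReal InnerProductSpace
open Pool.Agent.H888R2.KT (gs gc)
open Pool.Agent.R754.KG (E un sl Rv)

namespace T2aux

variable {k : ℕ} {h B : ℝ} {νa νb : Measure (E k)}

theorem gcp (hh : 0 < h) : 0 < gc (Fin k) h :=
  (Pool.Agent.H888R2.KT.gc_pos (κ := Fin k) h hh).1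

/-- expectations over two measures with the densities -/
theorem e2_eq (h1 : S_REP) (hh : 0 < h) (ha : PB B νa) (hb : PB B νb)
    (f : E k → ℝ) (hf : Continuous f) (C : ℝ) (hC : ∀ y, |f y| ≤ C) :
    Integrable (fun y => f y * ((zn h νa y + zn h νb y) / 2)) ∧
    e2 h νa νb f = (gc (Fin k) h)⁻¹ * ∫ y, f y * ((zn h νa y + zn h νb y) / 2) := by
  have hC0 : 0 ≤ C := (abs_nonneg _).trans (hC 0)
  have hC' : ∀ y, |f y| ≤ C * (1 + ‖y‖) := fun y => (hC y).trans
    (le_mul_of_one_le_right hC0 (by linarith [norm_nonneg y]))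
  obtain ⟨_, ia, ea⟩ := h1 k h B C νa f hh ha hf hC'
  obtain ⟨_, ib, eb⟩ := h1 k h B C νb f hh hb hf hC'
  have e : (fun y => f y * ((zn h νa y + zn h νb y) / 2)) =
      fun y => (1 / 2 : ℝ) * (f y * zn h νa y) + (1 / 2 : ℝ) * (f y * zn h νb y) := by
    funext y; ring
  refine ⟨?_, ?_⟩
  · rw [e]; exact (ia.const_mul _).add (ib.const_mul _)
  · rw [e, integral_add (ia.const_mul _) (ib.const_mul _), integral_const_mul,
      integral_const_mul, e2, ea, eb]
    ring

theorem e2_mono (h1 : S_REP) (h2 : S_ZN) (hh : 0 < h) (hB : 0 ≤ B) (ha : PB B νa) (hb : PB B νb)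
    (f g : E k → ℝ) (hf : Continuous f) (hg : Continuous g) (C D : ℝ) (hC : ∀ y, |f y| ≤ C)
    (hD : ∀ y, |g y| ≤ D) (hfg : ∀ y, f y ≤ g y) : e2 h νa νb f ≤ e2 h νa νb g := by
  obtain ⟨i1, e1⟩ := e2_eq h1 hh ha hb f hf C hC
  obtain ⟨i2, e2'⟩ := e2_eq h1 hh ha hb g hg D hD
  rw [e1, e2']
  refine mul_le_mul_of_nonneg_left (integral_mono i1 i2 fun y => ?_) (inv_nonneg.2 (gcp hh).le)
  have pa := (h2 k h B νa hh hB ha).2.1 y
  have pb := (h2 k h B νb hh hB hb).2.1 y
  exact mul_le_mul_of_nonneg_right (hfg y) (by positivity)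

/-- the average of `1 - cos om` -/
theorem e2_cos (h1 : S_REP) (h2 : S_ZN) (h3 : S_OM) (hh : 0 < h) (hB : 0 ≤ B) (ha : PB B νa)
    (hb : PB B νb) :
    Integrable (fun y => Real.sqrt (zn h νa y * zn h νb y)) ∧
    e2 h νa νb (fun y => 1 - Real.cos (om h νa νb y)) = 1 - aff h νa νb := by
  obtain ⟨⟨C, hC⟩, _, _, hcos, _⟩ := h3 k h B νa νb hh hB ha hb
  have hc : Continuous (om h νa νb) := hC.c1.continuous
  obtain ⟨i1, e1⟩ := e2_eq h1 hh ha hb (fun y => 1 - Real.cos (om h νa νb y)) (by fun_prop) 2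
    (fun y => by
      rw [abs_le]; constructor <;> linarith [Real.neg_one_le_cos (om h νa νb y),
        Real.cos_le_one (om h νa νb y)])
  obtain ⟨_, pa, _, _, _, ia, ea⟩ := h2 k h B νa hh hB ha
  obtain ⟨_, pb, _, _, _, ib, eb⟩ := h2 k h B νb hh hB hb
  have key : ∀ y, (1 - Real.cos (om h νa νb y)) * ((zn h νa y + zn h νb y) / 2) =
      (1 / 2 : ℝ) * (zn h νa y + zn h νb y) - Real.sqrt (zn h νa y * zn h νb y) := by
    intro y
    rw [hcos y]
    have : zn h νa y + zn h νb y ≠ 0 := (add_pos (pa y) (pb y)).ne'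
    field_simp
  have i2 : Integrable (fun y => (1 / 2 : ℝ) * (zn h νa y + zn h νb y)) :=
    (ia.add ib).const_mul _
  have i3 : Integrable (fun y => Real.sqrt (zn h νa y * zn h νb y)) := by
    have : (fun y => Real.sqrt (zn h νa y * zn h νb y)) = fun y =>
        (1 / 2 : ℝ) * (zn h νa y + zn h νb y) -
          (1 - Real.cos (om h νa νb y)) * ((zn h νa y + zn h νb y) / 2) := by
      funext y; rw [key y]; ring
    rw [this]
    exact i2.sub i1
  refine ⟨i3, ?_⟩
  rw [e1]
  simp only [key]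
  rw [integral_sub i2 i3, integral_const_mul, integral_add ia ib, ea, eb, aff]
  have := (gcp (k := k) hh).ne'
  field_simp
  ring

end T2aux

theorem aff_ok (h1 : S_REP) (h2 : S_ZN) (h3 : S_OM) : S_AFF := by
  intro k h B νa νb hh hB ha hb
  obtain ⟨⟨C, hC⟩, hbd, _, hcos, _⟩ := h3 k h B νa νb hh hB ha hb
  have hc : Continuous (om h νa νb) := hC.c1.continuous
  have hb2 : ∀ y, |om h νa νb y ^ 2| ≤ C ^ 2 := fun y => by
    rw [abs_of_nonneg (sq_nonneg _), ← sq_abs]
    exact pow_le_pow_left₀ (abs_nonneg _) (hC.bd y) 2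
  have hcb : ∀ c : ℝ, 0 ≤ c → ∀ y, |c * (1 - Real.cos (om h νa νb y))| ≤ c * 2 := fun c hc0 y => by
    rw [abs_mul, abs_of_nonneg hc0]
    refine mul_le_mul_of_nonneg_left ?_ hc0
    rw [abs_le]; constructor <;> linarith [Real.neg_one_le_cos (om h νa νb y),
      Real.cos_le_one (om h νa νb y)]
  have hsc : ∀ c : ℝ, e2 h νa νb (fun y => c * (1 - Real.cos (om h νa νb y))) =
      c * (1 - aff h νa νb) := by
    intro c
    rw [← (T2aux.e2_cos h1 h2 h3 hh hB ha hb).2]
    simp only [e2, ey]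
    have : ∀ x, gs h (fun y => c * (1 - Real.cos (om h νa νb y))) x =
        c * gs h (fun y => 1 - Real.cos (om h νa νb y)) x := by
      intro x
      simp only [gs]
      rw [← mul_div_assoc, ← integral_const_mul]
      congr 2
      funext y; ring
    simp only [this, integral_const_mul]
    ring
  constructor
  · rw [← hsc 2]
    refine T2aux.e2_mono h1 h2 hh hB ha hb _ _ (by fun_prop) (by fun_prop) _ _ (hcb 2 (by norm_num))
      hb2 fun y => ?_
    have := Real.one_sub_sq_div_two_le_cos (x := om h νa νb y)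
    linarith
  · rw [← hsc 5]
    refine T2aux.e2_mono h1 h2 hh hB ha hb _ _ (by fun_prop) (by fun_prop) _ _ hb2
      (hcb 5 (by norm_num)) fun y => ?_
    have hpi := Real.pi_pos
    have hpi2 : Real.pi < 3.15 := Real.pi_lt_d2
    have hb' : |om h νa νb y| ≤ Real.pi := by linarith [hbd y]
    have h5 := Real.cos_le_one_sub_mul_cos_sq hb'
    have h6 : 2 / Real.pi ^ 2 ≥ 1 / 5 := by
      rw [ge_iff_le, div_le_div_iff₀ (by norm_num) (by positivity)]
      nlinarith
    have h7 : 1 / 5 * om h νa νb y ^ 2 ≤ 2 / Real.pi ^ 2 * om h νa νb y ^ 2 :=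
      mul_le_mul_of_nonneg_right h6 (sq_nonneg _)
    linarith

end Pool.Agent.R755.KF
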