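import Pool.Agent.R755.KF.Defs
import Pool.Agent.H888R2.KT.N0

/-!
# The main estimate for small angles
-/

set_option autoImplicit false

namespace Pool.Agent.R755.KF

open MeasureTheory Set Filter Topology
open scoped ENNReal InnerProductSpace
open Pool.Agent.H888R2.KT (gs gc)
open Pool.Agent.R754.KG (E un sl Rv)

namespace T4aux

/-- bounded continuous functions -/
structure BC {k : ℕ} (f : E k → ℝ) : Prop where
  cont : Continuous f
  bd : ∃ C : ℝ, ∀ y, |f y| ≤ C

variable {k : ℕ} {f g : E k → ℝ}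

theorem BC.add (hf : BC f) (hg : BC g) : BC (fun y => f y + g y) := by
  obtain ⟨C, hC⟩ := hf.bd
  obtain ⟨C', hC'⟩ := hg.bd
  exact ⟨hf.cont.add hg.cont, C + C', fun y => (abs_add_le _ _).trans (add_le_add (hC y) (hC' y))⟩

theorem BC.mul (hf : BC f) (hg : BC g) : BC (fun y => f y * g y) := by
  obtain ⟨C, hC⟩ := hf.bd
  obtain ⟨C', hC'⟩ := hg.bd
  refine ⟨hf.cont.mul hg.cont, C * C', fun y => ?_⟩
  rw [abs_mul]
  exact mul_le_mul (hC y) (hC' y) (abs_nonneg _) ((abs_nonneg _).trans (hC y))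

theorem BC.const (c : ℝ) : BC (fun _ : E k => c) := ⟨continuous_const, |c|, fun _ => le_rfl⟩

theorem BC.cmul (c : ℝ) (hf : BC f) : BC (fun y => c * f y) := (BC.const c).mul hf

theorem BC.sq (hf : BC f) : BC (fun y => f y ^ 2) := by
  have := hf.mul hf
  simpa only [pow_two] using this

theorem BC.sub (hf : BC f) (hg : BC g) : BC (fun y => f y - g y) := by
  have := hf.add (hg.cmul (-1))
  refine ⟨hf.cont.sub hg.cont, ?_⟩
  obtain ⟨C, hC⟩ := this.bd
  exact ⟨C, fun y => by have := hC y; rwa [neg_one_mul, ← sub_eq_add_neg] at this⟩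

theorem BC.abs (hf : BC f) : BC (fun y => |f y|) := by
  obtain ⟨C, hC⟩ := hf.bd
  exact ⟨hf.cont.abs, C, fun y => by rw [abs_abs]; exact hC y⟩

/-- expectations of bounded continuous functions -/
structure Ef (e : (E k → ℝ) → ℝ) : Prop where
  add : ∀ f g, BC f → BC g → e (fun y => f y + g y) = e f + e g
  smul : ∀ (c : ℝ) f, BC f → e (fun y => c * f y) = c * e f
  mono : ∀ f g, BC f → BC g → (∀ y, f y ≤ g y) → e f ≤ e g
  one : e (fun _ => 1) = 1

theorem Ef.sub {e : (E k → ℝ) → ℝ} (he : Ef e) (hf : BC f) (hg : BC g) :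
    e (fun y => f y - g y) = e f - e g := by
  have h1 := he.add f (fun y => -1 * g y) hf (hg.cmul (-1))
  rw [he.smul _ _ hg] at h1
  have h2 : (fun y => f y - g y) = fun y => f y + -1 * g y := by funext y; ring
  rw [h2, h1]; ring

theorem Ef.nonneg {e : (E k → ℝ) → ℝ} (he : Ef e) (hf : BC f) (h : ∀ y, 0 ≤ f y) : 0 ≤ e f := by
  have h1 := he.mono (fun y => 0 * f y) f (hf.cmul 0) hf (fun y => by rw [zero_mul]; exact h y)
  rwa [he.smul _ _ hf, zero_mul] at h1

theorem Ef.abs_le {e : (E k → ℝ) → ℝ} (he : Ef e) (hf : BC f) (hg : BC g)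
    (h : ∀ y, |f y| ≤ g y) : |e f| ≤ e g := by
  rw [_root_.abs_le]
  constructor
  · have h1 := he.mono (fun y => -1 * g y) f (hg.cmul (-1)) hf
      (fun y => by have := (_root_.abs_le.1 (h y)).1; linarith)
    rw [he.smul _ _ hg] at h1
    linarith
  · exact he.mono f g hf hg (fun y => (_root_.abs_le.1 (h y)).2)

/-- Cauchy–Schwarz -/
theorem Ef.cs {e : (E k → ℝ) → ℝ} (he : Ef e) (hf : BC f) (hg : BC g) :
    |e (fun y => f y * g y)| ≤ Real.sqrt (e fun y => f y ^ 2) * Real.sqrt (e fun y => g y ^ 2) := by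
  have hq : ∀ x : ℝ, 0 ≤ (e fun y => f y ^ 2) * (x * x) + (2 * e fun y => f y * g y) * x +
      e fun y => g y ^ 2 := by
    intro x
    have h1 : 0 ≤ e (fun y => (x * f y + g y) ^ 2) :=
      he.nonneg ((hf.cmul x).add hg).sq (fun y => sq_nonneg _)
    have h2 : (fun y => (x * f y + g y) ^ 2) =
        fun y => ((x * x) * f y ^ 2 + (2 * x) * (f y * g y)) + g y ^ 2 := by
      funext y; ring
    rw [h2, he.add _ _ ((hf.sq.cmul _).add ((hf.mul hg).cmul _)) hg.sq,
      he.add _ _ (hf.sq.cmul _) ((hf.mul hg).cmul _), he.smul _ _ hf.sq,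
      he.smul _ _ (hf.mul hg)] at h1
    linarith
  have h3 := discrim_le_zero hq
  unfold discrim at h3
  have hF : 0 ≤ e fun y => f y ^ 2 := he.nonneg hf.sq (fun y => sq_nonneg _)
  rw [← Real.sqrt_mul hF]
  apply Real.abs_le_sqrt
  nlinarith

theorem ey_rep (h1 : S_REP) {h B : ℝ} {ν : Measure (E k)} (hh : 0 < h) (pb : PB B ν)
    (hf : BC f) : Integrable (fun y => f y * zn h ν y) ∧
    ey h ν f = (gc (Fin k) h)⁻¹ * ∫ y, f y * zn h ν y := by
  obtain ⟨C, hC⟩ := hf.bd
  have hC0 : 0 ≤ C := (abs_nonneg _).trans (hC 0)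
  obtain ⟨_, h3, h4⟩ := h1 k h B C ν f hh pb hf.cont (fun y => by
    have := mul_nonneg hC0 (norm_nonneg y)
    have := hC y
    linarith)
  exact ⟨h3, h4⟩

theorem ey_Ef (h1 : S_REP) (h2 : S_ZN) {h B : ℝ} {ν : Measure (E k)} (hh : 0 < h) (hB : 0 ≤ B)
    (pb : PB B ν) : Ef (ey h ν) := by
  obtain ⟨_, zpos, _, _, _, zint, zi⟩ := h2 k h B ν hh hB pb
  have hg : 0 < gc (Fin k) h := (Pool.Agent.H888R2.KT.gc_pos h hh).1
  refine ⟨fun f g hf hg => ?_, fun c f hf => ?_, fun f g hf hg' hle => ?_, ?_⟩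
  · rw [(ey_rep h1 hh pb (hf.add hg)).2, (ey_rep h1 hh pb hf).2, (ey_rep h1 hh pb hg).2,
      ← mul_add, ← integral_add (ey_rep h1 hh pb hf).1 (ey_rep h1 hh pb hg).1]
    congr 2
    funext y; ring
  · rw [(ey_rep h1 hh pb (hf.cmul c)).2, (ey_rep h1 hh pb hf).2]
    have : (fun y => c * f y * zn h ν y) = fun y => c * (f y * zn h ν y) := by funext y; ring
    rw [this, integral_const_mul]; ring
  · rw [(ey_rep h1 hh pb hf).2, (ey_rep h1 hh pb hg').2]
    refine mul_le_mul_of_nonneg_left ?_ (inv_nonneg.2 hg.le)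
    exact integral_mono (ey_rep h1 hh pb hf).1 (ey_rep h1 hh pb hg').1
      (fun y => mul_le_mul_of_nonneg_right (hle y) (zpos y).le)
  · rw [(ey_rep h1 hh pb (BC.const 1)).2]
    simp only [one_mul]
    rw [zi]
    exact inv_mul_cancel₀ hg.ne'

theorem e2_Ef {h : ℝ} {νa νb : Measure (E k)} (ha : Ef (ey h νa)) (hb : Ef (ey h νb)) :
    Ef (e2 h νa νb) := by
  refine ⟨fun f g hf hg => ?_, fun c f hf => ?_, fun f g hf hg hle => ?_, ?_⟩
  · unfold e2; rw [ha.add f g hf hg, hb.add f g hf hg]; ring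
  · unfold e2; rw [ha.smul c f hf, hb.smul c f hf]; ring
  · unfold e2; have := ha.mono f g hf hg hle; have := hb.mono f g hf hg hle; linarith
  · unfold e2; rw [ha.one, hb.one]; norm_num

/-- the difference of the two expectations -/
theorem diff_eq (h1 : S_REP) (h2 : S_ZN) (h3 : S_OM) {h B : ℝ} {νa νb : Measure (E k)}
    (hh : 0 < h) (hB : 0 ≤ B) (pa : PB B νa) (pb : PB B νb) (hg : BC g) :
    ey h νb g - ey h νa g = 2 * e2 h νa νb (fun y => g y * Real.sin (om h νa νb y)) := by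
  obtain ⟨⟨C, hC⟩, _, hsin, _, _⟩ := h3 k h B νa νb hh hB pa pb
  have hs : BC (fun y => g y * Real.sin (om h νa νb y)) :=
    hg.mul ⟨Real.continuous_sin.comp hC.c1.continuous, 1, fun y => Real.abs_sin_le_one _⟩
  obtain ⟨_, za, _⟩ := h2 k h B νa hh hB pa
  obtain ⟨_, zb, _⟩ := h2 k h B νb hh hB pb
  unfold e2
  rw [(ey_rep h1 hh pa hs).2, (ey_rep h1 hh pb hs).2, (ey_rep h1 hh pa hg).2,
    (ey_rep h1 hh pb hg).2, ← mul_sub, ← mul_add,
    ← integral_sub (ey_rep h1 hh pb hg).1 (ey_rep h1 hh pa hg).1,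
    ← integral_add (ey_rep h1 hh pa hs).1 (ey_rep h1 hh pb hs).1]
  have : (fun y => g y * zn h νb y - g y * zn h νa y) = fun y =>
      g y * Real.sin (om h νa νb y) * zn h νa y + g y * Real.sin (om h νa νb y) * zn h νb y := by
    funext y
    rw [hsin y]
    have := za y
    have := zb y
    field_simp
  rw [this]; ring

/-! real inequalities -/

theorem r1 {t : ℝ} (ht : |t| < Real.pi / 2) : (1 - Real.cos t) ^ 2 ≤ t ^ 2 / 2 := by
  have h1 : 1 - Real.cos t ≤ t ^ 2 / 2 := by linarith [Real.one_sub_sq_div_two_le_cos (x := t)]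
  have h2 : 0 ≤ Real.cos t := Real.cos_nonneg_of_mem_Icc ⟨by linarith [(abs_lt.1 ht).1], by
    linarith [(abs_lt.1 ht).2]⟩
  have h3 := Real.cos_le_one t
  nlinarith

theorem r2 {t : ℝ} (ht : |t| < Real.pi / 2) : |t - Real.sin t| ≤ 8 / 10 * t ^ 2 := by
  have key : ∀ s : ℝ, 0 ≤ s → s < Real.pi / 2 → |s - Real.sin s| ≤ 8 / 10 * s ^ 2 := by
    intro s hs hs2
    have h1 : Real.sin s ≤ s := Real.sin_le hs
    rw [abs_of_nonneg (by linarith)]
    have h2 : s * Real.cos s ≤ Real.sin s := by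
      rcases hs.eq_or_lt with h | h
      · rw [← h]; simp
      · have h3 := Real.lt_tan h hs2
        have hc : 0 < Real.cos s := Real.cos_pos_of_mem_Ioo ⟨by linarith, hs2⟩
        rw [Real.tan_eq_sin_div_cos, lt_div_iff₀ hc] at h3
        exact h3.le
    have h4 : 1 - Real.cos s ≤ s ^ 2 / 2 := by linarith [Real.one_sub_sq_div_two_le_cos (x := s)]
    have h5 : s ≤ 1.6 := by linarith [Real.pi_lt_d2]
    nlinarith
  rcases le_total 0 t with h | h
  · exact key t h ((le_abs_self t).trans_lt ht)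
  · have := key (-t) (by linarith) ((neg_le_abs t).trans_lt ht)
    rw [Real.sin_neg] at this
    have e : |t - Real.sin t| = |-t - -Real.sin t| := by
      rw [← abs_neg]; congr 1; ring
    rw [e]
    calc _ ≤ _ := this
      _ = _ := by ring

theorem r3 (t : ℝ) : |t * Real.sin t| ≤ t ^ 2 := by
  rw [abs_mul, ← sq_abs, pow_two]
  exact mul_le_mul_of_nonneg_left (Real.abs_sin_le_abs (x := t)) (abs_nonneg _)

end T4aux

open T4aux in
theorem cl (h1 : S_REP) (h2 : S_ZN) (h3 : S_OM) (h4 : S_VAR) (h5 : S_GRD) (h6 : S_ST) : S_CL := by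
  intro k h A B D η νa νb hA hAh hD hB hη pa pb hm hpl hQ
  have hh : 0 < h := by linarith
  obtain ⟨⟨C, hC⟩, hlt, hsin, hcos, hder⟩ := h3 k h B νa νb hh hB pa.pb pb.pb
  have hEa := ey_Ef h1 h2 hh hB pa.pb
  have hEb := ey_Ef h1 h2 hh hB pb.pb
  have hE := e2_Ef hEa hEb
  have hdiff : ∀ g : E k → ℝ, BC g → ey h νb g - ey h νa g =
    2 * e2 h νa νb (fun y => g y * Real.sin (om h νa νb y)) := fun g hg =>
      diff_eq h1 h2 h3 hh hB pa.pb pb.pb hg
  have hgrd := h5 k h B η νa νb hh hB pa.pb pb.pb hpl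
  have hst := h6 k h A B D νa νb hA hAh hD hB pa pb hm
  set o := om h νa νb with ho
  set e := e2 h νa νb with he
  have bo : BC o := ⟨hC.c1.continuous, C, hC.bd⟩
  have bs : BC (fun y => Real.sin (o y)) :=
    ⟨Real.continuous_sin.comp bo.cont, 1, fun y => Real.abs_sin_le_one _⟩
  have bc : BC (fun y => Real.cos (o y)) :=
    ⟨Real.continuous_cos.comp bo.cont, 1, fun y => Real.abs_cos_le_one _⟩
  have cd : Continuous (fderiv ℝ o) := hC.c1.continuous_fderiv (by norm_num)
  have bn : BC (fun y => ‖fderiv ℝ o y‖) :=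
    ⟨cd.norm, C, fun y => by rw [abs_norm]; exact hC.gd y⟩
  have bd : ∀ v : E k, BC (fun y => fderiv ℝ o y v) := fun v =>
    ⟨cd.clm_apply continuous_const, C * ‖v‖, fun y => by
      rw [← Real.norm_eq_abs]
      exact (ContinuousLinearMap.le_opNorm _ _).trans
        (mul_le_mul_of_nonneg_right (hC.gd y) (norm_nonneg _))⟩
  set Q := e (fun y => o y ^ 2) with hQd
  set G := e (fun y => ‖fderiv ℝ o y‖ ^ 2) with hGd
  have hQ0 : 0 ≤ Q := hE.nonneg bo.sq (fun y => sq_nonneg _)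
  have hG0 : 0 ≤ G := hE.nonneg bn.sq (fun y => sq_nonneg _)
  -- the norm of partial derivatives
  have hdv : ∀ v : E k, Real.sqrt (e fun y => (fderiv ℝ o y v) ^ 2) ≤ Real.sqrt G * ‖v‖ := by
    intro v
    rw [Real.sqrt_le_left (by positivity), mul_pow, Real.sq_sqrt hG0]
    have := hE.mono (fun y => (fderiv ℝ o y v) ^ 2) (fun y => ‖v‖ ^ 2 * ‖fderiv ℝ o y‖ ^ 2)
      (bd v).sq (bn.sq.cmul _) (fun y => by
        have h7 := ContinuousLinearMap.le_opNorm (fderiv ℝ o y) v
        rw [← sq_abs, ← mul_pow, mul_comm]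
        exact pow_le_pow_left₀ (abs_nonneg _) h7 2)
    rw [hE.smul _ _ bn.sq] at this
    linarith
  -- the constant
  set K := 0.505 * D / h + 0.203 * Real.sqrt G with hK
  have hK0 : 0 ≤ K := by positivity
  have hsQ : Real.sqrt Q ≤ 1 / 10 := by
    rw [Real.sqrt_le_left (by norm_num)]
    linarith
  have hmain : ∀ v : E k, |e (fun y => fderiv ℝ o y v)| +
      |e (fun y => fderiv ℝ o y v * Real.sin (o y))| ≤ K * ‖v‖ := by
    intro v
    have a1 : h * |e fun y => Real.cos (o y) * fderiv ℝ o y v| ≤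
      (D / 2 * (1 + Q) + A * Real.sqrt G) * ‖v‖ := hst v
    have a2 : |e fun y => (1 - Real.cos (o y)) * fderiv ℝ o y v| ≤
        Real.sqrt (Q / 2) * (Real.sqrt G * ‖v‖) := by
      refine (hE.cs ((BC.const 1).sub bc) (bd v)).trans ?_
      refine mul_le_mul ?_ (hdv v) (Real.sqrt_nonneg _) (Real.sqrt_nonneg _)
      apply Real.sqrt_le_sqrt
      have := hE.mono (fun y => (1 - Real.cos (o y)) ^ 2) (fun y => 1 / 2 * o y ^ 2)
        ((BC.const 1).sub bc).sq (bo.sq.cmul _) (fun y => by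
          have := r1 (hlt y)
          linarith)
      rw [hE.smul _ _ bo.sq] at this
      linarith
    have a3 : |e (fun y => fderiv ℝ o y v * Real.sin (o y))| ≤
        (Real.sqrt G * ‖v‖) * Real.sqrt Q := by
      refine (hE.cs (bd v) bs).trans ?_
      refine mul_le_mul (hdv v) ?_ (Real.sqrt_nonneg _) (by positivity)
      apply Real.sqrt_le_sqrt
      exact hE.mono (fun y => Real.sin (o y) ^ 2) (fun y => o y ^ 2) bs.sq bo.sq (fun y => by
        rw [sq_le_sq]
        exact Real.abs_sin_le_abs)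
    have a4 : e (fun y => fderiv ℝ o y v) = (e fun y => Real.cos (o y) * fderiv ℝ o y v) +
        e fun y => (1 - Real.cos (o y)) * fderiv ℝ o y v := by
      rw [← hE.add _ _ (bc.mul (bd v)) (((BC.const 1).sub bc).mul (bd v))]
      congr 1
      funext y; ring
    have a5 : |e (fun y => fderiv ℝ o y v)| ≤ |e fun y => Real.cos (o y) * fderiv ℝ o y v| +
        |e fun y => (1 - Real.cos (o y)) * fderiv ℝ o y v| := by
      rw [a4]; exact abs_add_le _ _
    -- constants
    have b1 : |e fun y => Real.cos (o y) * fderiv ℝ o y v| ≤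
        (0.505 * D / h + 1 / 32 * Real.sqrt G) * ‖v‖ := by
      have : |e fun y => Real.cos (o y) * fderiv ℝ o y v| ≤
          (D / 2 * (1 + Q) + A * Real.sqrt G) * ‖v‖ / h := by
        rw [le_div_iff₀ hh, mul_comm]; exact a1
      refine this.trans ?_
      rw [div_le_iff₀ hh]
      have e1 : (0.505 * D / h + 1 / 32 * Real.sqrt G) * ‖v‖ * h =
        (0.505 * D + 1 / 32 * h * Real.sqrt G) * ‖v‖ := by field_simp
      rw [e1]
      refine mul_le_mul_of_nonneg_right ?_ (norm_nonneg _)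
      have := mul_le_mul_of_nonneg_right hAh (Real.sqrt_nonneg G)
      have := mul_le_mul_of_nonneg_left hQ hD
      linarith
    have b2 : Real.sqrt (Q / 2) ≤ 0.0708 := by
      rw [Real.sqrt_le_left (by norm_num)]
      linarith
    have b3 : Real.sqrt (Q / 2) * (Real.sqrt G * ‖v‖) ≤ 0.0708 * (Real.sqrt G * ‖v‖) :=
      mul_le_mul_of_nonneg_right b2 (by positivity)
    have b4 : (Real.sqrt G * ‖v‖) * Real.sqrt Q ≤ (Real.sqrt G * ‖v‖) * (1 / 10) :=
      mul_le_mul_of_nonneg_left hsQ (by positivity)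
    have b5 : 0 ≤ Real.sqrt G * ‖v‖ := by positivity
    calc _ ≤ (0.505 * D / h + 1 / 32 * Real.sqrt G) * ‖v‖ + 0.0708 * (Real.sqrt G * ‖v‖) +
          (Real.sqrt G * ‖v‖) * (1 / 10) := by linarith
      _ ≤ K * ‖v‖ := by rw [hK]; nlinarith
  -- each of the two measures
  have hea : ∀ g : E k → ℝ, BC g → ey h νa g = e g - e (fun y => g y * Real.sin (o y)) := by
    intro g hg
    have := hdiff g hg
    have e1 : e g = (ey h νa g + ey h νb g) / 2 := rfl
    linarith
  have heb : ∀ g : E k → ℝ, BC g → ey h νb g = e g + e (fun y => g y * Real.sin (o y)) := by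
    intro g hg
    have := hdiff g hg
    have e1 : e g = (ey h νa g + ey h νb g) / 2 := rfl
    linarith
  -- the mean of the angle
  have hs0 : e (fun y => Real.sin (o y)) = 0 := by
    have := hdiff (fun _ => 1) (BC.const 1)
    rw [hEa.one, hEb.one] at this
    simp only [one_mul] at this
    linarith
  have hm1 : |e o| ≤ 8 / 10 * Q := by
    have c1 : e o = e (fun y => o y - Real.sin (o y)) := by
      rw [hE.sub bo bs, hs0, sub_zero]
    rw [c1, ← hE.smul _ _ bo.sq]
    exact hE.abs_le (bo.sub bs) (bo.sq.cmul _) (fun y => r2 (hlt y))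
  have hm2 : |e (fun y => o y * Real.sin (o y))| ≤ Q :=
    hE.abs_le (bo.mul bs) bo.sq (fun y => r3 _)
  have hQQ : Q * Q ≤ Q * (1 / 100) := mul_le_mul_of_nonneg_left hQ hQ0
  have hma : ey h νa o ^ 2 ≤ 0.033 * Q := by
    have : |ey h νa o| ≤ 1.8 * Q := by
      rw [hea o bo]
      refine (abs_sub _ _).trans ?_
      linarith
    have := pow_le_pow_left₀ (abs_nonneg _) this 2
    rw [sq_abs] at this
    nlinarith
  have hmb : ey h νb o ^ 2 ≤ 0.033 * Q := by
    have : |ey h νb o| ≤ 1.8 * Q := by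
      rw [heb o bo]
      refine (abs_add_le _ _).trans ?_
      linarith
    have := pow_le_pow_left₀ (abs_nonneg _) this 2
    rw [sq_abs] at this
    nlinarith
  have hva := h4 k h A B C K νa o hA hAh pa hC hK0 (fun v => by
    rw [hea _ (bd v)]
    exact (abs_sub _ _).trans (hmain v))
  have hvb := h4 k h A B C K νb o hA hAh pb hC hK0 (fun v => by
    rw [heb _ (bd v)]
    exact (abs_add_le _ _).trans (hmain v))
  have eQ : Q = (ey h νa (fun y => o y ^ 2) + ey h νb (fun y => o y ^ 2)) / 2 := rfl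
  have eG : G = (ey h νa (fun y => ‖fderiv ℝ o y‖ ^ 2) +
    ey h νb (fun y => ‖fderiv ℝ o y‖ ^ 2)) / 2 := rfl
  have hsum : Q - 0.033 * Q ≤ 0.76 * (h * G) + 0.3 * (h * K ^ 2) := by
    rw [eG]
    have : Q = (ey h νa (fun y => o y ^ 2) + ey h νb (fun y => o y ^ 2)) / 2 := rfl
    nlinarith
  have hKK : h * K ^ 2 ≤ 0.52 * (D ^ 2 / h) + 0.083 * (h * G) := by
    have c1 : K ^ 2 ≤ 2 * (0.505 * D / h) ^ 2 + 2 * (0.203 * Real.sqrt G) ^ 2 := by
      rw [hK]
      nlinarith [sq_nonneg (0.505 * D / h - 0.203 * Real.sqrt G)]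
    have c2 : (0.203 * Real.sqrt G) ^ 2 = 0.203 ^ 2 * G := by
      rw [mul_pow, Real.sq_sqrt hG0]
    rw [c2] at c1
    have c3 := mul_le_mul_of_nonneg_left c1 hh.le
    have c4 : h * (2 * (0.505 * D / h) ^ 2 + 2 * (0.203 ^ 2 * G)) =
        0.51005 * (D ^ 2 / h) + 0.082418 * (h * G) := by
      field_simp
      ring
    rw [c4] at c3
    have : 0 ≤ D ^ 2 / h := by positivity
    have : 0 ≤ h * G := by positivity
    linarith
  have hDh : 0 ≤ D ^ 2 / h := by positivity
  have hfin : 5 * D ^ 2 / h = 5 * (D ^ 2 / h) := by ring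
  rw [hfin]
  have hg' : h * G ≤ 2 * η + Q := hgrd
  linarith

end Pool.Agent.R755.KF
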