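import Pool.Agent.R755.KF.Defs
import Pool.Agent.H888R2.KT.N0
import Pool.Agent.H888R2.KT.N6a
import Pool.Agent.H888R2.KT.N7

/-!
# Gaussian averages: elementary facts (common part of T3 and T6)
-/

set_option autoImplicit false

namespace Pool.Agent.R755.KF

open MeasureTheory Set Filter Topology
open scoped ENNReal InnerProductSpace
open Pool.Agent.H888R2.KT (gs gc gc_pos gs_deriv)
open Pool.Agent.R754.KG (E)

namespace T36

variable {k : ℕ} {h : ℝ}

/-- the kernel -/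
noncomputable def kr (h : ℝ) (x y : E k) : ℝ := Real.exp (-(‖x - y‖ ^ 2 / (2 * h)))

theorem kr_pos (h : ℝ) (x y : E k) : 0 < kr h x y := Real.exp_pos _

theorem intk (hh : 0 < h) {f : E k → ℝ} (hf : Continuous f) {C : ℝ}
    (hb : ∀ y, |f y| ≤ C * (1 + ‖y‖)) (x : E k) :
    Integrable fun y => f y * kr h x y := by
  obtain ⟨-, -, h1, h2⟩ := gc_pos (κ := Fin k) h hh
  have hC : 0 ≤ C := by
    have := (abs_nonneg _).trans (hb 0)
    simpa using this
  refine (((h1 x).const_mul (C * (1 + ‖x‖))).add ((h2 x).const_mul C)).mono'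
    ?_ (Filter.Eventually.of_forall fun y => ?_)
  · unfold kr
    exact (hf.mul (by fun_prop)).aestronglyMeasurable
  · rw [norm_mul, Real.norm_eq_abs, Real.norm_eq_abs, abs_of_pos (kr_pos h x y)]
    have h3 : ‖y‖ ≤ ‖x‖ + ‖x - y‖ := by
      have : y = x - (x - y) := by abel
      calc ‖y‖ = ‖x - (x - y)‖ := by rw [← this]
        _ ≤ _ := norm_sub_le _ _
    have h4 : |f y| ≤ C * (1 + ‖x‖) + C * ‖x - y‖ := by
      refine (hb y).trans ?_
      nlinarith
    refine (mul_le_mul_of_nonneg_right h4 (kr_pos h x y).le).trans (le_of_eq ?_)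
    show _ = C * (1 + ‖x‖) * kr h x y + C * (‖x - y‖ * kr h x y)
    ring

/-- bounded functions have linear growth -/
theorem lg_of_bd {f : E k → ℝ} {B : ℝ} (hb : ∀ y, |f y| ≤ B) (y : E k) :
    |f y| ≤ B * (1 + ‖y‖) := by
  have hB : 0 ≤ B := (abs_nonneg _).trans (hb 0)
  refine (hb y).trans ?_
  nlinarith [norm_nonneg y, mul_nonneg hB (norm_nonneg y)]

theorem gs_def (f : E k → ℝ) (x : E k) : gs h f x = (∫ y, f y * kr h x y) / gc (Fin k) h := rfl

theorem gs_add {f g : E k → ℝ} {x : E k} (hf : Integrable fun y => f y * kr h x y)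
    (hg : Integrable fun y => g y * kr h x y) :
    gs h (fun y => f y + g y) x = gs h f x + gs h g x := by
  rw [gs_def, gs_def, gs_def, ← add_div, ← integral_add hf hg]
  congr 1
  refine integral_congr_ae (Filter.Eventually.of_forall fun y => ?_)
  show (f y + g y) * _ = _
  ring

theorem gs_sub {f g : E k → ℝ} {x : E k} (hf : Integrable fun y => f y * kr h x y)
    (hg : Integrable fun y => g y * kr h x y) :
    gs h (fun y => f y - g y) x = gs h f x - gs h g x := by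
  rw [gs_def, gs_def, gs_def, ← sub_div, ← integral_sub hf hg]
  congr 1
  refine integral_congr_ae (Filter.Eventually.of_forall fun y => ?_)
  show (f y - g y) * _ = _
  ring

theorem gs_cm (c : ℝ) (f : E k → ℝ) (x : E k) : gs h (fun y => c * f y) x = c * gs h f x := by
  rw [gs_def, gs_def, ← mul_div_assoc, ← integral_const_mul]
  congr 1
  refine integral_congr_ae (Filter.Eventually.of_forall fun y => ?_)
  show (c * f y) * _ = _
  ring

theorem gs_mono (hh : 0 < h) {f g : E k → ℝ} {x : E k} (hf : Integrable fun y => f y * kr h x y)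
    (hg : Integrable fun y => g y * kr h x y) (hle : ∀ y, f y ≤ g y) :
    gs h f x ≤ gs h g x := by
  rw [gs_def, gs_def]
  refine div_le_div_of_nonneg_right ?_ (gc_pos (κ := Fin k) h hh).1.le
  exact integral_mono hf hg fun y => mul_le_mul_of_nonneg_right (hle y) (kr_pos h x y).le

theorem gs_const (hh : 0 < h) (c : ℝ) (x : E k) : gs h (fun _ => c) x = c := by
  obtain ⟨h0, h1, -, -⟩ := gc_pos (κ := Fin k) h hh
  rw [gs_def, integral_const_mul]
  have : ∫ y, kr h x y = gc (Fin k) h := h1 x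
  rw [this]
  field_simp

theorem gs_nonneg (hh : 0 < h) {f : E k → ℝ} (hf : ∀ y, 0 ≤ f y) (x : E k) : 0 ≤ gs h f x := by
  rw [gs_def]
  refine div_nonneg (integral_nonneg fun y => ?_) (gc_pos (κ := Fin k) h hh).1.le
  exact mul_nonneg (hf y) (kr_pos h x y).le

/-- square of an average -/
theorem gs_sq (h4 : S_BE) (hh : 0 < h) {f : E k → ℝ} {B : ℝ} (hf : Continuous f)
    (hb : ∀ y, |f y| ≤ B) (x : E k) : gs h f x ^ 2 ≤ gs h (fun y => f y ^ 2) x := by
  have := (h4 k h B f hh hf hb).2.2 x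
  have h0 : 0 ≤ h * ‖fderiv ℝ (gs h f) x‖ ^ 2 := by positivity
  linarith

theorem BL.nn {B : ℝ} {f : E k → ℝ} (hf : BL B f) : 0 ≤ B := (abs_nonneg _).trans (hf.bd 0)

theorem cont_fd {B : ℝ} {f : E k → ℝ} (hf : BL B f) : Continuous (fderiv ℝ f) :=
  hf.c1.continuous_fderiv (by norm_num)

theorem cont_nfd {B : ℝ} {f : E k → ℝ} (hf : BL B f) :
    Continuous (fun y => ‖fderiv ℝ f y‖ ^ 2) := (cont_fd hf).norm.pow 2

theorem bd_nfd {B : ℝ} {f : E k → ℝ} (hf : BL B f) (y : E k) :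
    |‖fderiv ℝ f y‖ ^ 2| ≤ B ^ 2 := by
  rw [abs_of_nonneg (by positivity)]
  exact pow_le_pow_left₀ (norm_nonneg _) (hf.gd y) 2

theorem cont_fdw {B : ℝ} {f : E k → ℝ} (hf : BL B f) (w : E k) :
    Continuous (fun y => fderiv ℝ f y w) := (cont_fd hf).clm_apply continuous_const

theorem bd_fdw {B : ℝ} {f : E k → ℝ} (hf : BL B f) (w y : E k) :
    |fderiv ℝ f y w| ≤ B * ‖w‖ :=
  ((fderiv ℝ f y).le_opNorm w).trans (mul_le_mul_of_nonneg_right (hf.gd y) (norm_nonneg _))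

/-- gradient of the Gaussian average -/
theorem grad_gs (hh : 0 < h) {f : E k → ℝ} {B : ℝ} (hsq : ∀ (g : E k → ℝ) (C : ℝ),
      Continuous g → (∀ y, |g y| ≤ C) → ∀ x, gs h g x ^ 2 ≤ gs h (fun y => g y ^ 2) x)
    (hf : BL B f) (x : E k) :
    ‖fderiv ℝ (gs h f) x‖ ^ 2 ≤ gs h (fun y => ‖fderiv ℝ f y‖ ^ 2) x := by
  have hd := (gs_deriv h hh f hf.c1 B hf.bd hf.gd).2 x
  set S := gs h (fun y => ‖fderiv ℝ f y‖ ^ 2) x with hS
  have hS0 : 0 ≤ S := gs_nonneg hh (fun y => by positivity) x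
  have hn : ‖fderiv ℝ (gs h f) x‖ ≤ Real.sqrt S := by
    refine ContinuousLinearMap.opNorm_le_bound _ (Real.sqrt_nonneg _) fun w => ?_
    have h1 : (fderiv ℝ (gs h f) x w) ^ 2 ≤ ‖w‖ ^ 2 * S := by
      rw [hd w]
      refine (hsq _ (B * ‖w‖) (cont_fdw hf w) (bd_fdw hf w) x).trans ?_
      rw [hS, ← gs_cm]
      have b1 : ∀ y, |fderiv ℝ f y w ^ 2| ≤ (B * ‖w‖) ^ 2 := by
        intro y
        rw [abs_pow]
        exact pow_le_pow_left₀ (abs_nonneg _) (bd_fdw hf w y) 2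
      have b2 : ∀ y, |‖w‖ ^ 2 * ‖fderiv ℝ f y‖ ^ 2| ≤ ‖w‖ ^ 2 * B ^ 2 := by
        intro y
        rw [abs_mul, abs_of_nonneg (by positivity : (0 : ℝ) ≤ ‖w‖ ^ 2)]
        exact mul_le_mul_of_nonneg_left (bd_nfd hf y) (by positivity)
      have c1 : Continuous fun y => fderiv ℝ f y w ^ 2 := (cont_fdw hf w).pow 2
      have c2 : Continuous fun y => ‖w‖ ^ 2 * ‖fderiv ℝ f y‖ ^ 2 :=
        continuous_const.mul (cont_nfd hf)
      refine gs_mono hh (intk hh c1 (lg_of_bd b1) x) (intk hh c2 (lg_of_bd b2) x) ?_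
      · intro y
        have h2 := (fderiv ℝ f y).le_opNorm w
        rw [← sq_abs, ← mul_pow, mul_comm]
        exact pow_le_pow_left₀ (abs_nonneg _) h2 2
    rw [Real.norm_eq_abs]
    apply abs_le_of_sq_le_sq
    · rw [mul_pow, Real.sq_sqrt hS0, mul_comm]
      exact h1
    · positivity
  calc ‖fderiv ℝ (gs h f) x‖ ^ 2 ≤ Real.sqrt S ^ 2 := pow_le_pow_left₀ (norm_nonneg _) hn 2
    _ = S := Real.sq_sqrt hS0

/-- continuous functions are integrable -/
theorem pb_int {B : ℝ} {ν : Measure (E k)} (hν : PB B ν) {f : E k → ℝ} (hf : Continuous f) :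
    Integrable f ν := by
  have := hν.prob
  obtain ⟨M, hM⟩ := (isCompact_closedBall (0 : E k) B).exists_bound_of_continuousOn
    hf.continuousOn
  refine Integrable.of_bound hf.aestronglyMeasurable M ?_
  filter_upwards [hν.bdd] with x hx
  exact hM x (by rwa [mem_closedBall_zero_iff])

/-- covariance inequality -/
theorem cov {ν : Measure (E k)} [IsProbabilityMeasure ν] {F G : E k → ℝ} (hF : Integrable F ν)
    (hG : Integrable G ν) (hFF : Integrable (fun x => F x ^ 2) ν)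
    (hGG : Integrable (fun x => G x ^ 2) ν) (hFG : Integrable (fun x => F x * G x) ν) :
    ((∫ x, F x * G x ∂ν) - (∫ x, F x ∂ν) * ∫ x, G x ∂ν) ^ 2 ≤
      ((∫ x, F x ^ 2 ∂ν) - (∫ x, F x ∂ν) ^ 2) * ((∫ x, G x ^ 2 ∂ν) - (∫ x, G x ∂ν) ^ 2) := by
  set mF := ∫ x, F x ∂ν with hmF
  set mG := ∫ x, G x ∂ν with hmG
  have key : ∀ t : ℝ, 0 ≤ ((∫ x, G x ^ 2 ∂ν) - mG ^ 2) * (t * t) +
      (2 * ((∫ x, F x * G x ∂ν) - mF * mG)) * t + ((∫ x, F x ^ 2 ∂ν) - mF ^ 2) := by
    intro t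
    have h0 : 0 ≤ ∫ x, ((F x - mF) + t * (G x - mG)) ^ 2 ∂ν :=
      integral_nonneg fun x => sq_nonneg _
    have e : ∀ x, ((F x - mF) + t * (G x - mG)) ^ 2 =
        (F x ^ 2 + (2 * t) * (F x * G x) + t ^ 2 * G x ^ 2) -
        ((2 * mF + 2 * t * mG) * F x + (2 * t * mF + 2 * t ^ 2 * mG) * G x) +
        (mF + t * mG) ^ 2 := by
      intro x
      ring
    have i1 : Integrable (fun x => F x ^ 2 + (2 * t) * (F x * G x) + t ^ 2 * G x ^ 2) ν :=
      (hFF.add (hFG.const_mul _)).add (hGG.const_mul _)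
    have i2 : Integrable (fun x => (2 * mF + 2 * t * mG) * F x +
        (2 * t * mF + 2 * t ^ 2 * mG) * G x) ν := (hF.const_mul _).add (hG.const_mul _)
    have i3 : Integrable (fun x => (F x ^ 2 + (2 * t) * (F x * G x) + t ^ 2 * G x ^ 2) -
        ((2 * mF + 2 * t * mG) * F x + (2 * t * mF + 2 * t ^ 2 * mG) * G x)) ν := i1.sub i2
    have i4 : Integrable (fun x => F x ^ 2 + (2 * t) * (F x * G x)) ν :=
      hFF.add (hFG.const_mul _)
    simp_rw [e] at h0
    rw [integral_add i3 (integrable_const _), integral_sub i1 i2,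
      integral_add i4 (hGG.const_mul _),
      integral_add hFF (hFG.const_mul _), integral_add (hF.const_mul _) (hG.const_mul _),
      integral_const_mul, integral_const_mul, integral_const_mul, integral_const_mul,
      integral_const, probReal_univ, one_smul, ← hmF, ← hmG] at h0
    nlinarith [h0]
  have := discrim_le_zero key
  rw [discrim] at this
  nlinarith [this]

section key

variable {B C : ℝ} {ν νa νb : Measure (E k)}

theorem ey_int (h1 : S_REP) (hh : 0 < h) (hν : PB B ν) {f : E k → ℝ} (hf : Continuous f)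
    (hb : ∀ y, |f y| ≤ C * (1 + ‖y‖)) : Integrable (gs h f) ν := (h1 k h B C ν f hh hν hf hb).1

theorem ey_add (h1 : S_REP) (hh : 0 < h) (hν : PB B ν) {f g : E k → ℝ} {C1 C2 : ℝ}
    (hf : Continuous f) (hg : Continuous g)
    (hb : ∀ y, |f y| ≤ C1 * (1 + ‖y‖)) (hb2 : ∀ y, |g y| ≤ C2 * (1 + ‖y‖)) :
    ey h ν (fun y => f y + g y) = ey h ν f + ey h ν g := by
  unfold ey
  rw [← integral_add (ey_int h1 hh hν hf hb) (ey_int h1 hh hν hg hb2)]
  congr 1
  funext x
  exact gs_add (intk hh hf hb x) (intk hh hg hb2 x)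

theorem ey_sub (h1 : S_REP) (hh : 0 < h) (hν : PB B ν) {f g : E k → ℝ} {C1 C2 : ℝ}
    (hf : Continuous f) (hg : Continuous g)
    (hb : ∀ y, |f y| ≤ C1 * (1 + ‖y‖)) (hb2 : ∀ y, |g y| ≤ C2 * (1 + ‖y‖)) :
    ey h ν (fun y => f y - g y) = ey h ν f - ey h ν g := by
  unfold ey
  rw [← integral_sub (ey_int h1 hh hν hf hb) (ey_int h1 hh hν hg hb2)]
  congr 1
  funext x
  exact gs_sub (intk hh hf hb x) (intk hh hg hb2 x)

theorem ey_cm (c : ℝ) (f : E k → ℝ) : ey h ν (fun y => c * f y) = c * ey h ν f := by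
  unfold ey
  rw [← integral_const_mul]
  congr 1
  funext x
  exact gs_cm c f x

theorem ey_const (hh : 0 < h) [IsProbabilityMeasure ν] (c : ℝ) : ey h ν (fun _ => c) = c := by
  unfold ey
  simp_rw [gs_const hh]
  simp

theorem ey_mono (h1 : S_REP) (hh : 0 < h) (hν : PB B ν) {f g : E k → ℝ} {C1 C2 : ℝ}
    (hf : Continuous f) (hg : Continuous g)
    (hb : ∀ y, |f y| ≤ C1 * (1 + ‖y‖)) (hb2 : ∀ y, |g y| ≤ C2 * (1 + ‖y‖))
    (hle : ∀ y, f y ≤ g y) : ey h ν f ≤ ey h ν g :=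
  integral_mono (ey_int h1 hh hν hf hb) (ey_int h1 hh hν hg hb2) fun x =>
    gs_mono hh (intk hh hf hb x) (intk hh hg hb2 x) hle

theorem ey_nonneg (hh : 0 < h) {f : E k → ℝ} (hf : ∀ y, 0 ≤ f y) : 0 ≤ ey h ν f :=
  integral_nonneg fun x => gs_nonneg hh hf x

/-- exchanging the two measures -/
theorem key (h1 : S_REP) (h2 : S_ZN) (h3 : S_OM) (hh : 0 < h) (hB : 0 ≤ B) (ha : PB B νa)
    (hb : PB B νb) {g : E k → ℝ} (hg : Continuous g) (hgb : ∀ y, |g y| ≤ C * (1 + ‖y‖)) :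
    ey h νa (fun y => Real.sin (om h νa νb y) * g y) +
      ey h νb (fun y => Real.sin (om h νa νb y) * g y) = ey h νb g - ey h νa g := by
  obtain ⟨⟨C0, hom⟩, -, hs, -, -⟩ := h3 k h B νa νb hh hB ha hb
  have hoc : Continuous (om h νa νb) := hom.c1.continuous
  have hsc : Continuous (fun y => Real.sin (om h νa νb y) * g y) :=
    (Real.continuous_sin.comp hoc).mul hg
  have hsb : ∀ y, |Real.sin (om h νa νb y) * g y| ≤ C * (1 + ‖y‖) := by
    intro y
    rw [abs_mul]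
    calc _ ≤ 1 * |g y| := mul_le_mul_of_nonneg_right (Real.abs_sin_le_one _) (abs_nonneg _)
      _ = |g y| := one_mul _
      _ ≤ _ := hgb y
  obtain ⟨-, i1, e1⟩ := h1 k h B C νa _ hh ha hsc hsb
  obtain ⟨-, i2, e2⟩ := h1 k h B C νb _ hh hb hsc hsb
  obtain ⟨-, i3, e3⟩ := h1 k h B C νa _ hh ha hg hgb
  obtain ⟨-, i4, e4⟩ := h1 k h B C νb _ hh hb hg hgb
  rw [e1, e2, e3, e4, ← mul_add, ← mul_sub, ← integral_add i1 i2, ← integral_sub i4 i3]
  congr 1
  refine integral_congr_ae (Filter.Eventually.of_forall fun y => ?_)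
  have za := (h2 k h B νa hh hB ha).2.1 y
  have zb := (h2 k h B νb hh hB hb).2.1 y
  show Real.sin (om h νa νb y) * g y * zn h νa y + Real.sin (om h νa νb y) * g y * zn h νb y =
    g y * zn h νb y - g y * zn h νa y
  rw [hs y]
  field_simp

end key

end T36

end Pool.Agent.R755.KF
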