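import Pool.Agent.R755.KF.G1
import Pool.Agent.R755.KF.G2
import Pool.Agent.R755.KF.G3
import Pool.Agent.R755.KF.G4
import Pool.Agent.R755.KF.G5
import Pool.Agent.R755.KF.P1
import Pool.Agent.R755.KF.P2
import Pool.Agent.R755.KF.P3W
import Pool.Agent.R755.KF.T1
import Pool.Agent.R755.KF.T2
import Pool.Agent.R755.KF.T2b
import Pool.Agent.R755.KF.T3W
import Pool.Agent.R755.KF.T4W
import Pool.Agent.R755.KF.T5
import Pool.Agent.R755.KF.T6W
import Pool.Agent.R755.KF.L1
import Pool.Agent.R755.KF.L2
import Pool.Agent.R755.KF.L3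
import Pool.Agent.R755.KF.K1
import Pool.Agent.R755.KF.K2
import Pool.Agent.R755.KF.K3
import Pool.Agent.R755.KF.K4
import Pool.Agent.R755.KF.K5W

/-!
# Convex bodies fibred over a base of small dimension: collection of the parts
-/

set_option autoImplicit false

namespace Pool.Agent.R755.KF

theorem impR : S_IMP := imp gp sg an be
theorem omR : S_OM := om_ok zn_ok
theorem grdR : S_GRD := grd rep zn_ok omR
theorem affR : S_AFF := aff_ok rep zn_ok omR
theorem varR : S_VARW := varw impR be
theorem stR : S_STW := stw rep zn_ok omR be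
theorem clR : S_CLW := clw rep zn_ok omR varR grdR stR
theorem tmR : S_TMW := tmw rep zn_ok omR gp be affR clR (ct zn_ok)
theorem chnR : S_CHNW := chnw geo mom eta fib (plh zn_ok) tmR gp be
theorem pxR : S_PX := px rep zn_ok
theorem tlR : S_TAIL := tl geo

end Pool.Agent.R755.KF
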