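import Pool.Agent.R755.KF.Defs3
import Pool.Agent.Y279.PV.Den

/-!
# D1 (helper141): multiplying with a concave density keeps concentration
-/

set_option autoImplicit false

namespace Pool.Agent.R755.KF

open MeasureTheory Set Filter Topology
open scoped ENNReal InnerProductSpace
open Pool.Agent.Y506.RG
open Pool.Agent.Y506.PV
open Pool.Agent.Y279.PV (VW_eq VW_le EW_mul lin_bd lin_sq_bd lin_meas)
open Pool.Agent.W695.KH (Eu)

namespace D1aux

variable {n : ℕ}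

lemma quart (l a m : ℝ) : (l - m) ^ 4 ≤ 8 * ((l - a) ^ 4 + (a - m) ^ 4) := by
  have h1 : (l - m) ^ 2 ≤ 2 * ((l - a) ^ 2 + (a - m) ^ 2) := by
    nlinarith [sq_nonneg ((l - a) - (a - m))]
  have h2 : ((l - m) ^ 2) ^ 2 ≤ (2 * ((l - a) ^ 2 + (a - m) ^ 2)) ^ 2 :=
    pow_le_pow_left₀ (sq_nonneg _) h1 2
  nlinarith [sq_nonneg ((l - a) ^ 2 - (a - m) ^ 2)]

/-- the variances of linear functionals for the old weight -/
lemma var_ge {w u : Eu (Fin n) → ℝ} (hw : Adm w) (hum : Measurable u) (hu0 : ∀ x, 0 ≤ u x)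
    (huw : Adm fun x => u x * w x) {τ s C : ℝ} (hτ : 0 < τ) (hs : 0 < s)
    (hsm : ∀ ε : ℝ, 0 < ε → ∫ x in {x | u x < ε * τ}, w x ≤ ε * ∫ x, w x)
    (hE0 : 0 ≤ EW w u) (hub : EW w u ≤ 2 * τ) (θ : Eu (Fin n)) (hC : 1 ≤ C)
    (hi4 : Integrable (fun x => (⟪x, θ⟫_ℝ - EW w fun x => ⟪x, θ⟫_ℝ) ^ 4 * w x))
    (h4 : EW w (fun x => (⟪x, θ⟫_ℝ - EW w fun x => ⟪x, θ⟫_ℝ) ^ 4) ≤
      C * (VW w fun x => ⟪x, θ⟫_ℝ) ^ 2)
    (hV : VW (fun x => u x * w x) (fun x => ⟪x, θ⟫_ℝ) ≤ s) :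
    VW w (fun x => ⟪x, θ⟫_ℝ) ≤ (128 * C) * s := by
  obtain ⟨a, ha⟩ : ∃ a : ℝ, a = EW w fun x => ⟪x, θ⟫_ℝ := ⟨_, rfl⟩
  obtain ⟨m, hm⟩ : ∃ m : ℝ, m = EW (fun x => u x * w x) fun x => ⟪x, θ⟫_ℝ := ⟨_, rfl⟩
  obtain ⟨V, hVd⟩ : ∃ V : ℝ, V = VW w fun x => ⟪x, θ⟫_ℝ := ⟨_, rfl⟩
  rw [← ha] at hi4 h4
  rw [← hVd] at h4 ⊢
  have hlm : ∀ c : ℝ, Measurable fun x : Eu (Fin n) => (⟪x, θ⟫_ℝ - c) ^ 2 := fun c =>
    ((lin_meas θ).sub_const c).pow_const 2
  have il : Integrable fun x => ⟪x, θ⟫_ℝ * w x := hw.of_bd _ (lin_meas θ) _ (lin_bd θ)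
  have il2 : Integrable fun x => ⟪x, θ⟫_ℝ ^ 2 * w x := by
    refine hw.of_bd _ ((lin_meas θ).pow_const 2) (2 * ‖θ‖ ^ 2 + 2 * 0 ^ 2) fun x => ?_
    have := lin_sq_bd θ 0 x
    rwa [sub_zero] at this
  have jl : Integrable fun x => ⟪x, θ⟫_ℝ * (u x * w x) := huw.of_bd _ (lin_meas θ) _ (lin_bd θ)
  have jl2 : Integrable fun x => ⟪x, θ⟫_ℝ ^ 2 * (u x * w x) := by
    refine huw.of_bd _ ((lin_meas θ).pow_const 2) (2 * ‖θ‖ ^ 2 + 2 * 0 ^ 2) fun x => ?_
    have := lin_sq_bd θ 0 x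
    rwa [sub_zero] at this
  have ilm : Integrable fun x => (⟪x, θ⟫_ℝ - m) ^ 2 * w x :=
    hw.of_bd _ (hlm m) _ (lin_sq_bd θ m)
  have jlm : Integrable fun x => (⟪x, θ⟫_ℝ - m) ^ 2 * u x * w x := by
    have := huw.of_bd _ (hlm m) _ (lin_sq_bd θ m)
    refine this.congr (Eventually.of_forall fun x => ?_)
    simp only
    ring
  have hV0 : 0 ≤ V := by
    rw [hVd, VW_eq hw _ il il2]
    exact EW_nonneg hw _ fun x => sq_nonneg _
  obtain ⟨S, hS⟩ : ∃ S : ℝ, S = V + (a - m) ^ 2 := ⟨_, rfl⟩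
  have hVS : V ≤ S := by rw [hS]; nlinarith [sq_nonneg (a - m)]
  have hCs : 0 ≤ (128 * C) * s := by positivity
  by_cases hS0 : S ≤ 0
  · linarith
  rw [not_le] at hS0
  refine hVS.trans ?_
  have hbS : (a - m) ^ 2 ≤ S := by rw [hS]; linarith
  have e1 : EW w (fun x => (⟪x, θ⟫_ℝ - m) ^ 2) = S := by
    rw [VW_shift hw _ il il2 m, ← ha, ← hVd, hS]
  have e2 : EW w (fun x => (⟪x, θ⟫_ℝ - m) ^ 2 * u x) ≤ s * (2 * τ) := by
    rw [← EW_mul hw huw, hm, ← VW_eq huw _ jl jl2]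
    calc VW (fun x => u x * w x) (fun x => ⟪x, θ⟫_ℝ) * EW w u ≤ s * EW w u :=
          mul_le_mul_of_nonneg_right hV hE0
      _ ≤ s * (2 * τ) := mul_le_mul_of_nonneg_left hub hs.le
  -- the small set
  obtain ⟨ε, hε⟩ : ∃ ε : ℝ, ε = 1 / (32 * C) := ⟨_, rfl⟩
  obtain ⟨α, hα⟩ : ∃ α : ℝ, α = 1 / (16 * C) := ⟨_, rfl⟩
  have hC0 : 0 < C := by linarith
  have hε0 : 0 < ε := by rw [hε]; positivity
  have hα0 : 0 < α := by rw [hα]; positivity
  obtain ⟨D, hD⟩ : ∃ D : Set (Eu (Fin n)), D = {x | u x < ε * τ} := ⟨_, rfl⟩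
  have hDm : MeasurableSet D := by
    rw [hD]
    exact measurableSet_lt hum measurable_const
  have hDi : Integrable fun x => D.indicator (fun _ => (1 : ℝ)) x * w x :=
    hw.bdd _ (measurable_const.indicator hDm) 1 fun x => by
      by_cases hx : x ∈ D
      · rw [indicator_of_mem hx, abs_one]
      · rw [indicator_of_notMem hx, abs_zero]
        exact zero_le_one
  have eD : EW w (fun x => D.indicator (fun _ => (1 : ℝ)) x) ≤ ε := by
    unfold EW
    rw [div_le_iff₀ hw.pos]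
    have h1 : ∫ x, D.indicator (fun _ => (1 : ℝ)) x * w x = ∫ x in D, w x := by
      rw [← integral_indicator hDm]
      refine integral_congr_ae (Eventually.of_forall fun x => ?_)
      simp only
      by_cases hx : x ∈ D
      · rw [indicator_of_mem hx, indicator_of_mem hx, one_mul]
      · rw [indicator_of_notMem hx, indicator_of_notMem hx, zero_mul]
    rw [h1, hD]
    exact hsm ε hε0
  -- pointwise
  have hpt : ∀ x : Eu (Fin n), (⟪x, θ⟫_ℝ - m) ^ 2 ≤ 1 / (ε * τ) * ((⟪x, θ⟫_ℝ - m) ^ 2 * u x) +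
      (4 * α / S * (⟪x, θ⟫_ℝ - a) ^ 4 + (4 * α / S * (a - m) ^ 4 +
        S / (2 * α) * D.indicator (fun _ => (1 : ℝ)) x)) := by
    intro x
    have hu := hu0 x
    have p1 : 0 ≤ 4 * α / S * (⟪x, θ⟫_ℝ - a) ^ 4 := by positivity
    have p2 : 0 ≤ 4 * α / S * (a - m) ^ 4 := by positivity
    by_cases hx : x ∈ D
    · rw [indicator_of_mem hx]
      have p3 : 0 ≤ 1 / (ε * τ) * ((⟪x, θ⟫_ℝ - m) ^ 2 * u x) := by positivity
      have p4 := quart ⟪x, θ⟫_ℝ a m
      have p5 : α / (2 * S) * (⟪x, θ⟫_ℝ - m) ^ 4 ≤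
          α / (2 * S) * (8 * ((⟪x, θ⟫_ℝ - a) ^ 4 + (a - m) ^ 4)) :=
        mul_le_mul_of_nonneg_left p4 (by positivity)
      have p6 : (⟪x, θ⟫_ℝ - m) ^ 2 ≤ α / (2 * S) * (⟪x, θ⟫_ℝ - m) ^ 4 + S / (2 * α) := by
        have q : α / (2 * S) * (⟪x, θ⟫_ℝ - m) ^ 4 + S / (2 * α) - (⟪x, θ⟫_ℝ - m) ^ 2 =
            1 / (2 * S * α) * (α * (⟪x, θ⟫_ℝ - m) ^ 2 - S) ^ 2 := by
          field_simp
          ring
        have q2 : 0 ≤ 1 / (2 * S * α) * (α * (⟪x, θ⟫_ℝ - m) ^ 2 - S) ^ 2 := by positivity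
        linarith
      have p7 : α / (2 * S) * (8 * ((⟪x, θ⟫_ℝ - a) ^ 4 + (a - m) ^ 4)) =
          4 * α / S * (⟪x, θ⟫_ℝ - a) ^ 4 + 4 * α / S * (a - m) ^ 4 := by
        field_simp
        ring
      linarith
    · rw [indicator_of_notMem hx, mul_zero]
      have hge : ε * τ ≤ u x := by
        rw [hD] at hx
        exact not_lt.1 hx
      have p3 : (⟪x, θ⟫_ℝ - m) ^ 2 ≤ 1 / (ε * τ) * ((⟪x, θ⟫_ℝ - m) ^ 2 * u x) := by
        rw [one_div, ← div_eq_inv_mul, le_div_iff₀ (by positivity)]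
        exact mul_le_mul_of_nonneg_left hge (sq_nonneg _)
      linarith
  have i1 : Integrable fun x => 1 / (ε * τ) * ((⟪x, θ⟫_ℝ - m) ^ 2 * u x) * w x := by
    refine (jlm.const_mul (1 / (ε * τ))).congr (Eventually.of_forall fun x => ?_)
    simp only
    ring
  have i2 : Integrable fun x => 4 * α / S * (⟪x, θ⟫_ℝ - a) ^ 4 * w x := by
    refine (hi4.const_mul (4 * α / S)).congr (Eventually.of_forall fun x => ?_)
    simp only
    ring
  have i3 : Integrable fun x => 4 * α / S * (a - m) ^ 4 * w x := hw.one.const_mul _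
  have i4 : Integrable fun x => S / (2 * α) * D.indicator (fun _ => (1 : ℝ)) x * w x := by
    refine (hDi.const_mul (S / (2 * α))).congr (Eventually.of_forall fun x => ?_)
    simp only
    ring
  have i5 : Integrable fun x => (4 * α / S * (a - m) ^ 4 +
      S / (2 * α) * D.indicator (fun _ => (1 : ℝ)) x) * w x := by
    refine (i3.add i4).congr (Eventually.of_forall fun x => ?_)
    simp only [Pi.add_apply]
    ring
  have i6 : Integrable fun x => (4 * α / S * (⟪x, θ⟫_ℝ - a) ^ 4 + (4 * α / S * (a - m) ^ 4 +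
      S / (2 * α) * D.indicator (fun _ => (1 : ℝ)) x)) * w x := by
    refine (i2.add i5).congr (Eventually.of_forall fun x => ?_)
    simp only [Pi.add_apply]
    ring
  have i7 : Integrable fun x => (1 / (ε * τ) * ((⟪x, θ⟫_ℝ - m) ^ 2 * u x) +
      (4 * α / S * (⟪x, θ⟫_ℝ - a) ^ 4 + (4 * α / S * (a - m) ^ 4 +
        S / (2 * α) * D.indicator (fun _ => (1 : ℝ)) x))) * w x := by
    refine (i1.add i6).congr (Eventually.of_forall fun x => ?_)
    simp only [Pi.add_apply]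
    ring
  have k1 := EW_mono hw _ _ ilm i7 hpt
  rw [e1, EW_add _ _ i1 i6, EW_add _ _ i2 i5, EW_add _ _ i3 i4, EW_const hw, EW_const_mul,
    EW_const_mul, EW_const_mul] at k1
  have k2 : 1 / (ε * τ) * EW w (fun x => (⟪x, θ⟫_ℝ - m) ^ 2 * u x) ≤ 64 * C * s := by
    calc 1 / (ε * τ) * EW w (fun x => (⟪x, θ⟫_ℝ - m) ^ 2 * u x) ≤ 1 / (ε * τ) * (s * (2 * τ)) :=
          mul_le_mul_of_nonneg_left e2 (by positivity)
      _ = 64 * C * s := by
          rw [hε]
          field_simp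
          ring
  have k3 : 4 * α / S * EW w (fun x => (⟪x, θ⟫_ℝ - a) ^ 4) + 4 * α / S * (a - m) ^ 4 ≤ S / 4 := by
    have h1 : EW w (fun x => (⟪x, θ⟫_ℝ - a) ^ 4) + (a - m) ^ 4 ≤ C * S ^ 2 := by
      have h2 : (a - m) ^ 4 ≤ C * ((a - m) ^ 2) ^ 2 := by
        have : (a - m) ^ 4 = ((a - m) ^ 2) ^ 2 := by ring
        rw [this]
        exact le_mul_of_one_le_left (sq_nonneg _) hC
      have h3 : V ^ 2 + ((a - m) ^ 2) ^ 2 ≤ S ^ 2 := by
        rw [hS]
        nlinarith [mul_nonneg hV0 (sq_nonneg (a - m))]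
      calc EW w (fun x => (⟪x, θ⟫_ℝ - a) ^ 4) + (a - m) ^ 4 ≤
            C * V ^ 2 + C * ((a - m) ^ 2) ^ 2 := add_le_add h4 h2
        _ = C * (V ^ 2 + ((a - m) ^ 2) ^ 2) := by ring
        _ ≤ C * S ^ 2 := mul_le_mul_of_nonneg_left h3 hC0.le
    calc 4 * α / S * EW w (fun x => (⟪x, θ⟫_ℝ - a) ^ 4) + 4 * α / S * (a - m) ^ 4 =
          4 * α / S * (EW w (fun x => (⟪x, θ⟫_ℝ - a) ^ 4) + (a - m) ^ 4) := by ring
      _ ≤ 4 * α / S * (C * S ^ 2) := mul_le_mul_of_nonneg_left h1 (by positivity)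
      _ = S / 4 := by
          rw [hα]
          field_simp
          ring
  have k4 : S / (2 * α) * EW w (fun x => D.indicator (fun _ => (1 : ℝ)) x) ≤ S / 4 := by
    calc S / (2 * α) * EW w (fun x => D.indicator (fun _ => (1 : ℝ)) x) ≤ S / (2 * α) * ε :=
          mul_le_mul_of_nonneg_left eD (by positivity)
      _ = S / 4 := by
          rw [hα, hε]
          field_simp
          ring
  linarith

end D1aux

open D1aux

theorem denr (h1 : S_M4) (h2 : S_UM) : S_DENR := by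
  obtain ⟨C, hC, hM4⟩ := h1
  intro δ hδ
  refine ⟨δ ^ 2 / 48, 1 / Real.sqrt (128 * C), by positivity, by positivity, ?_⟩
  intro n κ w u hκ hw hlc hum hu0 hcon huw hcc
  have hiu : Integrable fun x => u x * w x := huw.one
  obtain ⟨τ, hτ, hsm, hub, hlb, hi2, hu2⟩ := h2 n w u hw hlc hum hu0 hcon hiu huw.pos
  intro k hk T s hs hT v hv hv1 hvd
  have hTc : Continuous T := T.continuous_of_finiteDimensional
  have hvc : Continuous v := hv.continuous
  have hvm : Measurable fun x => v (T x) := (hvc.comp hTc).measurable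
  have hE0 : 0 < EW w u := by linarith
  have hC0 : 0 < C := by linarith
  have hC3 : 0 < 128 * C := by linarith
  -- the old weight
  have key : VW w (fun x => v (T x)) ≤ δ ^ 2 / 48 := by
    refine hcc k hk T ((128 * C) * s) (by positivity) ?_ v hv hv1 ?_
    · intro θ hθ
      have e1 : (fun x => ⟪T x, θ⟫_ℝ) = fun x => ⟪x, LinearMap.adjoint T θ⟫_ℝ := by
        funext x
        rw [LinearMap.adjoint_inner_right]
      have h3 := hT θ hθ
      rw [e1] at h3 ⊢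
      obtain ⟨hi4, h4⟩ := hM4 n w hw hlc (LinearMap.adjoint T θ)
      exact var_ge hw hum hu0 huw hτ hs hsm hE0.le hub _ hC hi4 h4 h3
    · intro y
      refine (hvd y).trans (le_of_eq ?_)
      rw [Real.sqrt_mul hC3.le]
      have h3 : Real.sqrt (128 * C) ≠ 0 := (Real.sqrt_pos.2 hC3).ne'
      have h4 : Real.sqrt s ≠ 0 := (Real.sqrt_pos.2 hs).ne'
      field_simp
  obtain ⟨m, hm⟩ : ∃ m : ℝ, m = EW w (fun x => v (T x)) := ⟨_, rfl⟩
  have hv2 : ∀ x, |v (T x) ^ 2| ≤ 1 := fun x => by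
    rw [abs_pow]
    exact pow_le_one₀ (abs_nonneg _) (hv1 _)
  have i1 : Integrable fun x => v (T x) * w x := hw.bdd _ hvm 1 fun x => hv1 _
  have i2 : Integrable fun x => v (T x) ^ 2 * w x := hw.bdd _ (hvm.pow_const 2) 1 hv2
  have j1 : Integrable fun x => v (T x) * (u x * w x) := huw.bdd _ hvm 1 fun x => hv1 _
  have j2 : Integrable fun x => v (T x) ^ 2 * (u x * w x) :=
    huw.bdd _ (hvm.pow_const 2) 1 hv2
  have hm1 : |m| ≤ 1 := by
    rw [abs_le]
    constructor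
    · have h3 := EW_mono hw (fun _ => -1) (fun x => v (T x))
        (hw.bdd _ measurable_const 1 (fun x => by simp)) i1 (fun x => (abs_le.1 (hv1 _)).1)
      rw [EW_const hw] at h3
      rw [hm]
      exact h3
    · have h3 := EW_mono hw (fun x => v (T x)) (fun _ => 1) i1
        (hw.bdd _ measurable_const 1 (fun x => by simp)) (fun x => (abs_le.1 (hv1 _)).2)
      rw [EW_const hw] at h3
      rw [hm]
      exact h3
  have hd2 : ∀ x, (v (T x) - m) ^ 2 ≤ 4 := by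
    intro x
    have h3 := abs_le.1 (hv1 (T x))
    have h4 := abs_le.1 hm1
    nlinarith
  rw [VW_eq hw _ i1 i2, ← hm] at key
  refine (VW_le huw _ j1 j2 m).trans ?_
  have hdm : Measurable fun x => (v (T x) - m) ^ 2 := (hvm.sub_const m).pow_const 2
  have q1 : Integrable fun x => (v (T x) - m) ^ 2 * w x :=
    hw.bdd _ hdm 4 fun x => by
      rw [abs_of_nonneg (sq_nonneg _)]
      exact hd2 x
  have q2 : Integrable fun x => (v (T x) - m) ^ 2 * u x * w x := by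
    have := huw.bdd _ hdm 4 fun x => by
      rw [abs_of_nonneg (sq_nonneg _)]
      exact hd2 x
    refine this.congr (Eventually.of_forall fun x => ?_)
    simp only
    ring
  obtain ⟨β, hβ⟩ : ∃ β : ℝ, β = δ / (6 * τ) := ⟨_, rfl⟩
  have hβ0 : 0 < β := by rw [hβ]; positivity
  have q3 : Integrable fun x => β / 2 * u x ^ 2 * w x := by
    refine (hi2.const_mul (β / 2)).congr (Eventually.of_forall fun x => ?_)
    simp only
    ring
  have q4 : Integrable fun x => 2 / β * (v (T x) - m) ^ 2 * w x := by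
    refine (q1.const_mul (2 / β)).congr (Eventually.of_forall fun x => ?_)
    simp only
    ring
  have q5 : Integrable fun x => (β / 2 * u x ^ 2 + 2 / β * (v (T x) - m) ^ 2) * w x := by
    refine (q3.add q4).congr (Eventually.of_forall fun x => ?_)
    simp only [Pi.add_apply]
    ring
  have hpt : ∀ x, (v (T x) - m) ^ 2 * u x ≤ β / 2 * u x ^ 2 + 2 / β * (v (T x) - m) ^ 2 := by
    intro x
    have h3 := hd2 x
    have h4 : 0 ≤ (v (T x) - m) ^ 2 := sq_nonneg _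
    have h5 : (v (T x) - m) ^ 2 * u x ≤ β / 2 * u x ^ 2 + 1 / (2 * β) * ((v (T x) - m) ^ 2) ^ 2 := by
      have q : β / 2 * u x ^ 2 + 1 / (2 * β) * ((v (T x) - m) ^ 2) ^ 2 -
          (v (T x) - m) ^ 2 * u x = 1 / (2 * β) * (β * u x - (v (T x) - m) ^ 2) ^ 2 := by
        field_simp
        ring
      have q' : 0 ≤ 1 / (2 * β) * (β * u x - (v (T x) - m) ^ 2) ^ 2 := by positivity
      linarith
    have h6 : 1 / (2 * β) * ((v (T x) - m) ^ 2) ^ 2 ≤ 2 / β * (v (T x) - m) ^ 2 := by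
      calc 1 / (2 * β) * ((v (T x) - m) ^ 2) ^ 2 =
            1 / (2 * β) * ((v (T x) - m) ^ 2 * (v (T x) - m) ^ 2) := by ring
        _ ≤ 1 / (2 * β) * (4 * (v (T x) - m) ^ 2) :=
            mul_le_mul_of_nonneg_left (mul_le_mul_of_nonneg_right h3 h4) (by positivity)
        _ = 2 / β * (v (T x) - m) ^ 2 := by
            field_simp
            ring
    linarith
  have e0 := EW_mono hw _ _ q2 q5 hpt
  rw [EW_add _ _ q3 q4, EW_const_mul, EW_const_mul, ← EW_mul hw huw] at e0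
  have e1 : β / 2 * EW w (fun x => u x ^ 2) ≤ δ * τ / 4 := by
    calc β / 2 * EW w (fun x => u x ^ 2) ≤ β / 2 * (3 * τ ^ 2) :=
          mul_le_mul_of_nonneg_left hu2 (by positivity)
      _ = δ * τ / 4 := by
          rw [hβ]
          field_simp
          ring
  have e2 : 2 / β * EW w (fun x => (v (T x) - m) ^ 2) ≤ δ * τ / 4 := by
    calc 2 / β * EW w (fun x => (v (T x) - m) ^ 2) ≤ 2 / β * (δ ^ 2 / 48) :=
          mul_le_mul_of_nonneg_left key (by positivity)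
      _ = δ * τ / 4 := by
          rw [hβ]
          field_simp
          ring
  have e3 : EW (fun x => u x * w x) (fun x => (v (T x) - m) ^ 2) * EW w u ≤ δ * EW w u := by
    have : δ * (τ / 2) ≤ δ * EW w u := mul_le_mul_of_nonneg_left hlb hδ.le
    linarith
  exact le_of_mul_le_mul_right e3 hE0

end Pool.Agent.R755.KF
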