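import Pool.Agent.R755.KF.Defs3
import Pool.Agent.Y279.PV.Den
import Pool.Agent.Y506.PV.Img

/-!
# D2 (helper141): adding one dimension keeps concentration
-/

set_option autoImplicit false

namespace Pool.Agent.R755.KF

open MeasureTheory Set Filter Topology
open scoped ENNReal InnerProductSpace
open Pool.Agent.Y506.RG
open Pool.Agent.Y506.PV
open Pool.Agent.Y279.PV (VW_eq VW_le EW_mul lin_bd lin_sq_bd lin_meas)
open Pool.Agent.W695.KH (Eu)

namespace D2aux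

variable {n : ℕ}

/-! ### variances of linear functionals -/

/-- variance of a linear functional -/
noncomputable def q (w : Eu (Fin n) → ℝ) (η : Eu (Fin n)) : ℝ := VW w fun z => ⟪z, η⟫_ℝ

lemma il {w : Eu (Fin n) → ℝ} (hw : Adm w) (η : Eu (Fin n)) :
    Integrable fun x => ⟪x, η⟫_ℝ * w x := hw.of_bd _ (lin_meas η) _ (lin_bd η)

lemma il2 {w : Eu (Fin n) → ℝ} (hw : Adm w) (η : Eu (Fin n)) (a : ℝ) :
    Integrable fun x => (⟪x, η⟫_ℝ - a) ^ 2 * w x :=
  hw.of_bd _ (((lin_meas η).sub_const a).pow_const 2) _ (lin_sq_bd η a)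

lemma il3 {w : Eu (Fin n) → ℝ} (hw : Adm w) (η : Eu (Fin n)) :
    Integrable fun x => ⟪x, η⟫_ℝ ^ 2 * w x := by
  have := il2 hw η 0
  simpa using this

lemma q_eq {w : Eu (Fin n) → ℝ} (hw : Adm w) (η : Eu (Fin n)) :
    q w η = EW w fun z => (⟪z, η⟫_ℝ - EW w fun z => ⟪z, η⟫_ℝ) ^ 2 :=
  VW_eq hw _ (il hw η) (il3 hw η)

lemma q_nonneg {w : Eu (Fin n) → ℝ} (hw : Adm w) (η : Eu (Fin n)) : 0 ≤ q w η := by
  rw [q_eq hw]
  exact EW_nonneg hw _ fun x => sq_nonneg _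

lemma q_smul {w : Eu (Fin n) → ℝ} (t : ℝ) (η : Eu (Fin n)) :
    q w (t • η) = t ^ 2 * q w η := by
  unfold q VW
  simp only
  have h1 : (fun z : Eu (Fin n) => ⟪z, t • η⟫_ℝ) = fun z => t * ⟪z, η⟫_ℝ := by
    funext z
    rw [inner_smul_right]
  have h2 : (fun z : Eu (Fin n) => ⟪z, t • η⟫_ℝ ^ 2) = fun z => t ^ 2 * ⟪z, η⟫_ℝ ^ 2 := by
    funext z
    rw [inner_smul_right, mul_pow]
  rw [h2, h1, EW_const_mul, EW_const_mul]
  ring

lemma q_sub {w : Eu (Fin n) → ℝ} (hw : Adm w) (η ζ : Eu (Fin n)) :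
    q w (η - ζ) ≤ 2 * q w η + 2 * q w ζ := by
  obtain ⟨a, ha⟩ : ∃ a : ℝ, a = EW w fun z => ⟪z, η⟫_ℝ := ⟨_, rfl⟩
  obtain ⟨b, hb⟩ : ∃ b : ℝ, b = EW w fun z => ⟪z, ζ⟫_ℝ := ⟨_, rfl⟩
  have h1 : q w (η - ζ) ≤ EW w fun z => (⟪z, η - ζ⟫_ℝ - (a - b)) ^ 2 :=
    VW_le hw _ (il hw _) (il3 hw _) (a - b)
  have i1 : Integrable fun z => 2 * (⟪z, η⟫_ℝ - a) ^ 2 * w z := by
    refine ((il2 hw η a).const_mul 2).congr (Eventually.of_forall fun x => ?_)
    simp only
    ring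
  have i2 : Integrable fun z => 2 * (⟪z, ζ⟫_ℝ - b) ^ 2 * w z := by
    refine ((il2 hw ζ b).const_mul 2).congr (Eventually.of_forall fun x => ?_)
    simp only
    ring
  have i3 : Integrable fun z => (2 * (⟪z, η⟫_ℝ - a) ^ 2 + 2 * (⟪z, ζ⟫_ℝ - b) ^ 2) * w z := by
    refine (i1.add i2).congr (Eventually.of_forall fun x => ?_)
    simp only [Pi.add_apply]
    ring
  have h2 : EW w (fun z => (⟪z, η - ζ⟫_ℝ - (a - b)) ^ 2) ≤
      EW w fun z => 2 * (⟪z, η⟫_ℝ - a) ^ 2 + 2 * (⟪z, ζ⟫_ℝ - b) ^ 2 := by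
    refine EW_mono hw _ _ (il2 hw _ _) i3 fun z => ?_
    rw [inner_sub_right]
    nlinarith [sq_nonneg ((⟪z, η⟫_ℝ - a) + (⟪z, ζ⟫_ℝ - b))]
  rw [EW_add _ _ i1 i2, EW_const_mul, EW_const_mul, ha, hb, ← q_eq hw, ← q_eq hw] at h2
  rw [ha, hb] at h1
  exact h1.trans h2

/-! ### coordinates -/

/-- `x' ↦ (0, x')` -/
noncomputable def inc (n : ℕ) : Eu (Fin n) →ₗ[ℝ] Eu (Fin (n + 1)) where
  toFun x := WithLp.toLp 2 (Fin.cons 0 fun i => x i)
  map_add' x y := by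
    ext i
    refine Fin.cases ?_ (fun i => ?_) i
    · simp
    · simp
  map_smul' c x := by
    ext i
    refine Fin.cases ?_ (fun i => ?_) i
    · simp
    · simp

lemma inc_zero (x : Eu (Fin n)) : inc n x 0 = 0 := rfl

lemma inc_succ (x : Eu (Fin n)) (i : Fin n) : inc n x i.succ = x i := rfl

lemma drp_apply (z : Eu (Fin (n + 1))) (i : Fin n) : drp n z i = z i.succ := rfl

/-- the first unit vector -/
noncomputable def e0 (n : ℕ) : Eu (Fin (n + 1)) := EuclideanSpace.single 0 1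

lemma decomp (z : Eu (Fin (n + 1))) : z = inc n (drp n z) + z 0 • e0 n := by
  ext i
  refine Fin.cases ?_ (fun i => ?_) i
  · simp [inc_zero, e0]
  · simp [inc_succ, drp_apply, e0]

lemma inner_inc (z : Eu (Fin (n + 1))) (b : Eu (Fin n)) : ⟪z, inc n b⟫_ℝ = ⟪drp n z, b⟫_ℝ := by
  simp only [PiLp.inner_apply, RCLike.inner_apply, conj_trivial]
  rw [Fin.sum_univ_succ, inc_zero, zero_mul, zero_add]
  rfl

lemma inner_e0 (z : Eu (Fin (n + 1))) : ⟪z, e0 n⟫_ℝ = z 0 := by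
  simp [e0, EuclideanSpace.inner_single_right]

/-! ### the choice of `b` -/

lemma choice {w : Eu (Fin (n + 1)) → ℝ} (hw : Adm w) (k : ℕ)
    (T : Eu (Fin (n + 1)) →ₗ[ℝ] Eu (Fin k)) (s : ℝ) (hs : 0 < s)
    (hT : ∀ θ : Eu (Fin k), ‖θ‖ = 1 → VW w (fun x => ⟪T x, θ⟫_ℝ) ≤ s) :
    ∃ b : Eu (Fin n), ‖T (e0 n)‖ ^ 2 * q w (e0 n - inc n b) ≤ 2 * s ∧
      ∀ θ : Eu (Fin k), ‖θ‖ = 1 →
        q w (LinearMap.adjoint T θ - ⟪T (e0 n), θ⟫_ℝ • (e0 n - inc n b)) ≤ 6 * s := by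
  obtain ⟨a, ha⟩ : ∃ a : Eu (Fin k), a = T (e0 n) := ⟨_, rfl⟩
  rw [← ha]
  have hbdd : BddBelow (range fun b : Eu (Fin n) => q w (e0 n - inc n b)) :=
    ⟨0, by rintro _ ⟨b, rfl⟩; exact q_nonneg hw _⟩
  obtain ⟨I, hI⟩ : ∃ I : ℝ, I = ⨅ b : Eu (Fin n), q w (e0 n - inc n b) := ⟨_, rfl⟩
  have hI0 : 0 ≤ I := by
    rw [hI]
    exact le_ciInf fun b => q_nonneg hw _
  have hpos : 0 < s / (‖a‖ ^ 2 + 1) := by positivity
  obtain ⟨b, hb⟩ : ∃ b : Eu (Fin n), q w (e0 n - inc n b) < I + s / (‖a‖ ^ 2 + 1) :=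
    exists_lt_of_ciInf_lt (by rw [← hI]; linarith)
  have hTq : ∀ θ : Eu (Fin k), ‖θ‖ = 1 → q w (LinearMap.adjoint T θ) ≤ s := by
    intro θ hθ
    have h1 := hT θ hθ
    unfold q
    have h2 : (fun z => ⟪z, LinearMap.adjoint T θ⟫_ℝ) = fun z => ⟪T z, θ⟫_ℝ := by
      funext z
      rw [LinearMap.adjoint_inner_right]
    rw [h2]
    exact h1
  have hlow : ∀ θ : Eu (Fin k), ⟪a, θ⟫_ℝ ^ 2 * I ≤ q w (LinearMap.adjoint T θ) := by
    intro θ
    obtain ⟨t, ht⟩ : ∃ t : ℝ, t = ⟪a, θ⟫_ℝ := ⟨_, rfl⟩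
    rw [← ht]
    by_cases ht0 : t = 0
    · rw [ht0]
      simpa using q_nonneg hw _
    · have h1 : LinearMap.adjoint T θ = t • (e0 n - inc n (-(t⁻¹ • drp n (LinearMap.adjoint T θ)))) := by
        have h2 : (LinearMap.adjoint T θ) 0 = t := by
          rw [← inner_e0, real_inner_comm, LinearMap.adjoint_inner_right, ht, ha]
        conv_lhs => rw [decomp (LinearMap.adjoint T θ), h2]
        rw [map_neg, map_smul, sub_neg_eq_add, smul_add, smul_smul, mul_inv_cancel₀ ht0, one_smul]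
        exact add_comm _ _
      rw [h1, q_smul]
      refine mul_le_mul_of_nonneg_left ?_ (sq_nonneg t)
      rw [hI]
      exact ciInf_le hbdd _
  have hcs : ∀ θ : Eu (Fin k), ‖θ‖ = 1 → ⟪a, θ⟫_ℝ ^ 2 * q w (e0 n - inc n b) ≤ 2 * s := by
    intro θ hθ
    have h1 : ⟪a, θ⟫_ℝ ^ 2 ≤ ‖a‖ ^ 2 := by
      have := abs_real_inner_le_norm a θ
      rw [hθ, mul_one] at this
      rw [← sq_abs]
      exact pow_le_pow_left₀ (abs_nonneg _) this 2
    have h2 : ⟪a, θ⟫_ℝ ^ 2 * (s / (‖a‖ ^ 2 + 1)) ≤ s := by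
      rw [← mul_div_assoc, div_le_iff₀ (by positivity)]
      nlinarith
    have h3 := mul_le_mul_of_nonneg_left hb.le (sq_nonneg ⟪a, θ⟫_ℝ)
    have h4 := (hlow θ).trans (hTq θ hθ)
    linarith
  refine ⟨b, ?_, fun θ hθ => ?_⟩
  · by_cases ha0 : a = 0
    · rw [ha0]
      simp
      linarith
    · have hn : ‖a‖ ≠ 0 := norm_ne_zero_iff.2 ha0
      have h1 := hcs (‖a‖⁻¹ • a) (by rw [norm_smul, norm_inv, norm_norm, inv_mul_cancel₀ hn])
      rw [inner_smul_right, real_inner_self_eq_norm_sq] at h1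
      have h2 : (‖a‖⁻¹ * ‖a‖ ^ 2) = ‖a‖ := by
        field_simp
      rwa [h2] at h1
  · refine (q_sub hw _ _).trans ?_
    rw [q_smul]
    have h1 := hTq θ hθ
    have h2 := hcs θ hθ
    linarith

end D2aux

open D2aux

theorem lift1 (h1 : S_PRJ) (h2 : S_DENR) : S_LIFT1 := by
  intro δ hδ
  obtain ⟨δ0, c, hδ0, hc, H⟩ := h2 (δ / 4) (by positivity)
  refine ⟨δ0, hδ0, fun κ hκ => ?_⟩
  obtain ⟨κ', hκ'⟩ : ∃ κ' : ℝ, κ' = min (c * κ / Real.sqrt 6) (Real.sqrt (δ / 8)) := ⟨_, rfl⟩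
  have hκ'0 : 0 < κ' := by
    rw [hκ']
    exact lt_min (by positivity) (by positivity)
  have hκ'1 : κ' ≤ c * κ / Real.sqrt 6 := by
    rw [hκ']
    exact min_le_left _ _
  have hκ'2 : κ' ^ 2 ≤ δ / 8 := by
    have : κ' ≤ Real.sqrt (δ / 8) := by
      rw [hκ']
      exact min_le_right _ _
    have h3 := pow_le_pow_left₀ hκ'0.le this 2
    rwa [Real.sq_sqrt (by positivity)] at h3
  refine ⟨κ', hκ'0, fun n K hK hcv hint hcc => ?_⟩
  obtain ⟨u, hum, hu0, huz, huc, ⟨B, hB⟩, hF⟩ := h1 n K hK hcv hint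
  have hdc : Continuous (drp n) := (drp n).continuous_of_finiteDimensional
  have hsurj : Function.Surjective (drp n) := by
    intro y
    refine ⟨WithLp.toLp 2 (Fin.cons 0 fun i => y i), ?_⟩
    ext i
    show (Fin.cons 0 (fun i => y i) : Fin (n + 1) → ℝ) i.succ = y i
    rw [Fin.cons_succ]
  obtain ⟨K0, hK0⟩ : ∃ K0 : Set (Eu (Fin n)), K0 = drp n '' K := ⟨_, rfl⟩
  rw [← hK0] at huz huc hcc
  have hcp0 : IsCompact K0 := by rw [hK0]; exact hK.image hdc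
  have hcv0 : Convex ℝ K0 := by rw [hK0]; exact hcv.linear_image (drp n)
  have hint0 : (interior K0).Nonempty := by rw [hK0]; exact int_image hint (drp n) hsurj
  have hA0 := adm_ind K0 hcp0.measurableSet hcp0.isBounded (vol_pos hint0)
  have hA := adm_ind K hK.measurableSet hK.isBounded (vol_pos hint)
  have hui : ∀ x, u x * ind K0 x = u x := by
    intro x
    unfold ind
    by_cases hx : x ∈ K0
    · rw [indicator_of_mem hx, mul_one]
    · rw [indicator_of_notMem hx, mul_zero, huz x hx]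
  have hmass : ∫ x, u x = (volume K).toReal := by
    have h1 := hF (fun _ => 1) continuous_const
    simp only [one_mul] at h1
    rw [← h1]
    simp [Measure.real]
  have hint1 : Integrable fun x => (1 + ‖x‖ ^ 2) * u x := by
    refine Integrable.mono' (hA0.int.const_mul B)
      ((by fun_prop : Measurable fun x : Eu (Fin n) => 1 + ‖x‖ ^ 2).mul hum).aestronglyMeasurable
      (Eventually.of_forall fun x => ?_)
    rw [Real.norm_eq_abs, abs_of_nonneg (mul_nonneg (by positivity) (hu0 x))]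
    have h1 : u x ≤ B * ind K0 x := by
      unfold ind
      by_cases hx : x ∈ K0
      · rw [indicator_of_mem hx, mul_one]
        exact hB x
      · rw [indicator_of_notMem hx, mul_zero, huz x hx]
    calc (1 + ‖x‖ ^ 2) * u x ≤ (1 + ‖x‖ ^ 2) * (B * ind K0 x) :=
          mul_le_mul_of_nonneg_left h1 (by positivity)
      _ = _ := by ring
  have hAu : Adm fun x => u x * ind K0 x := by
    refine ⟨fun x => by rw [hui]; exact hu0 x, ?_, ?_, ?_⟩
    · simp only [hui]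
      exact hint1
    · simp only [hui]
      rw [hmass]
      exact ENNReal.toReal_pos (vol_pos hint).ne' hK.measure_lt_top.ne
    · simp only [hui]
      exact hum
  have hEW : ∀ F : Eu (Fin n) → ℝ, Continuous F → EW (fun x => u x * ind K0 x) F =
      EW (ind K) fun z => F (drp n z) := by
    intro F hFc
    unfold EW
    simp only [hui]
    rw [hmass, ← hF F hFc, int_ind K hK.measurableSet, int_ind1 K hK.measurableSet]
  have hVW : ∀ F : Eu (Fin n) → ℝ, Continuous F → VW (fun x => u x * ind K0 x) F =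
      VW (ind K) fun z => F (drp n z) := by
    intro F hFc
    unfold VW
    rw [hEW F hFc, hEW (fun x => F x ^ 2) (hFc.pow 2)]
  have hccu : CcW (c * κ) (δ / 4) (fun x => u x * ind K0 x) :=
    H n κ (ind K0) u hκ hA0 (lcn_ind hcv0) hum hu0 huc hAu hcc
  intro k _ T s hs hT v hv hv1 hvl
  obtain ⟨b, hb1, hb2⟩ := choice hA k T s hs hT
  obtain ⟨a, ha⟩ : ∃ a : Eu (Fin k), a = T (e0 n) := ⟨_, rfl⟩
  rw [← ha] at hb1 hb2
  obtain ⟨η, hη⟩ : ∃ η : Eu (Fin (n + 1)), η = e0 n - inc n b := ⟨_, rfl⟩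
  rw [← hη] at hb1 hb2
  -- the map on the base
  obtain ⟨T', hT'⟩ : ∃ T' : Eu (Fin n) →ₗ[ℝ] Eu (Fin k), T' =
    T.comp (inc n) + (innerₛₗ ℝ b).smulRight a := ⟨_, rfl⟩
  have hTz : ∀ z, T z = T' (drp n z) + ⟪z, η⟫_ℝ • a := by
    intro z
    have e1 : T' (drp n z) = T (inc n (drp n z)) + ⟪b, drp n z⟫_ℝ • a := by
      rw [hT']
      rfl
    rw [e1, hη, inner_sub_right, inner_inc, inner_e0, real_inner_comm b (drp n z)]
    conv_lhs => rw [decomp z, map_add, map_smul, ← ha]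
    rw [add_assoc, ← add_smul]
    congr 2
    ring
  -- an isometry onto the range
  obtain ⟨r, hr, J, T2, hJ⟩ : ∃ r : ℕ, r ≤ n ∧ ∃ (J : Eu (Fin r) →ₗᵢ[ℝ] Eu (Fin k))
      (T2 : Eu (Fin n) →ₗ[ℝ] Eu (Fin r)), ∀ x, J (T2 x) = T' x := by
    let W := LinearMap.range T'
    have hr : Module.finrank ℝ W ≤ n := by
      have := LinearMap.finrank_range_le T'
      simpa using this
    let Bs := stdOrthonormalBasis ℝ W
    refine ⟨Module.finrank ℝ W, hr, W.subtypeₗᵢ.comp Bs.repr.symm.toLinearIsometry,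
      Bs.repr.toLinearEquiv.toLinearMap.comp T'.rangeRestrict, fun x => ?_⟩
    have e1 : Bs.repr.symm (Bs.repr (T'.rangeRestrict x)) = T'.rangeRestrict x :=
      LinearIsometryEquiv.symm_apply_apply _ _
    show ((Bs.repr.symm (Bs.repr (T'.rangeRestrict x)) : W) : Eu (Fin k)) = T' x
    rw [e1]
    rfl
  have hT'c : Continuous T' := T'.continuous_of_finiteDimensional
  have hT2c : Continuous T2 := T2.continuous_of_finiteDimensional
  have hTc : Continuous T := T.continuous_of_finiteDimensional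
  obtain ⟨ξ, hξ⟩ : ∃ ξ : ℝ, ξ = EW (ind K) fun z => ⟪z, η⟫_ℝ := ⟨_, rfl⟩
  -- the function on the base
  have hl0 : 0 ≤ κ' / Real.sqrt s := by positivity
  have hv2c : ContDiff ℝ 1 fun y : Eu (Fin k) => v (y + ξ • a) :=
    hv.comp (contDiff_id.add contDiff_const)
  have hv2l : ∀ y : Eu (Fin k), ‖fderiv ℝ (fun y : Eu (Fin k) => v (y + ξ • a)) y‖ ≤
      κ' / Real.sqrt s := by
    intro y
    rw [fderiv_comp_add_right]
    exact hvl _
  obtain ⟨hc1, hc2⟩ := comp_lin (J.toLinearMap) 1 zero_le_one (fun x => by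
    rw [one_mul]
    exact le_of_eq (J.norm_map x)) _ hv2c _ hv2l
  have key : VW (fun x => u x * ind K0 x) (fun x => v (J (T2 x) + ξ • a)) ≤ δ / 4 := by
    refine hccu r hr T2 (6 * s) (by positivity) (fun θ hθ => ?_) (fun y => v (J y + ξ • a)) hc1
      (fun y => hv1 _) (fun y => (hc2 y).trans ?_)
    · rw [hVW (fun x => ⟪T2 x, θ⟫_ℝ) (hT2c.inner continuous_const)]
      have e1 : (fun z => ⟪T2 (drp n z), θ⟫_ℝ) = fun z =>
          ⟪z, LinearMap.adjoint T (J θ) - ⟪a, J θ⟫_ℝ • η⟫_ℝ := by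
        funext z
        rw [← J.inner_map_map, hJ, inner_sub_right, LinearMap.adjoint_inner_right, hTz z,
          inner_add_left, inner_smul_left, inner_smul_right]
        simp only [conj_trivial]
        ring
      rw [e1]
      exact hb2 (J θ) (by rw [J.norm_map, hθ])
    · rw [mul_one, Real.sqrt_mul (by norm_num : (0 : ℝ) ≤ 6)]
      have h3 : 0 < Real.sqrt 6 := Real.sqrt_pos.2 (by norm_num)
      have h4 : 0 < Real.sqrt s := Real.sqrt_pos.2 hs
      rw [← div_div]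
      exact div_le_div_of_nonneg_right hκ'1 h4.le
  rw [hVW (fun x => v (J (T2 x) + ξ • a)) (hv.continuous.comp
    ((J.continuous.comp hT2c).add continuous_const))] at key
  simp only [hJ] at key
  -- comparison
  obtain ⟨Hf, hHf⟩ : ∃ Hf : Eu (Fin (n + 1)) → ℝ, Hf = fun z => v (T' (drp n z) + ξ • a) :=
    ⟨_, rfl⟩
  rw [← hHf] at key
  have hHc : Continuous Hf := by
    rw [hHf]
    exact hv.continuous.comp ((hT'c.comp hdc).add continuous_const)
  have hHb : ∀ z, |Hf z| ≤ 1 := fun z => by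
    rw [hHf]
    exact hv1 _
  obtain ⟨m, hm⟩ : ∃ m : ℝ, m = EW (ind K) Hf := ⟨_, rfl⟩
  have hFc : Continuous fun z => v (T z) := hv.continuous.comp hTc
  have sqb : ∀ t : ℝ, |t| ≤ 1 → |t ^ 2| ≤ 1 := fun t ht => by
    rw [abs_pow]
    exact pow_le_one₀ (abs_nonneg _) ht
  have i1 : Integrable fun z => v (T z) * ind K z := hA.bdd _ hFc.measurable 1 fun z => hv1 _
  have i2 : Integrable fun z => v (T z) ^ 2 * ind K z :=
    hA.bdd _ (hFc.pow 2).measurable 1 fun z => sqb _ (hv1 _)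
  have i3 : Integrable fun z => Hf z * ind K z := hA.bdd _ hHc.measurable 1 hHb
  have i4 : Integrable fun z => Hf z ^ 2 * ind K z :=
    hA.bdd _ (hHc.pow 2).measurable 1 fun z => sqb _ (hHb z)
  have i5 : Integrable fun z => 2 * (Hf z - m) ^ 2 * ind K z := by
    refine hA.bdd _ (((hHc.sub continuous_const).pow 2).const_smul (2 : ℝ)).measurable
      (2 * (1 + |m|) ^ 2) fun z => ?_
    rw [abs_mul, abs_two, abs_pow]
    refine mul_le_mul_of_nonneg_left (pow_le_pow_left₀ (abs_nonneg _) ?_ 2) (by norm_num)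
    exact (abs_sub _ _).trans (add_le_add (hHb z) le_rfl)
  obtain ⟨lam, hlam⟩ : ∃ lam : ℝ, lam = 2 * ((κ' / Real.sqrt s) ^ 2 * ‖a‖ ^ 2) := ⟨_, rfl⟩
  have i6 : Integrable fun z => lam * (⟪z, η⟫_ℝ - ξ) ^ 2 * ind K z := by
    refine ((il2 hA η ξ).const_mul lam).congr (Eventually.of_forall fun x => ?_)
    simp only
    ring
  have i7 : Integrable fun z => (2 * (Hf z - m) ^ 2 + lam * (⟪z, η⟫_ℝ - ξ) ^ 2) * ind K z := by
    refine (i5.add i6).congr (Eventually.of_forall fun x => ?_)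
    simp only [Pi.add_apply]
    ring
  have i8 : Integrable fun z => (v (T z) - m) ^ 2 * ind K z := by
    refine hA.bdd _ ((hFc.sub continuous_const).pow 2).measurable
      ((1 + |m|) ^ 2) fun z => ?_
    rw [abs_pow]
    refine pow_le_pow_left₀ (abs_nonneg _) ?_ 2
    exact (abs_sub _ _).trans (add_le_add (hv1 _) le_rfl)
  have hpt : ∀ z, (v (T z) - m) ^ 2 ≤ 2 * (Hf z - m) ^ 2 + lam * (⟪z, η⟫_ℝ - ξ) ^ 2 := by
    intro z
    have h3 : ‖v (T z) - Hf z‖ ≤ κ' / Real.sqrt s * ‖T z - (T' (drp n z) + ξ • a)‖ := by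
      rw [hHf]
      exact Convex.norm_image_sub_le_of_norm_fderiv_le (s := univ)
        (fun x _ => hv.differentiable one_ne_zero x) (fun x _ => hvl x) convex_univ (mem_univ _)
        (mem_univ _)
    have h4 : T z - (T' (drp n z) + ξ • a) = (⟪z, η⟫_ℝ - ξ) • a := by
      rw [hTz z, sub_smul]
      abel
    rw [h4, norm_smul, Real.norm_eq_abs, Real.norm_eq_abs] at h3
    have h5 := pow_le_pow_left₀ (abs_nonneg _) h3 2
    rw [sq_abs, mul_pow, mul_pow, sq_abs] at h5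
    have h6 : (v (T z) - m) ^ 2 ≤ 2 * (Hf z - m) ^ 2 + 2 * (v (T z) - Hf z) ^ 2 := by
      nlinarith [sq_nonneg ((Hf z - m) - (v (T z) - Hf z))]
    have h7 : 2 * ((κ' / Real.sqrt s) ^ 2 * ((⟪z, η⟫_ℝ - ξ) ^ 2 * ‖a‖ ^ 2)) =
        lam * (⟪z, η⟫_ℝ - ξ) ^ 2 := by
      rw [hlam]
      ring
    linarith
  have e1 := (VW_le hA _ i1 i2 m).trans (EW_mono hA _ _ i8 i7 hpt)
  rw [EW_add _ _ i5 i6, EW_const_mul, EW_const_mul] at e1
  have e2 : EW (ind K) (fun z => (Hf z - m) ^ 2) ≤ δ / 4 := by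
    rw [hm, ← VW_eq hA _ i3 i4]
    exact key
  have e3 : EW (ind K) (fun z => (⟪z, η⟫_ℝ - ξ) ^ 2) = q (ind K) η := by
    rw [hξ, ← q_eq hA]
  have e4 : lam * q (ind K) η ≤ 4 * κ' ^ 2 := by
    have h3 : lam * q (ind K) η = 2 * (κ' / Real.sqrt s) ^ 2 * (‖a‖ ^ 2 * q (ind K) η) := by
      rw [hlam]
      ring
    rw [h3]
    calc 2 * (κ' / Real.sqrt s) ^ 2 * (‖a‖ ^ 2 * q (ind K) η) ≤
          2 * (κ' / Real.sqrt s) ^ 2 * (2 * s) := mul_le_mul_of_nonneg_left hb1 (by positivity)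
      _ = 4 * κ' ^ 2 := by
          rw [div_pow, Real.sq_sqrt hs.le]
          field_simp
          ring
  rw [e3] at e1
  linarith

end Pool.Agent.R755.KF
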