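import Pool.Agent.R755.KF.Defs3
import Pool.Agent.Y506.PV.Img

/-!
# Adding `j` dimensions (task D3)
-/

set_option autoImplicit false

namespace Pool.Agent.R755.KF

open MeasureTheory Set Filter Topology
open scoped ENNReal InnerProductSpace
open Pool.Agent.R754.KG (E)
open Pool.Agent.Y506.RG (EW VW Adm)
open Pool.Agent.Y506.PV (CcW ind LCn ConcS drp S_CMP S_FAC adm_ind vol_pos cc_equiv int_image)

/-- adding one dimension, for an arbitrary surjection -/
theorem lift1_gen (h1 : S_LIFT1) (h2 : S_CMP) (δ : ℝ) (hδ : 0 < δ) : ∃ δ0 : ℝ, 0 < δ0 ∧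
    ∀ κ : ℝ, 0 < κ → ∃ κ' : ℝ, 0 < κ' ∧
    ∀ (n : ℕ) (K : Set (E (n + 1))) (A : E (n + 1) →ₗ[ℝ] E n), Function.Surjective A →
    IsCompact K → Convex ℝ K → (interior K).Nonempty →
    CcW κ δ0 (ind (A '' K)) → CcW κ' δ (ind K) := by
  obtain ⟨δ0, hδ0, H⟩ := h1 δ hδ
  refine ⟨δ0, hδ0, fun κ hκ => ?_⟩
  obtain ⟨κ', hκ', H'⟩ := H κ hκ
  refine ⟨κ', hκ', fun n K A hA hK hcv hint hcc => ?_⟩
  obtain ⟨C, hC⟩ := h2 n A hA
  have e1 : A '' K = drp n '' (C '' K) := by
    rw [image_image]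
    exact image_congr fun x _ => hC x
  rw [e1] at hcc
  have hK' : IsCompact (C '' K) := hK.image C.continuous
  have hcv' : Convex ℝ (C '' K) := hcv.linear_image C.toLinearEquiv.toLinearMap
  have hint' : (interior (C '' K)).Nonempty :=
    int_image hint C.toLinearEquiv.toLinearMap C.surjective
  have h3 := H' n (C '' K) hK' hcv' hint' hcc
  have hadm := adm_ind (C '' K) hK'.measurableSet hK'.isBounded (vol_pos hint')
  have h4 := cc_equiv C.symm (C '' K) hadm h3
  have e2 : C.symm '' (C '' K) = K := by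
    rw [image_image]
    simp
  rwa [e2] at h4

theorem lift (h1 : S_LIFT1) (h2 : S_CMP) (h3 : S_FAC) : S_LIFT := by
  intro j
  induction j with
  | zero =>
    intro δ hδ
    refine ⟨δ, hδ, fun κ hκ => ⟨κ, hκ, fun n K A hA hK hcv hint hcc => ?_⟩⟩
    have hinj : Function.Injective A := (LinearMap.injective_iff_surjective (f := A)).2 hA
    let F : E n ≃ₗ[ℝ] E n := LinearEquiv.ofBijective A ⟨hinj, hA⟩
    have e1 : A '' K = F.toContinuousLinearEquiv '' K := rfl
    have hAc : Continuous A := A.continuous_of_finiteDimensional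
    have hK' : IsCompact (A '' K) := hK.image hAc
    have hint' : (interior (A '' K)).Nonempty := int_image hint A hA
    have hadm := adm_ind (A '' K) hK'.measurableSet hK'.isBounded (vol_pos hint')
    have h4 := cc_equiv F.toContinuousLinearEquiv.symm (A '' K) hadm hcc
    have e2 : F.toContinuousLinearEquiv.symm '' (A '' K) = K := by
      rw [e1, image_image]
      simp
    rwa [e2] at h4
  | succ j ih =>
    intro δ hδ
    obtain ⟨δ1, hδ1, H1⟩ := lift1_gen h1 h2 δ hδ
    obtain ⟨δ0, hδ0, H0⟩ := ih δ1 hδ1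
    refine ⟨δ0, hδ0, fun κ hκ => ?_⟩
    obtain ⟨κ1, hκ1, H0'⟩ := H0 κ hκ
    obtain ⟨κ', hκ', H1'⟩ := H1 κ1 hκ1
    refine ⟨κ', hκ', fun n K A hA hK hcv hint hcc => ?_⟩
    obtain ⟨A1, A2, hA1, hA2, hAA⟩ := h3 (n + j) n A hA (Nat.le_add_right n j)
    have hA1c : Continuous A1 := A1.continuous_of_finiteDimensional
    have e1 : A '' K = A2 '' (A1 '' K) := by
      rw [image_image]
      exact image_congr fun x _ => hAA x
    rw [e1] at hcc
    have h4 := H0' n (A1 '' K) A2 hA2 (hK.image hA1c) (hcv.linear_image A1)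
      (int_image hint A1 hA1) hcc
    exact H1' (n + j) K A1 hA1 hK hcv hint h4

end Pool.Agent.R755.KF
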