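import Pool.Agent.R755.KF.M

/-!
# Fibres of convex bodies: elementary facts
-/

set_option autoImplicit false

namespace Pool.Agent.R755.KF

open MeasureTheory Set Filter Topology
open scoped ENNReal InnerProductSpace
open Pool.Agent.R754.KG (E un sl Rv)

variable {N d n : ℕ}

theorem fib_comp (e : (E N × E d) ≃ₗ[ℝ] E n) {K : Set (E n)} (h : IsCompact K) (t : E d) :
    IsCompact {x : E N | e (x, t) ∈ K} := by
  let e' : (E N × E d) ≃L[ℝ] E n := e.toContinuousLinearEquiv
  have h1 : IsCompact (e' ⁻¹' K) := e'.toHomeomorph.isCompact_preimage.2 h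
  refine Metric.isCompact_of_isClosed_isBounded ?_ ?_
  · exact h1.isClosed.preimage (by fun_prop : Continuous fun x : E N => (x, t))
  · exact h1.isBounded.image_fst.subset fun x hx => ⟨(x, t), hx, rfl⟩

theorem fib_bdd (e : (E N × E d) ≃ₗ[ℝ] E n) {K : Set (E n)} (h : IsCompact K) (t : E d) :
    Bornology.IsBounded {x : E N | e (x, t) ∈ K} := (fib_comp e h t).isBounded

theorem fib_conv (e : (E N × E d) ≃ₗ[ℝ] E n) {K : Set (E n)} (h : Convex ℝ K) (t : E d) :
    Convex ℝ {x : E N | e (x, t) ∈ K} := by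
  intro x hx y hy a b ha hb hab
  have h1 := h (show e (x, t) ∈ K from hx) (show e (y, t) ∈ K from hy) ha hb hab
  have h2 : a • (x, t) + b • (y, t) = (a • x + b • y, t) := by
    refine Prod.ext rfl ?_
    change a • t + b • t = t
    rw [← add_smul, hab, one_smul]
  rw [← map_smul, ← map_smul, ← map_add, h2] at h1
  exact h1

theorem fib_int (e : (E N × E d) ≃ₗ[ℝ] E n) {K : Set (E n)} (h : Convex ℝ K) (t : E d)
    (ht : volume {x : E N | e (x, t) ∈ K} ≠ 0) : (interior {x : E N | e (x, t) ∈ K}).Nonempty :=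
  int_of_vol (fib_conv e h t) ht

theorem vol_aff_zero (M : E N ≃ₗ[ℝ] E N) (v : E N) {D : Set (E N)} (h : volume D = 0) :
    volume ((fun x => v + M x) '' D) = 0 := by
  have e1 : (fun x => v + M x) '' D = (fun x => v + x) '' (M '' D) := by
    rw [image_image]
  rw [e1, image_add_left, measure_preimage_add]
  have h2 := Measure.addHaar_image_linearMap (volume : Measure (E N)) M.toLinearMap D
  have e2 : (M.toLinearMap : E N → E N) '' D = M '' D := rfl
  rw [← e2, h2, h, mul_zero]

end Pool.Agent.R755.KF
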