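import Pool.Agent.R755.KF.Iso
import Pool.Agent.Results.MP_6d896a_gt.OneSymmetric

/-!
# One-symmetric bodies satisfy the Poincaré inequality in isotropic position
-/

set_option autoImplicit false

namespace Pool.Agent.R755.KF

open MeasureTheory Set Filter Topology
open scoped ENNReal InnerProductSpace
open Pool.Agent.R754.KG (E un un_prob un_int)

namespace S1aux

variable {N : ℕ}

/-- flip the sign of one coordinate -/
noncomputable def flip (i : Fin N) : E N ≃ₗᵢ[ℝ] E N :=
  LinearIsometryEquiv.piLpCongrRight 2
    (fun k => if k = i then LinearIsometryEquiv.neg ℝ else LinearIsometryEquiv.refl ℝ ℝ)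

theorem flip_apply (i : Fin N) (x : E N) (k : Fin N) :
    flip i x k = if k = i then - x k else x k := by
  unfold flip
  rw [LinearIsometryEquiv.piLpCongrRight_apply]
  simp only
  split_ifs <;> simp

/-- swap two coordinates -/
noncomputable def swp (σ : Equiv.Perm (Fin N)) : E N ≃ₗᵢ[ℝ] E N :=
  LinearIsometryEquiv.piLpCongrLeft 2 ℝ ℝ σ

theorem swp_apply (σ : Equiv.Perm (Fin N)) (x : E N) (k : Fin N) :
    swp σ x k = x (σ.symm k) := by
  unfold swp
  rw [LinearIsometryEquiv.piLpCongrLeft_apply]
  simp

theorem un_inv {C : Set (E N)} (hCm : MeasurableSet C) (U : E N ≃ₗᵢ[ℝ] E N) (hU : U ⁻¹' C = C)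
    (g : E N → ℝ) : ∫ x, g (U x) ∂(un C) = ∫ x, g x ∂(un C) := by
  unfold un
  rw [integral_smul_measure, integral_smul_measure]
  congr 1
  have h := (U.measurePreserving.restrict_preimage hCm).integral_comp
    U.toHomeomorph.measurableEmbedding g
  rw [hU] at h
  exact h

end S1aux

open S1aux

theorem sym_pi : ∃ c0 : ℝ, 0 < c0 ∧ ∀ (N : ℕ) (C : Set (E N)), IsCompact C → Convex ℝ C →
    (interior C).Nonempty →
    (∀ (σ : Equiv.Perm (Fin N)) (x y : E N), (∀ i, |y i| = |x (σ i)|) → x ∈ C → y ∈ C) →
    PI c0 C := by
  obtain ⟨c0, hc0, hres⟩ := Pool.Agent.Results.MP_6d896a_gt.OneSymmetric.result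
  refine ⟨c0, hc0, ?_⟩
  intro N C hcomp hconv hint hsym
  have hv0 : volume C ≠ 0 := vol_ne hint
  have hv1 : volume C ≠ ⊤ := hcomp.measure_lt_top.ne
  have hCm : MeasurableSet C := hcomp.isClosed.measurableSet
  have hbd : Bornology.IsBounded C := hcomp.isBounded
  have hprob : IsProbabilityMeasure (un C) := un_prob hv0 hv1
  have hI : ∀ {f : E N → ℝ}, Continuous f → Integrable f (un C) := fun hf => un_int hv0 hbd hf
  refine ⟨hcomp, hconv, hint, ?_⟩
  rcases Nat.eq_zero_or_pos N with hN | hN
  · subst hN
    refine ⟨LinearEquiv.refl ℝ (E 0), ?_, ?_⟩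
    · intro θ
      have h0 : θ = 0 := Subsingleton.elim _ _
      subst h0
      simp
    · intro f hf
      have hc : ∀ x : E 0, f ((LinearEquiv.refl ℝ (E 0)) x) = f 0 := fun x =>
        congrArg f (Subsingleton.elim _ _)
      simp only [hc]
      rw [integral_const, integral_const]
      simp only [probReal_univ, one_smul, sub_self]
      exact mul_nonneg hc0.le (integral_nonneg fun x => sq_nonneg _)
  · -- invariance
    have hpre : ∀ (U : E N ≃ₗᵢ[ℝ] E N) (σ : Equiv.Perm (Fin N)),
        (∀ x i, |U x i| = |x (σ i)|) → U ⁻¹' C = C := by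
      intro U σ hU
      ext x
      constructor
      · intro hx
        refine hsym σ.symm (U x) x (fun i => ?_) hx
        rw [hU, Equiv.apply_symm_apply]
      · intro hx
        exact hsym σ x (U x) (hU x) hx
    have hflip : ∀ i, flip i ⁻¹' C = C := fun i => hpre (flip i) (Equiv.refl _) (fun x k => by
      rw [flip_apply]; split_ifs <;> simp)
    have hswp : ∀ σ, swp σ ⁻¹' C = C := fun σ => hpre (swp σ) σ.symm (fun x k => by
      rw [swp_apply])
    have hcoord : ∀ i : Fin N, Continuous fun x : E N => x i := fun i => by fun_prop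
    -- first moments
    have hm1 : ∀ i, ∫ x, x i ∂(un C) = 0 := by
      intro i
      have h := un_inv hCm (flip i) (hflip i) (fun x => x i)
      simp only [flip_apply, if_true] at h
      rw [integral_neg] at h
      linarith
    have hm2 : ∀ i j, i ≠ j → ∫ x, x i * x j ∂(un C) = 0 := by
      intro i j hij
      have h := un_inv hCm (flip i) (hflip i) (fun x => x i * x j)
      simp only [flip_apply, if_true, if_neg (Ne.symm hij), neg_mul] at h
      rw [integral_neg] at h
      linarith
    let i0 : Fin N := ⟨0, hN⟩
    obtain ⟨v, hv⟩ : ∃ v : ℝ, v = ∫ x, x i0 * x i0 ∂(un C) := ⟨_, rfl⟩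
    have hm3 : ∀ i, ∫ x, x i * x i ∂(un C) = v := by
      intro i
      have h := un_inv hCm (swp (Equiv.swap i0 i)) (hswp _) (fun x => x i * x i)
      simp only [swp_apply, Equiv.symm_swap, Equiv.swap_apply_right] at h
      rw [← h, hv]
    have hvpos : 0 < v := by
      rw [hv]
      rw [integral_pos_iff_support_of_nonneg (fun x => mul_self_nonneg _)
        (hI ((hcoord i0).mul (hcoord i0)))]
      have hnull : volume {x : E N | x i0 = 0} = 0 := by
        have h := Measure.addHaar_submodule (volume : Measure (E N))
          (LinearMap.ker (EuclideanSpace.proj i0 : E N →L[ℝ] ℝ).toLinearMap) (by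
            intro htop
            have h1 : (EuclideanSpace.single i0 (1:ℝ) : E N) ∈
                LinearMap.ker (EuclideanSpace.proj i0 : E N →L[ℝ] ℝ).toLinearMap := by
              rw [htop]; trivial
            rw [LinearMap.mem_ker] at h1
            simp at h1)
        have he : {x : E N | x i0 = 0} =
            (LinearMap.ker (EuclideanSpace.proj i0 : E N →L[ℝ] ℝ).toLinearMap : Set (E N)) := by
          ext x
          simp only [Set.mem_ofPred_eq, SetLike.mem_coe, LinearMap.mem_ker]
          rfl
        rw [he]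
        exact h
      have hsup : Function.support (fun x : E N => x i0 * x i0) = {x : E N | x i0 = 0}ᶜ := by
        ext x; simp
      rw [hsup]
      have hnull' : un C {x : E N | x i0 = 0} = 0 := by
        unfold un
        rw [Measure.smul_apply, smul_eq_mul]
        have : volume.restrict C {x : E N | x i0 = 0} = 0 :=
          le_antisymm ((Measure.restrict_apply_le _ _).trans hnull.le) zero_le
        rw [this, mul_zero]
      have hms : MeasurableSet {x : E N | x i0 = 0} :=
        (isClosed_eq (hcoord i0) continuous_const).measurableSet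
      rw [prob_compl_eq_one_sub hms, hnull']
      simp
    obtain ⟨s, hs⟩ : ∃ s : ℝ, s = Real.sqrt v := ⟨_, rfl⟩
    have hspos : 0 < s := by rw [hs]; exact Real.sqrt_pos.2 hvpos
    have hs2 : s ^ 2 = v := by rw [hs]; exact Real.sq_sqrt hvpos.le
    have hsne : s⁻¹ ≠ 0 := inv_ne_zero hspos.ne'
    refine ⟨LinearEquiv.smulOfNeZero ℝ (E N) s⁻¹ hsne, ?_, ?_⟩
    · intro θ
      simp only [LinearEquiv.smulOfNeZero_apply, real_inner_smul_left]
      have hin : ∀ x : E N, ⟪x, θ⟫_ℝ = ∑ i, x i * θ i := fun x => by
        rw [PiLp.inner_apply]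
        exact Finset.sum_congr rfl fun i _ => by simp [mul_comm]
      have h1 : ∫ x : E N, s⁻¹ * ⟪x, θ⟫_ℝ ∂(un C) = 0 := by
        rw [integral_const_mul]
        simp only [hin]
        have hii : ∀ i ∈ Finset.univ, Integrable (fun x : E N => x i * θ i) (un C) :=
          fun i _ => hI ((hcoord i).mul continuous_const)
        rw [integral_finsetSum _ hii]
        have : ∀ i, ∫ x : E N, x i * θ i ∂(un C) = 0 := fun i => by
          rw [integral_mul_const, hm1, zero_mul]
        simp [this]
      have h2 : ∫ x : E N, (s⁻¹ * ⟪x, θ⟫_ℝ) ^ 2 ∂(un C) = ‖θ‖ ^ 2 := by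
        have e1 : ∀ x : E N, (s⁻¹ * ⟪x, θ⟫_ℝ) ^ 2 =
            (s⁻¹) ^ 2 * ∑ i, ∑ j, (θ i * θ j) * (x i * x j) := by
          intro x
          rw [hin, mul_pow, sq (∑ i, x i * θ i), Finset.sum_mul_sum]
          congr 1
          exact Finset.sum_congr rfl fun i _ => Finset.sum_congr rfl fun j _ => by ring
        simp only [e1]
        rw [integral_const_mul, integral_finsetSum]
        · have e2 : ∀ i, ∫ x : E N, ∑ j, (θ i * θ j) * (x i * x j) ∂(un C) = θ i ^ 2 * v := by
            intro i
            rw [integral_finsetSum]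
            · rw [Finset.sum_eq_single i]
              · rw [integral_const_mul, hm3]; ring
              · intro j _ hj
                rw [integral_const_mul, hm2 i j (Ne.symm hj), mul_zero]
              · simp
            · intro j _
              exact hI (continuous_const.mul ((hcoord i).mul (hcoord j)))
          simp only [e2]
          rw [← Finset.sum_mul, EuclideanSpace.norm_eq, Real.sq_sqrt
            (Finset.sum_nonneg fun i _ => sq_nonneg _), ← hs2]
          have e3 : ∀ i, ‖θ i‖ ^ 2 = θ i ^ 2 := fun i => by rw [Real.norm_eq_abs, sq_abs]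
          simp only [e3]
          field_simp
        · intro i _
          exact hI (continuous_finsetSum _ fun j _ =>
            continuous_const.mul ((hcoord i).mul (hcoord j)))
      rw [h1, h2]; ring
    · intro f hf
      simp only [LinearEquiv.smulOfNeZero_apply]
      -- the density
      obtain ⟨w, hw⟩ : ∃ w : ℝ, w = (volume C).toReal⁻¹ := ⟨_, rfl⟩
      have hwpos : 0 < w := by rw [hw]; exact inv_pos.2 (ENNReal.toReal_pos hv0 hv1)
      obtain ⟨ρ, hρ⟩ : ∃ ρ : E N → ℝ, ρ = C.indicator (fun _ => w) := ⟨_, rfl⟩
      have hin : ∀ x, x ∈ C → ρ x = w := fun x hx => by rw [hρ, indicator_of_mem hx]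
      have hout : ∀ x, x ∉ C → ρ x = 0 := fun x hx => by rw [hρ, indicator_of_notMem hx]
      have hSD : Pool.Agent.Results.MP_6d896a_gt.OneSymmetric.SymDensity ρ := by
        refine ⟨?_, ?_, ?_, ?_⟩
        · intro x
          by_cases hx : x ∈ C
          · rw [hin x hx]; exact hwpos.le
          · rw [hout x hx]
        · rw [hρ]; exact measurable_const.indicator hCm
        · intro x y t ht0 ht1
          by_cases hx : x ∈ C
          · by_cases hy : y ∈ C
            · rw [hin x hx, hin y hy, hin _ (hconv hx hy (by linarith) ht0.le (by ring)),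
                ← Real.rpow_add hwpos]
              simp
            · rw [hout y hy, Real.zero_rpow ht0.ne', mul_zero]
              by_cases hz : (1 - t) • x + t • y ∈ C
              · rw [hin _ hz]; exact hwpos.le
              · rw [hout _ hz]
          · rw [hout x hx, Real.zero_rpow (by linarith : (1 - t) ≠ 0), zero_mul]
            by_cases hz : (1 - t) • x + t • y ∈ C
            · rw [hin _ hz]; exact hwpos.le
            · rw [hout _ hz]
        · intro σ x y hxy
          by_cases hx : x ∈ C
          · rw [hin x hx, hin y (hsym σ x y hxy hx)]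
          · have hy : y ∉ C := fun hy => hx (hsym σ.symm y x (fun i => by
              rw [hxy, Equiv.apply_symm_apply]) hy)
            rw [hout x hx, hout y hy]
      have hμ : un C = volume.withDensity (fun x => ENNReal.ofReal (ρ x)) := by
        have h1 : (fun x => ENNReal.ofReal (ρ x)) = C.indicator (fun _ => (volume C)⁻¹) := by
          funext x
          by_cases hx : x ∈ C
          · rw [hin x hx, indicator_of_mem hx, hw, ENNReal.ofReal_inv_of_pos
              (ENNReal.toReal_pos hv0 hv1), ENNReal.ofReal_toReal hv1]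
          · rw [hout x hx, indicator_of_notMem hx, ENNReal.ofReal_zero]
        rw [h1, withDensity_indicator hCm, withDensity_const]
        rfl
      have hg : ContDiff ℝ 1 fun x : E N => f (s⁻¹ • x) := hf.comp (contDiff_const_smul _)
      have hgc : Continuous fun x : E N => f (s⁻¹ • x) := hg.continuous
      have hgL : MemLp (fun x : E N => f (s⁻¹ • x)) 2 (un C) := by
        rw [memLp_two_iff_integrable_sq hgc.aestronglyMeasurable]
        exact hI (hgc.pow 2)
      have hmom : ∀ i, ∫⁻ x, ENNReal.ofReal (x i ^ 2) ∂(un C) ≤ ENNReal.ofReal v := by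
        intro i
        have hii : Integrable (fun x : E N => x i ^ 2) (un C) := hI ((hcoord i).pow 2)
        rw [← ofReal_integral_eq_lintegral_ofReal hii
          (Eventually.of_forall fun x => sq_nonneg _)]
        have : ∫ x : E N, x i ^ 2 ∂(un C) = v := by
          rw [← hm3 i]; exact integral_congr_ae (Eventually.of_forall fun x => by simp [sq])
        rw [this]
      have key := hres N hN ρ hSD (un C) hμ hprob v hvpos hmom _ hg hgL
      have hfd : ∀ x : E N, fderiv ℝ (fun x : E N => f (s⁻¹ • x)) x =
          s⁻¹ • fderiv ℝ f (s⁻¹ • x) := by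
        intro x
        have h1 : HasFDerivAt f (fderiv ℝ f (s⁻¹ • x)) (s⁻¹ • x) :=
          ((hf.differentiable one_ne_zero) _).hasFDerivAt
        have h2 : HasFDerivAt (fun x : E N => s⁻¹ • x) (s⁻¹ • ContinuousLinearMap.id ℝ (E N)) x :=
          (hasFDerivAt_id x).const_smul s⁻¹
        have h3 := (h1.comp x h2).fderiv
        rw [show (fun x : E N => f (s⁻¹ • x)) = f ∘ (fun x : E N => s⁻¹ • x) from rfl, h3]
        ext z
        simp
      have hfdc : Continuous (fderiv ℝ f) := hf.continuous_fderiv one_ne_zero
      have hn : ∀ x : E N, ‖fderiv ℝ (fun x : E N => f (s⁻¹ • x)) x‖ ^ 2 =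
          v⁻¹ * ‖fderiv ℝ f (s⁻¹ • x)‖ ^ 2 := by
        intro x
        rw [hfd, norm_smul, mul_pow, Real.norm_eq_abs, sq_abs, inv_pow, hs2]
      have hsc : Continuous fun x : E N => s⁻¹ • x := continuous_const_smul _
      have hIn : Integrable (fun x : E N => v⁻¹ * ‖fderiv ℝ f (s⁻¹ • x)‖ ^ 2) (un C) :=
        hI (continuous_const.mul ((hfdc.comp hsc).norm.pow 2))
      simp only [hn] at key
      rw [← ofReal_integral_eq_lintegral_ofReal hIn
        (Eventually.of_forall fun x => by positivity), ← ENNReal.ofReal_mul (by positivity),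
        ENNReal.ofReal_le_ofReal_iff (by
          refine mul_nonneg (by positivity) (integral_nonneg fun x => by positivity)),
        ProbabilityTheory.variance_eq_sub hgL, integral_const_mul] at key
      calc _ ≤ c0 * v * (v⁻¹ * ∫ x : E N, ‖fderiv ℝ f (s⁻¹ • x)‖ ^ 2 ∂(un C)) := key
        _ = _ := by field_simp

end Pool.Agent.R755.KF
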