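import Pool.Agent.R755.KF.Defs2
import Pool.Agent.R755.KF.T6
import Pool.Agent.R755.KF.G4
import Pool.Agent.Y506.PV.Stb
import Pool.Agent.Y211.PV.Iso

/-!
# W1: weak Poincaré inequalities from concentration
-/

set_option autoImplicit false

namespace Pool.Agent.R755.KF

open MeasureTheory Set Filter Topology
open scoped ENNReal InnerProductSpace
open Pool.Agent.H888R2.KT (gs gc gc_pos gs_deriv)
open Pool.Agent.R754.KG (E un sl Rv un_int un_prob)
open Pool.Agent.W695.KH (Eu EV VV Sm)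
open Pool.Agent.Y506.PV (CcW ind adm_ind EV_EW VV_VW)
open Pool.Agent.Y506.RG (EW VW EW_aff Adm)

namespace W1aux

open T36 T6aux

variable {k : ℕ} {h : ℝ}

/-! ### the limit of small Gaussian averages -/

theorem gs_scale (hh : 0 < h) (φ : E k → ℝ) (x : E k) :
    gs h φ x = (∫ u : E k, φ (x + Real.sqrt h • u) * Real.exp (-(‖u‖ ^ 2 / 2))) /
      ∫ u : E k, Real.exp (-(‖u‖ ^ 2 / 2)) := by
  have hs : 0 < Real.sqrt h := Real.sqrt_pos.2 hh
  have hsc : ∀ u : E k, ‖Real.sqrt h • u‖ ^ 2 / (2 * h) = ‖u‖ ^ 2 / 2 := by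
    intro u
    rw [norm_smul, Real.norm_eq_abs, abs_of_pos hs, mul_pow, Real.sq_sqrt hh.le]
    field_simp
  have h1 := Measure.integral_comp_smul (volume : Measure (E k))
    (fun z => φ (x + z) * Real.exp (-(‖z‖ ^ 2 / (2 * h)))) (Real.sqrt h)
  have h2 := Measure.integral_comp_smul (volume : Measure (E k))
    (fun z => Real.exp (-(‖z‖ ^ 2 / (2 * h)))) (Real.sqrt h)
  simp only [hsc] at h1 h2
  rw [h1, h2, Pool.Agent.H888R2.KT.N6ax.gs_eq]
  unfold Pool.Agent.H888R2.KT.N6ax.g gc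
  rw [smul_eq_mul, smul_eq_mul]
  have h3 : |(Real.sqrt h ^ Module.finrank ℝ (E k))⁻¹| ≠ 0 := by positivity
  rw [mul_div_mul_left _ _ h3]

theorem gs_tendsto {φ : E k → ℝ} (hφ : Continuous φ) {B : ℝ} (hb : ∀ y, |φ y| ≤ B) (x : E k)
    (τ : ℕ → ℝ) (hτ : ∀ n, 0 < τ n) (hlim : Tendsto τ atTop (𝓝 0)) :
    Tendsto (fun n => gs (τ n) φ x) atTop (𝓝 (φ x)) := by
  have hi : Integrable fun u : E k => Real.exp (-(‖u‖ ^ 2 / 2)) := by
    have := Pool.Agent.H888R2.KT.N6ax.g_int (κ := Fin k) 1 one_pos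
    unfold Pool.Agent.H888R2.KT.N6ax.g at this
    simpa using this
  have hpos : 0 < ∫ u : E k, Real.exp (-(‖u‖ ^ 2 / 2)) := by
    have := (gc_pos (κ := Fin k) 1 one_pos).1
    unfold gc at this
    simpa using this
  have h1 : Tendsto (fun n => ∫ u : E k, φ (x + Real.sqrt (τ n) • u) * Real.exp (-(‖u‖ ^ 2 / 2)))
      atTop (𝓝 (∫ u : E k, φ x * Real.exp (-(‖u‖ ^ 2 / 2)))) := by
    refine tendsto_integral_of_dominated_convergence
      (fun u : E k => B * Real.exp (-(‖u‖ ^ 2 / 2))) (fun n => ?_) (hi.const_mul B)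
      (fun n => Eventually.of_forall fun u => ?_) (Eventually.of_forall fun u => ?_)
    · refine Continuous.aestronglyMeasurable ?_
      exact (hφ.comp (by fun_prop)).mul (by fun_prop)
    · rw [norm_mul, Real.norm_eq_abs, Real.norm_eq_abs, abs_of_pos (Real.exp_pos _)]
      exact mul_le_mul_of_nonneg_right (hb _) (Real.exp_pos _).le
    · refine Tendsto.mul ?_ tendsto_const_nhds
      have h2 : Tendsto (fun n => x + Real.sqrt (τ n) • u) atTop (𝓝 (x + Real.sqrt 0 • u)) :=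
        (((Real.continuous_sqrt.tendsto 0).comp hlim).smul_const u).const_add x
      rw [Real.sqrt_zero, zero_smul, add_zero] at h2
      exact (hφ.tendsto x).comp h2
  rw [integral_const_mul] at h1
  have h3 := h1.div_const (∫ u : E k, Real.exp (-(‖u‖ ^ 2 / 2)))
  rw [mul_div_cancel_right₀ _ hpos.ne'] at h3
  refine h3.congr fun n => ?_
  rw [gs_scale (hτ n)]

/-! ### smoothness of Gaussian averages -/

theorem lip_fd (hh : 0 < h) {v : E k → ℝ} {M : ℝ} (hv : BL M v) (x y : E k) :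
    ‖fderiv ℝ (gs h v) x - fderiv ℝ (gs h v) y‖ ≤ M / Real.sqrt h * ‖x - y‖ := by
  have hM : 0 ≤ M := (abs_nonneg _).trans (hv.bd 0)
  have hs : 0 < Real.sqrt h := Real.sqrt_pos.2 hh
  refine ContinuousLinearMap.opNorm_le_bound _ (by positivity) fun w => ?_
  rw [_root_.sub_apply]
  have hd := (gs_deriv h hh v hv.c1 M hv.bd hv.gd).2
  rw [hd, hd]
  have hb := be k h (M * ‖w‖) (fun y => fderiv ℝ v y w) hh (cont_fdw hv w) (bd_fdw hv w)
  have hg : ∀ z, ‖fderiv ℝ (gs h fun y => fderiv ℝ v y w) z‖ ≤ M * ‖w‖ / Real.sqrt h := by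
    intro z
    have h1 := hb.2.2 z
    have h2 : gs h (fun y => fderiv ℝ v y w ^ 2) z ≤ (M * ‖w‖) ^ 2 := by
      refine (le_abs_self _).trans (gs_le_bd hh ((cont_fdw hv w).pow 2) (fun y => ?_) z)
      show |fderiv ℝ v y w ^ 2| ≤ _
      rw [abs_pow]
      exact pow_le_pow_left₀ (abs_nonneg _) (bd_fdw hv w y) 2
    have h3 : h * ‖fderiv ℝ (gs h fun y => fderiv ℝ v y w) z‖ ^ 2 ≤ (M * ‖w‖) ^ 2 := by
      have := sq_nonneg (gs h (fun y => fderiv ℝ v y w) z)
      linarith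
    rw [le_div_iff₀ hs]
    refine abs_le_of_sq_le_sq' ?_ (by positivity) |>.2
    rw [mul_pow, Real.sq_sqrt hh.le, mul_comm]
    exact h3
  have h4 := Convex.norm_image_sub_le_of_norm_fderiv_le (𝕜 := ℝ)
    (f := gs h fun y => fderiv ℝ v y w) (C := M * ‖w‖ / Real.sqrt h)
    (s := Set.univ) (fun y _ => (hb.1.differentiable (by norm_num)) y) (fun y _ => hg y)
    convex_univ (Set.mem_univ y) (Set.mem_univ x)
  refine h4.trans (le_of_eq ?_)
  ring

theorem sm_comp (hh : 0 < h) {N : ℕ} {v : E k → ℝ} {M : ℝ} (hv : BL M v) (hv1 : ∀ y, |v y| ≤ 1)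
    (L : E N →L[ℝ] E k) :
    Sm (fun x => gs h v (L x)) (M * ‖L‖) (M / Real.sqrt h * ‖L‖ * ‖L‖) ∧
    ∀ x, fderiv ℝ (fun x => gs h v (L x)) x = (fderiv ℝ (gs h v) (L x)).comp L := by
  have hM : 0 ≤ M := (abs_nonneg _).trans (hv.bd 0)
  have hs : 0 < Real.sqrt h := Real.sqrt_pos.2 hh
  have hc := (gs_deriv h hh v hv.c1 M hv.bd hv.gd).1
  have hfd : ∀ x, fderiv ℝ (fun x => gs h v (L x)) x = (fderiv ℝ (gs h v) (L x)).comp L := by
    intro x
    have h1 : HasFDerivAt (gs h v) (fderiv ℝ (gs h v) (L x)) (L x) :=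
      ((hc.differentiable one_ne_zero) (L x)).hasFDerivAt
    exact (h1.comp x L.hasFDerivAt).fderiv
  refine ⟨⟨fun x => gs_le_bd hh hv.c1.continuous hv1 _, hc.comp L.contDiff, fun x => ?_,
    fun x y => ?_⟩, hfd⟩
  · rw [hfd]
    exact (ContinuousLinearMap.opNorm_comp_le _ _).trans
      (mul_le_mul_of_nonneg_right (grad_le hh hv hM hv.gd _) (norm_nonneg _))
  · rw [hfd, hfd, ← ContinuousLinearMap.sub_comp]
    refine (ContinuousLinearMap.opNorm_comp_le _ _).trans ?_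
    have h1 := lip_fd hh hv (L x) (L y)
    have h2 : ‖L x - L y‖ ≤ ‖L‖ * ‖x - y‖ := by
      rw [← map_sub]
      exact L.le_opNorm _
    calc ‖fderiv ℝ (gs h v) (L x) - fderiv ℝ (gs h v) (L y)‖ * ‖L‖
        ≤ (M / Real.sqrt h * (‖L‖ * ‖x - y‖)) * ‖L‖ := by
          refine mul_le_mul_of_nonneg_right (h1.trans ?_) (norm_nonneg _)
          exact mul_le_mul_of_nonneg_left h2 (by positivity)
      _ = _ := by ring

/-! ### from isotropic position to linear images -/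

theorem kw_of_iso {N : ℕ} {C : Set (E N)} (h0 : volume C ≠ 0) (hb : Bornology.IsBounded C)
    {a δ : ℝ} (ha : 0 ≤ a) (A : E N ≃ₗ[ℝ] E N)
    (hA : ∀ θ : E N, (∫ x, ⟪A x, θ⟫_ℝ ^ 2 ∂(un C)) - (∫ x, ⟪A x, θ⟫_ℝ ∂(un C)) ^ 2 = ‖θ‖ ^ 2)
    (hP : ∀ (f : E N → ℝ) (L M : ℝ), Sm f L M →
      (∫ x, f (A x) ^ 2 ∂(un C)) - (∫ x, f (A x) ∂(un C)) ^ 2 ≤
        δ + a * ∫ x, ‖fderiv ℝ f (A x)‖ ^ 2 ∂(un C)) : KW a δ C := by
  intro k T s hs hT M v hv hv1
  have hfin : volume C ≠ ⊤ := hb.measure_lt_top.ne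
  have hprob : IsProbabilityMeasure (un C) := un_prob h0 hfin
  have hM : 0 ≤ M := (abs_nonneg _).trans (hv.bd 0)
  obtain ⟨L, hL⟩ : ∃ L : E N →L[ℝ] E k, ∀ x, L x = T (A.symm x) :=
    ⟨LinearMap.toContinuousLinearMap (T ∘ₗ A.symm.toLinearMap), fun x => rfl⟩
  have hLA : ∀ x, L (A x) = T x := fun x => by rw [hL, A.symm_apply_apply]
  -- the adjoint
  have hadj : ∀ θ : E k, ‖ContinuousLinearMap.adjoint L θ‖ ^ 2 ≤ s * ‖θ‖ ^ 2 := by
    intro θ
    rcases eq_or_ne θ 0 with rfl | hθ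
    · simp
    have hθ' : ‖θ‖ ≠ 0 := norm_ne_zero_iff.2 hθ
    have h1 := hT (‖θ‖⁻¹ • θ) (by rw [norm_smul, norm_inv, norm_norm, inv_mul_cancel₀ hθ'])
    have h2 := hA (ContinuousLinearMap.adjoint L θ)
    have e1 : ∀ x, ⟪A x, ContinuousLinearMap.adjoint L θ⟫_ℝ = ⟪T x, θ⟫_ℝ := fun x => by
      rw [ContinuousLinearMap.adjoint_inner_right, hLA]
    simp only [e1] at h2
    simp only [inner_smul_right, mul_pow] at h1
    rw [integral_const_mul, integral_const_mul, mul_pow, ← mul_sub, h2] at h1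
    have h3 : 0 < ‖θ‖ ^ 2 := by positivity
    rw [inv_pow] at h1
    calc ‖ContinuousLinearMap.adjoint L θ‖ ^ 2
        = ‖θ‖ ^ 2 * ((‖θ‖ ^ 2)⁻¹ * ‖ContinuousLinearMap.adjoint L θ‖ ^ 2) := by
          field_simp
      _ ≤ ‖θ‖ ^ 2 * s := mul_le_mul_of_nonneg_left h1 h3.le
      _ = _ := mul_comm _ _
  have hnorm : ‖L‖ ^ 2 ≤ s := by
    have h1 : ‖ContinuousLinearMap.adjoint L‖ ≤ Real.sqrt s := by
      refine ContinuousLinearMap.opNorm_le_bound _ (Real.sqrt_nonneg _) fun θ => ?_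
      have h2 := Real.sqrt_le_sqrt (hadj θ)
      rwa [Real.sqrt_sq (norm_nonneg _), Real.sqrt_mul hs.le, Real.sqrt_sq (norm_nonneg _)] at h2
    have h2 : ‖ContinuousLinearMap.adjoint L‖ = ‖L‖ :=
      (ContinuousLinearMap.adjoint (𝕜 := ℝ) (E := E N) (F := E k)).norm_map L
    rw [h2] at h1
    calc ‖L‖ ^ 2 ≤ (Real.sqrt s) ^ 2 := pow_le_pow_left₀ (norm_nonneg _) h1 2
      _ = s := Real.sq_sqrt hs.le
  have hAc : Continuous A := A.toLinearMap.continuous_of_finiteDimensional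
  have hTc : Continuous T := T.continuous_of_finiteDimensional
  have hsq : ∀ h : ℝ, 0 < h → ∀ (g : E k → ℝ) (C : ℝ),
      Continuous g → (∀ y, |g y| ≤ C) → ∀ x, gs h g x ^ 2 ≤ gs h (fun y => g y ^ 2) x :=
    fun h hh g C hg hgb x => gs_sq be hh hg hgb x
  have hgc : ∀ h : ℝ, 0 < h → Continuous (gs h v) := fun h hh =>
    (gs_deriv h hh v hv.c1 M hv.bd hv.gd).1.continuous
  have hgc2 : ∀ h : ℝ, 0 < h → Continuous (gs h fun y => ‖fderiv ℝ v y‖ ^ 2) := fun h hh =>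
    (be k h (M ^ 2) _ hh (cont_nfd hv) (bd_nfd hv)).1.continuous
  -- the inequality for the averages
  have key : ∀ h : ℝ, 0 < h →
      (∫ x, gs h v (T x) ^ 2 ∂(un C)) - (∫ x, gs h v (T x) ∂(un C)) ^ 2 ≤
        δ + a * (s * ∫ x, gs h (fun y => ‖fderiv ℝ v y‖ ^ 2) (T x) ∂(un C)) := by
    intro h hh
    obtain ⟨h1, h2⟩ := sm_comp hh hv hv1 L
    have h3 := hP _ _ _ h1
    simp only [hLA] at h3
    refine h3.trans ?_
    have hle : ∀ x, ‖fderiv ℝ (fun y => gs h v (L y)) (A x)‖ ^ 2 ≤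
        s * gs h (fun y => ‖fderiv ℝ v y‖ ^ 2) (T x) := by
      intro x
      rw [h2, hLA]
      have h4 : ‖(fderiv ℝ (gs h v) (T x)).comp L‖ ≤ ‖fderiv ℝ (gs h v) (T x)‖ * ‖L‖ :=
        ContinuousLinearMap.opNorm_comp_le _ _
      have h5 := grad_gs hh (hsq h hh) hv (T x)
      calc ‖(fderiv ℝ (gs h v) (T x)).comp L‖ ^ 2 ≤ (‖fderiv ℝ (gs h v) (T x)‖ * ‖L‖) ^ 2 :=
            pow_le_pow_left₀ (norm_nonneg _) h4 2
        _ = ‖L‖ ^ 2 * ‖fderiv ℝ (gs h v) (T x)‖ ^ 2 := by ring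
        _ ≤ s * gs h (fun y => ‖fderiv ℝ v y‖ ^ 2) (T x) :=
            mul_le_mul hnorm h5 (sq_nonneg _) hs.le
    have h6 : ∫ x, ‖fderiv ℝ (fun y => gs h v (L y)) (A x)‖ ^ 2 ∂(un C) ≤
        s * ∫ x, gs h (fun y => ‖fderiv ℝ v y‖ ^ 2) (T x) ∂(un C) := by
      rw [← integral_const_mul]
      refine integral_mono (un_int h0 hb ?_) (un_int h0 hb ?_) hle
      · exact ((h1.diff.continuous_fderiv one_ne_zero).comp hAc).norm.pow 2
      · exact ((hgc2 h hh).comp hTc).const_mul s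
    have h7 := mul_le_mul_of_nonneg_left h6 ha
    linarith
  -- the limit
  let τ : ℕ → ℝ := fun n => 1 / ((n : ℝ) + 1)
  have hτ : ∀ n, 0 < τ n := fun n => by
    show 0 < 1 / ((n : ℝ) + 1)
    positivity
  have hlim : Tendsto τ atTop (𝓝 0) := tendsto_one_div_add_atTop_nhds_zero_nat
  have t1 : Tendsto (fun n => ∫ x, gs (τ n) v (T x) ^ 2 ∂(un C)) atTop
      (𝓝 (∫ x, v (T x) ^ 2 ∂(un C))) := by
    refine tendsto_integral_of_dominated_convergence (fun _ => (1 : ℝ)) (fun n => ?_)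
      (integrable_const _) (fun n => Eventually.of_forall fun x => ?_)
      (Eventually.of_forall fun x => ?_)
    · exact (((hgc _ (hτ n)).comp hTc).pow 2).aestronglyMeasurable
    · rw [Real.norm_eq_abs, abs_pow]
      exact pow_le_one₀ (abs_nonneg _) (gs_le_bd (hτ n) hv.c1.continuous hv1 _)
    · exact (gs_tendsto hv.c1.continuous hv1 _ τ hτ hlim).pow 2
  have t2 : Tendsto (fun n => ∫ x, gs (τ n) v (T x) ∂(un C)) atTop
      (𝓝 (∫ x, v (T x) ∂(un C))) := by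
    refine tendsto_integral_of_dominated_convergence (fun _ => (1 : ℝ)) (fun n => ?_)
      (integrable_const _) (fun n => Eventually.of_forall fun x => ?_)
      (Eventually.of_forall fun x => ?_)
    · exact ((hgc _ (hτ n)).comp hTc).aestronglyMeasurable
    · rw [Real.norm_eq_abs]
      exact gs_le_bd (hτ n) hv.c1.continuous hv1 _
    · exact gs_tendsto hv.c1.continuous hv1 _ τ hτ hlim
  have t3 : Tendsto (fun n => ∫ x, gs (τ n) (fun y => ‖fderiv ℝ v y‖ ^ 2) (T x) ∂(un C)) atTop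
      (𝓝 (∫ x, ‖fderiv ℝ v (T x)‖ ^ 2 ∂(un C))) := by
    refine tendsto_integral_of_dominated_convergence (fun _ => M ^ 2) (fun n => ?_)
      (integrable_const _) (fun n => Eventually.of_forall fun x => ?_)
      (Eventually.of_forall fun x => ?_)
    · exact ((hgc2 _ (hτ n)).comp hTc).aestronglyMeasurable
    · rw [Real.norm_eq_abs]
      exact gs_le_bd (hτ n) (cont_nfd hv) (bd_nfd hv) _
    · exact gs_tendsto (cont_nfd hv) (bd_nfd hv) _ τ hτ hlim
  have t4 := le_of_tendsto_of_tendsto' (t1.sub (t2.pow 2))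
    (((t3.const_mul s).const_mul a).const_add δ) fun n => key _ (hτ n)
  rw [mul_assoc]
  exact t4

/-! ### the inequality in isotropic position -/

variable {N : ℕ}

theorem int_un (C : Set (E N)) (f : E N → ℝ) : ∫ x, f x ∂(un C) = EV C f := by
  unfold un EV
  rw [integral_smul_measure, smul_eq_mul, ENNReal.toReal_inv]
  ring

theorem weak_of_lcon {D : Set (E N)} (hD : IsCompact D) (hconv : Convex ℝ D) (hvol : 0 < volume D)
    {δ κ : ℝ} (hδ : 0 < δ) (hκ : 0 < κ) (hl : Pool.Agent.Y506.FF.LCon D κ δ) (f : E N → ℝ)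
    (L M : ℝ) (hf : Sm f L M) :
    VV D f ≤ 17 * δ + 4 / (κ ^ 2 * δ) * EV D fun x => ‖fderiv ℝ f x‖ ^ 2 := by
  have hprob : IsProbabilityMeasure (un D) := un_prob hvol.ne' hD.measure_lt_top.ne
  have hfd : ∀ x, fderiv ℝ (fun x => 1 / 2 * f x) x = (1 / 2 : ℝ) • fderiv ℝ f x := fun x => by
    exact fderiv_const_mul (hf.diff.differentiable one_ne_zero x) _
  have hL0 : 0 ≤ L := (norm_nonneg _).trans (hf.grad 0)
  have hf2 : Sm (fun x => 1 / 2 * f x) L M := by
    refine ⟨fun x => ?_, contDiff_const.mul hf.diff, fun x => ?_, fun x y => ?_⟩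
    · have := hf.bdd x
      rw [abs_mul, abs_of_pos (by norm_num : (0 : ℝ) < 1 / 2)]
      linarith [abs_nonneg (f x)]
    · rw [hfd, norm_smul, Real.norm_eq_abs, abs_of_pos (by norm_num : (0 : ℝ) < 1 / 2)]
      have := hf.grad x
      linarith
    · rw [hfd, hfd, ← smul_sub, norm_smul, Real.norm_eq_abs,
        abs_of_pos (by norm_num : (0 : ℝ) < 1 / 2)]
      have h1 := hf.lip x y
      have h2 := norm_nonneg (fderiv ℝ f x - fderiv ℝ f y)
      linarith
  have hfb : ∀ x, |1 / 2 * f x| ≤ 1 / 2 := fun x => by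
    have := hf.bdd x
    rw [abs_mul, abs_of_pos (by norm_num : (0 : ℝ) < 1 / 2)]
    linarith
  have hV : VV D (fun x => 1 / 2 * f x) = 1 / 4 * VV D f := by
    unfold VV
    rw [← int_un, ← int_un, ← int_un, ← int_un, integral_const_mul]
    have : (fun x => (1 / 2 * f x) ^ 2) = fun x => 1 / 4 * f x ^ 2 := by
      funext x; ring
    rw [this, integral_const_mul]
    ring
  have hcfd : Continuous fun x => ‖fderiv ℝ f x‖ :=
    (hf.diff.continuous_fderiv one_ne_zero).norm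
  have hE1 : 4 / κ * EV D (fun x => ‖fderiv ℝ f x‖) ≤
      δ + 4 / (κ ^ 2 * δ) * EV D fun x => ‖fderiv ℝ f x‖ ^ 2 := by
    rw [← int_un, ← int_un, ← integral_const_mul, ← integral_const_mul]
    have i1 : Integrable (fun x => 4 / (κ ^ 2 * δ) * ‖fderiv ℝ f x‖ ^ 2) (un D) :=
      un_int hvol.ne' hD.isBounded ((hcfd.pow 2).const_mul _)
    have h1 : δ + ∫ x, 4 / (κ ^ 2 * δ) * ‖fderiv ℝ f x‖ ^ 2 ∂(un D) =
        ∫ x, (δ + 4 / (κ ^ 2 * δ) * ‖fderiv ℝ f x‖ ^ 2) ∂(un D) := by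
      rw [integral_add (integrable_const _) i1]
      simp
    rw [h1]
    refine integral_mono (un_int hvol.ne' hD.isBounded (hcfd.const_mul _))
      ((integrable_const _).add i1) fun x => ?_
    show 4 / κ * ‖fderiv ℝ f x‖ ≤ δ + 4 / (κ ^ 2 * δ) * ‖fderiv ℝ f x‖ ^ 2
    have h2 : δ + 4 / (κ ^ 2 * δ) * ‖fderiv ℝ f x‖ ^ 2 - 4 / κ * ‖fderiv ℝ f x‖ =
        (κ * δ - 2 * ‖fderiv ℝ f x‖) ^ 2 / (κ ^ 2 * δ) := by
      field_simp
      ring
    have h3 : 0 ≤ (κ * δ - 2 * ‖fderiv ℝ f x‖) ^ 2 / (κ ^ 2 * δ) := by positivity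
    linarith
  have hE2 : 0 ≤ EV D fun x => ‖fderiv ℝ f x‖ ^ 2 := by
    rw [← int_un]
    exact integral_nonneg fun x => sq_nonneg _
  have hE3 : 0 ≤ 4 / (κ ^ 2 * δ) * EV D fun x => ‖fderiv ℝ f x‖ ^ 2 := by positivity
  by_cases hc : 4 * δ < VV D (fun x => 1 / 2 * f x)
  · have key := Pool.Agent.Y665.FF.milb Pool.Agent.Y445.FF.mila' (Fin N) D hD hconv hvol
      δ κ hδ hκ hl (fun x => 1 / 2 * f x) L M hf2 hfb hc
    have h1 : EV D (fun x => ‖fderiv ℝ (fun x => 1 / 2 * f x) x‖) =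
        1 / 2 * EV D fun x => ‖fderiv ℝ f x‖ := by
      rw [← int_un, ← int_un, ← integral_const_mul]
      refine integral_congr_ae (Eventually.of_forall fun x => ?_)
      show ‖fderiv ℝ (fun x => 1 / 2 * f x) x‖ = 1 / 2 * ‖fderiv ℝ f x‖
      rw [hfd, norm_smul, Real.norm_eq_abs, abs_of_pos (by norm_num : (0 : ℝ) < 1 / 2)]
    rw [h1, hV] at key
    have h2 : 2 / κ * (1 / 2 * EV D fun x => ‖fderiv ℝ f x‖) =
        1 / 4 * (4 / κ * EV D fun x => ‖fderiv ℝ f x‖) := by ring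
    rw [h2] at key
    linarith
  · rw [hV, not_lt] at hc
    linarith

end W1aux

open W1aux in
/-- W1: concentration gives weak Poincaré inequalities for linear images -/
theorem kw_of_cc : ∀ κ δ : ℝ, 0 < κ → 0 < δ → ∃ A0 : ℝ, 0 < A0 ∧ ∀ (N : ℕ) (C : Set (E N)),
    IsCompact C → Convex ℝ C → (interior C).Nonempty →
    Pool.Agent.Y506.PV.CcW κ δ (Pool.Agent.Y506.PV.ind C) → KW A0 (17 * δ) C := by
  intro κ δ hκ hδ
  refine ⟨4 / (κ ^ 2 * δ), by positivity, fun n K hK hc hint hcc => ?_⟩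
  have hvol : 0 < volume K :=
    lt_of_lt_of_le (isOpen_interior.measure_pos volume hint) (measure_mono interior_subset)
  have hA := adm_ind K hK.measurableSet hK.isBounded hvol
  obtain ⟨A, hiA⟩ := Pool.Agent.Y211.PV.iso n (ind K) hA
  obtain ⟨K', hK'⟩ : ∃ K' : Set (Eu (Fin n)), K' = A '' K := ⟨_, rfl⟩
  have hcp' : IsCompact K' := by rw [hK']; exact hK.image A.continuous
  have hcv' : Convex ℝ K' := by
    rw [hK']
    exact hc.linear_image A.toLinearEquiv.toLinearMap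
  have hvol' : 0 < volume K' := by
    have h1 : (interior K').Nonempty := by
      obtain ⟨x, hx⟩ := hint
      have h2 : IsOpen (A '' interior K) := A.toHomeomorph.isOpenMap _ isOpen_interior
      have h3 : A '' interior K ⊆ K' := by rw [hK']; exact image_mono interior_subset
      exact ⟨A x, interior_maximal h3 h2 ⟨x, hx, rfl⟩⟩
    exact lt_of_lt_of_le (isOpen_interior.measure_pos volume h1) (measure_mono interior_subset)
  have hw : ∀ x, ind K x = 1 * ind K' (A (x - 0)) := by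
    intro x
    rw [sub_zero, one_mul]
    unfold ind
    by_cases hx : x ∈ K
    · have : A x ∈ K' := by rw [hK']; exact ⟨x, hx, rfl⟩
      rw [indicator_of_mem hx, indicator_of_mem this]
    · have : A x ∉ K' := by
        rw [hK']
        rintro ⟨y, hy, hxy⟩
        exact hx (A.injective hxy ▸ hy)
      rw [indicator_of_notMem hx, indicator_of_notMem this]
  have hEW : ∀ v : Eu (Fin n) → ℝ, EW (ind K) (fun x => v (A x)) = EW (ind K') v := by
    intro v
    rw [EW_aff A 0 1 one_pos _ _ hw]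
    simp only [add_zero, ContinuousLinearEquiv.apply_symm_apply]
  have hVW : ∀ v : Eu (Fin n) → ℝ, VW (ind K) (fun x => v (A x)) = VW (ind K') v := by
    intro v
    unfold VW
    rw [hEW (fun x => v x ^ 2), hEW v]
  have hl : Pool.Agent.Y506.FF.LCon K' κ δ := by
    intro v hv hv1 hvl
    rw [VV_VW K' hcp'.measurableSet, ← hVW]
    refine hcc n le_rfl A.toLinearEquiv.toLinearMap 1 one_pos ?_ v hv hv1 ?_
    · intro θ hθ
      have h1 := hiA θ
      rw [hθ] at h1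
      have h2 : VW (ind K) (fun x => ⟪A.toLinearEquiv.toLinearMap x, θ⟫_ℝ) =
        VW (ind K) (fun x => ⟪A x, θ⟫_ℝ) := rfl
      rw [h2, h1]
      norm_num
    · intro y
      rw [Real.sqrt_one, div_one]
      exact hvl y
  refine kw_of_iso hvol.ne' hK.isBounded (by positivity) A.toLinearEquiv (fun θ => ?_)
    (fun f L M hf => ?_)
  · have h1 := hiA θ
    rw [← VV_VW K hK.measurableSet] at h1
    rw [int_un, int_un]
    exact h1
  · have h1 := weak_of_lcon hcp' hcv' hvol' hδ hκ hl f L M hf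
    rw [VV_VW K' hcp'.measurableSet, ← hVW, ← VV_VW K hK.measurableSet,
      EV_EW K' hcp'.measurableSet, ← hEW, ← EV_EW K hK.measurableSet] at h1
    rw [int_un, int_un, int_un]
    exact h1

end Pool.Agent.R755.KF
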