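import Pool.Agent.R755.KF.All
import Pool.Agent.R755.KF.Cls
import Pool.Agent.R755.KF.Geo
import Pool.Agent.R755.KF.W1
import Pool.Agent.R755.KF.D1
import Pool.Agent.R755.KF.D2
import Pool.Agent.R755.KF.D3
import Pool.Agent.R755.KF.S1
import Pool.Agent.R754.KG.H

/-!
# Convex bodies fibred over a base of small dimension: the final form
-/

set_option autoImplicit false

namespace Pool.Agent.R755.KF

open MeasureTheory Set Filter Topology
open scoped ENNReal InnerProductSpace
open Pool.Agent.R754.KG (E)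
open Pool.Agent.Y506.RG (Star)
open Pool.Agent.Y506.PV (ind)

theorem ccR : S_CC := cc wh pxR tlR chnR kw_of_cc

theorem denrR : S_DENR :=
  denr (Pool.Agent.Y252.PV.M4.m4 Pool.Agent.Y625.PV.lev) Pool.Agent.Y625.PV.um

theorem liftR : S_LIFT :=
  lift (lift1 Pool.Agent.Y941.PV.prj denrR) Pool.Agent.Y388.PV.cmp Pool.Agent.Y388.PV.fac

/-- the functional inequality for all bodies of the class -/
theorem cm_starR (q B : ℕ) (p c0 : ℝ) (hp : 1 ≤ p) (hc0 : 0 < c0) (d r h : ℕ) :
    ∃ c : ℝ, 0 < c ∧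
    ∀ (n : ℕ) (K : Set (E n)), Cm q B p c0 d r h n K → IsCompact K ∧ Convex ℝ K ∧
      (interior K).Nonempty ∧ Star c (ind K) := cm_star ccR liftR q B p c0 hp hc0 d r h

end Pool.Agent.R755.KF
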