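import Pool.Agent.R755.KF.Defs2
import Pool.Agent.R754.KG.F
import Pool.Agent.H888R2.KT.N7

/-!
# Convex bodies fibred over a base of small dimension: assembly
-/

set_option autoImplicit false

namespace Pool.Agent.R755.KF

open MeasureTheory Set Filter Topology
open scoped ENNReal InnerProductSpace
open Pool.Agent.H888R2.KT (gs gc)
open Pool.Agent.R754.KG (E un sl Rv)
open Pool.Agent.Y506.PV (CcW ind)
open Pool.Agent.Y506.RG (EW VW)

namespace Maux

variable {N d k : ℕ} {K : Set (E N × E d)}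

theorem meas (h : CB K) : MeasurableSet K := h.comp.measurableSet
theorem bdd (h : CB K) : Bornology.IsBounded K := h.comp.isBounded
theorem kfin (h : CB K) : volume K ≠ ⊤ := h.comp.measure_lt_top.ne
theorem sl_meas (h : CB K) (t : E d) : MeasurableSet (sl K t) := measurable_prodMk_right (meas h)
theorem sl_bd (h : CB K) (t : E d) : Bornology.IsBounded (sl K t) :=
  (bdd h).image_fst.subset fun x hx => ⟨(x, t), hx, rfl⟩
theorem sl_fin (h : CB K) (t : E d) : volume (sl K t) ≠ ⊤ := (sl_bd h t).measure_lt_top.ne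

theorem R_vol (h : CB K) (t : E d) : volume (sl K t) = ENNReal.ofReal (Rv K t) := by
  unfold Rv
  rw [ENNReal.ofReal_toReal (sl_fin h t)]

theorem fub (h : CB K) (F : E N × E d → ℝ≥0∞) (hF : Measurable F) :
    ∫⁻ z in K, F z = ∫⁻ t, ∫⁻ x in sl K t, F (x, t) := by
  rw [← lintegral_indicator (meas h), Measure.volume_eq_prod,
    lintegral_prod_symm' _ (hF.indicator (meas h))]
  refine lintegral_congr fun t => ?_
  rw [← lintegral_indicator (sl_meas h t)]
  rfl

theorem sec_meas (h : CB K) (F : E N × E d → ℝ≥0∞) (hF : Measurable F) :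
    Measurable fun t => ∫⁻ x in sl K t, F (x, t) := by
  have h1 : Measurable fun t : E d => ∫⁻ x, K.indicator F (x, t) := by
    exact (hF.indicator (meas h)).lintegral_prod_left'
  convert h1 using 2 with t
  rw [← lintegral_indicator (sl_meas h t)]
  rfl

theorem vol_fub (h : CB K) : volume K = ∫⁻ t, volume (sl K t) := by
  have := fub h (fun _ => 1) measurable_const
  simpa using this

theorem vol_meas (h : CB K) : Measurable fun t => volume (sl K t) := by
  have := sec_meas h (fun _ => 1) measurable_const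
  simpa using this

theorem R_meas (h : CB K) : Measurable (Rv K) := by
  unfold Rv
  exact (vol_meas h).ennreal_toReal

theorem sup_ex (h : CB K) {ρ : ℝ} (hρ : 0 < ρ) :
    ∃ S : ℝ, 0 < S ∧ (∀ t, Rv K t ≤ S) ∧ ∃ ts, (1 - ρ) * S ≤ Rv K ts := by
  have hB : ∀ t, volume (sl K t) ≤ volume (Prod.fst '' K) := fun t =>
    measure_mono fun x hx => ⟨(x, t), hx, rfl⟩
  have hBf : volume (Prod.fst '' K) ≠ ⊤ := (bdd h).image_fst.measure_lt_top.ne
  have hbd : BddAbove (range fun t => Rv K t) := by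
    refine ⟨(volume (Prod.fst '' K)).toReal, ?_⟩
    rintro _ ⟨t, rfl⟩
    exact ENNReal.toReal_mono hBf (hB t)
  have hpos : ∃ t, 0 < Rv K t := by
    by_contra hne
    push Not at hne
    have h1 := vol_fub h
    have h2 : ∀ t, volume (sl K t) = 0 := fun t => by
      rw [R_vol h t, ENNReal.ofReal_eq_zero]
      exact hne t
    simp only [h2, lintegral_zero] at h1
    exact h.pos.ne' h1
  obtain ⟨t, ht⟩ := hpos
  have hS : 0 < ⨆ t, Rv K t := lt_of_lt_of_le ht (le_ciSup hbd t)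
  refine ⟨⨆ t, Rv K t, hS, fun t => le_ciSup hbd t, ?_⟩
  obtain ⟨ts, hts⟩ := exists_lt_of_lt_ciSup (show (1 - ρ) * (⨆ t, Rv K t) < ⨆ t, Rv K t by
    nlinarith)
  exact ⟨ts, hts.le⟩

theorem gint (h : ℝ) (hh : 0 < h) (x : E k) (f : E k → ℝ) (hf : Continuous f) (B : ℝ)
    (hb : ∀ y, |f y| ≤ B) : Integrable fun y => f y * Real.exp (-(‖x - y‖ ^ 2 / (2 * h))) := by
  have h1 := (Pool.Agent.H888R2.KT.gc_pos (κ := Fin k) h hh).2.2.1 x
  refine (h1.const_mul B).mono' (by fun_prop) (Eventually.of_forall fun y => ?_)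
  rw [norm_mul, Real.norm_eq_abs, Real.norm_eq_abs, abs_of_pos (Real.exp_pos _)]
  exact mul_le_mul_of_nonneg_right (hb y) (Real.exp_pos _).le

theorem gs_nonneg (h : ℝ) (f : E k → ℝ) (hf : ∀ y, 0 ≤ f y) (x : E k) :
    0 ≤ gs h f x := by
  unfold gs
  refine div_nonneg (integral_nonneg fun y => mul_nonneg (hf y) (Real.exp_pos _).le) ?_
  unfold gc
  exact integral_nonneg fun y => (Real.exp_pos _).le

theorem gs_const (h : ℝ) (hh : 0 < h) (c : ℝ) (x : E k) : gs h (fun _ => c) x = c := by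
  unfold gs
  obtain ⟨h1, h2, -⟩ := Pool.Agent.H888R2.KT.gc_pos (κ := Fin k) h hh
  rw [integral_const_mul, h2 x]
  field_simp

theorem gs_mono (h : ℝ) (hh : 0 < h) (f g : E k → ℝ) (hf : Continuous f) (hg : Continuous g)
    (B : ℝ) (hb : ∀ y, |f y| ≤ B) (hb' : ∀ y, |g y| ≤ B) (hfg : ∀ y, f y ≤ g y) (x : E k) :
    gs h f x ≤ gs h g x := by
  unfold gs
  refine div_le_div_of_nonneg_right ?_ (Pool.Agent.H888R2.KT.gc_pos (κ := Fin k) h hh).1.le
  refine integral_mono (gint h hh x f hf B hb) (gint h hh x g hg B hb') fun y => ?_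
  exact mul_le_mul_of_nonneg_right (hfg y) (Real.exp_pos _).le

theorem gs_sq (h : ℝ) (hh : 0 < h) (f : E k → ℝ) (hf : Continuous f) (B : ℝ)
    (hb : ∀ y, |f y| ≤ B) (c : ℝ) (x : E k) :
    gs h (fun y => (f y - c) ^ 2) x = gs h (fun y => f y ^ 2) x - 2 * c * gs h f x + c ^ 2 := by
  have hc := gs_const h hh (c ^ 2) x
  have hB2 : ∀ y, |f y ^ 2| ≤ B ^ 2 := fun y => by
    rw [abs_pow]
    exact pow_le_pow_left₀ (abs_nonneg _) (hb y) 2
  have i1 := gint h hh x (fun y => f y ^ 2) (by fun_prop) (B ^ 2) hB2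
  have i2 := gint h hh x f hf B hb
  have i3 := gint h hh x (fun _ => c ^ 2) (by fun_prop) (|c ^ 2|) fun _ => le_rfl
  rw [← hc]
  unfold gs
  have e : (fun y => (f y - c) ^ 2 * Real.exp (-(‖x - y‖ ^ 2 / (2 * h)))) = fun y =>
      f y ^ 2 * Real.exp (-(‖x - y‖ ^ 2 / (2 * h))) +
      (-(2 * c) * (f y * Real.exp (-(‖x - y‖ ^ 2 / (2 * h)))) +
        c ^ 2 * Real.exp (-(‖x - y‖ ^ 2 / (2 * h)))) := by
    funext y
    ring
  have i23 : Integrable (fun y => -(2 * c) * (f y * Real.exp (-(‖x - y‖ ^ 2 / (2 * h)))) +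
      c ^ 2 * Real.exp (-(‖x - y‖ ^ 2 / (2 * h)))) := (i2.const_mul _).add i3
  rw [e, integral_add i1 i23, integral_add (i2.const_mul _) i3, integral_const_mul]
  ring

/-- the estimate for functions of `T z + √h Z` -/
theorem ylev (hT : S_TAIL) (hC : S_CHNW) (d : ℕ) (δ : ℝ) (hδ : 0 < δ) :
    ∃ δ' : ℝ, 0 < δ' ∧ ∀ A0 : ℝ, 0 < A0 → ∃ C κ : ℝ, 0 < C ∧ 0 < κ ∧
    ∀ (N k : ℕ) (K : Set (E N × E d)), CB K →
    (∀ t, volume (sl K t) ≠ 0 → KW A0 δ' (sl K t)) → ∀ (T : E N × E d →ₗ[ℝ] E k) (s : ℝ), 0 < s →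
    (∀ θ : E k, ‖θ‖ = 1 →
      (∫ z, ⟪T z, θ⟫_ℝ ^ 2 ∂(un K)) - (∫ z, ⟪T z, θ⟫_ℝ ∂(un K)) ^ 2 ≤ s) →
    ∀ f : E k → ℝ, ContDiff ℝ 1 f → (∀ y, |f y| ≤ 1) → (∀ y, ‖fderiv ℝ f y‖ ≤ κ / Real.sqrt s) →
    ∃ c : ℝ, ∫ z, gs (C * s) (fun y => (f y - c) ^ 2) (T z) ∂(un K) ≤ δ := by
  obtain ⟨ε, γ, ρ1, hε, hε1, hγ, hρ1, hρ1', H1⟩ := hT d (δ / 16) (by positivity)
  obtain ⟨δ', ρ2, hδ', hρ2, hρ2', H3⟩ := hC d ε γ (δ / 4) hε hε1 hγ (by positivity)
  refine ⟨δ', hδ', fun A0 hA0 => ?_⟩
  obtain ⟨C, C2, hCp, hC2, H2⟩ := H3 A0 hA0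
  refine ⟨C, Real.sqrt (δ / (4 * C2)), hCp, Real.sqrt_pos.2 (by positivity), ?_⟩
  intro N k K h hfib T s hs hvar f hf hfb hfd
  obtain ⟨S, hSp, hS, ts, hts⟩ := sup_ex h (ρ := min ρ1 ρ2) (lt_min hρ1 hρ2)
  have hts1 : (1 - ρ1) * S ≤ Rv K ts := le_trans
    (mul_le_mul_of_nonneg_right (by linarith [min_le_left ρ1 ρ2]) hSp.le) hts
  have hts2 : (1 - ρ2) * S ≤ Rv K ts := le_trans
    (mul_le_mul_of_nonneg_right (by linarith [min_le_right ρ1 ρ2]) hSp.le) hts
  have hhp : 0 < C * s := by positivity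
  obtain ⟨κ, hκ⟩ : ∃ κ, κ = Real.sqrt (δ / (4 * C2)) := ⟨_, rfl⟩
  have hκ0 : 0 ≤ κ := by rw [hκ]; exact Real.sqrt_nonneg _
  have hκ2 : κ ^ 2 = δ / (4 * C2) := by rw [hκ, Real.sq_sqrt (by positivity)]
  rw [← hκ] at hfd
  have hL0 : 0 ≤ κ / Real.sqrt s := by positivity
  have hL2 : C2 * s * (κ / Real.sqrt s) ^ 2 = δ / 4 := by
    rw [div_pow, Real.sq_sqrt hs.le, hκ2]
    field_simp
  have hTc : Continuous T := T.continuous_of_finiteDimensional
  have hTt : ∀ t : E d, Continuous fun p : E N => T (p, t) := fun t => by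
    have : Continuous fun p : E N => (p, t) := by fun_prop
    exact hTc.comp this
  have hfc : Continuous f := hf.continuous
  obtain ⟨c, hc⟩ : ∃ c : ℝ, c = ey (C * s) (lw K T ts) f := ⟨_, rfl⟩
  have hR0 : 0 < Rv K ts := lt_of_lt_of_le (by nlinarith) hts1
  have hL0' : volume (sl K ts) ≠ 0 := by
    rw [R_vol h ts]
    exact (ENNReal.ofReal_pos.2 hR0).ne'
  have hgc : Continuous (gs (C * s) f) := Pool.Agent.H888R2.KT.N7x.cont_gs _ hhp f hfc 1 hfb
  have hfb1 : ∀ x, |gs (C * s) f x| ≤ 1 := by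
    intro x
    rw [abs_le]
    constructor
    · rw [← gs_const (C * s) hhp (-1) x]
      exact gs_mono _ hhp _ _ continuous_const hfc 1 (fun _ => by simp) hfb
        (fun y => (abs_le.1 (hfb y)).1) x
    · conv_rhs => rw [← gs_const (C * s) hhp 1 x]
      exact gs_mono _ hhp _ _ hfc continuous_const 1 hfb (fun _ => by simp)
        (fun y => (abs_le.1 (hfb y)).2) x
  have hprob : IsProbabilityMeasure (un (sl K ts)) :=
    Pool.Agent.R754.KG.un_prob hL0' (sl_fin h ts)
  have hcb : |c| ≤ 1 := by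
    rw [hc]
    unfold ey lw
    rw [integral_map (hTt ts).measurable.aemeasurable hgc.aestronglyMeasurable, ← Real.norm_eq_abs]
    refine (norm_integral_le_of_norm_le_const (C := 1) (Eventually.of_forall fun p => ?_)).trans ?_
    · exact hfb1 _
    · simp
  have hqb : ∀ y, |(f y - c) ^ 2| ≤ 4 := by
    intro y
    have h1 := abs_le.1 (hfb y)
    have h2 := abs_le.1 hcb
    rw [abs_of_nonneg (sq_nonneg _)]
    nlinarith [h1.1, h1.2, h2.1, h2.2]
  obtain ⟨G, hG⟩ : ∃ G : E k → ℝ, G = gs (C * s) (fun y => (f y - c) ^ 2) := ⟨_, rfl⟩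
  have hGc : Continuous G := by
    rw [hG]
    exact Pool.Agent.H888R2.KT.N7x.cont_gs _ hhp _ (by fun_prop) 4 hqb
  have hG0 : ∀ x, 0 ≤ G x := by
    intro x
    rw [hG]
    exact gs_nonneg _ _ (fun y => sq_nonneg _) x
  have hG4 : ∀ x, G x ≤ 4 := by
    intro x
    rw [hG]
    have h4 := gs_const (k := k) (C * s) hhp 4 x
    conv_rhs => rw [← h4]
    exact gs_mono _ hhp _ _ (by fun_prop) continuous_const 4 hqb (fun _ => by norm_num)
      (fun y => (abs_le.1 (hqb y)).2) x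
  refine ⟨c, ?_⟩
  rw [← hG]
  have hpt : ∀ t, ∫⁻ x in sl K t, ENNReal.ofReal (G (T (x, t))) ≤
      ENNReal.ofReal (δ / 2) * volume (sl K t) +
      {t | Rv K (ts + (1 + γ) • (t - ts)) < ε * S}.indicator (fun t => 4 * volume (sl K t)) t := by
    intro t
    by_cases ht : Rv K (ts + (1 + γ) • (t - ts)) < ε * S
    · rw [indicator_of_mem (show t ∈ {t | Rv K (ts + (1 + γ) • (t - ts)) < ε * S} from ht)]
      refine le_trans ?_ le_add_self
      calc ∫⁻ x in sl K t, ENNReal.ofReal (G (T (x, t)))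
          ≤ ∫⁻ _ in sl K t, 4 := lintegral_mono fun x => by
            rw [show (4 : ℝ≥0∞) = ENNReal.ofReal 4 by norm_num]
            exact ENNReal.ofReal_le_ofReal (hG4 _)
        _ = _ := by simp
    · rw [indicator_of_notMem (show t ∉ {t | Rv K (ts + (1 + γ) • (t - ts)) < ε * S} from ht),
        add_zero]
      rw [not_lt] at ht
      by_cases hne : volume (sl K t) = 0
      · rw [hne, mul_zero, nonpos_iff_eq_zero]
        exact setLIntegral_measure_zero _ _ hne
      have hp := H2 N k K h hfib T s S hs hSp hS hvar ts hts2 t ht f _ hf hL0 hfb hfd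
      rw [← hc, hL2, show δ / 4 + δ / 4 = δ / 2 by ring] at hp
      unfold ey lw at hp
      rw [← hG, integral_map (hTt t).measurable.aemeasurable hGc.aestronglyMeasurable] at hp
      have hTt' := hTt t
      rw [Pool.Agent.R754.KG.un_lint_ofReal hne (sl_bd h t) (by fun_prop) (fun x => hG0 _),
        mul_comm]
      exact mul_le_mul_left (ENNReal.ofReal_le_ofReal hp) _
  have hFc : Continuous fun z : E N × E d => G (T z) := hGc.comp hTc
  have hmain : ∫⁻ z in K, ENNReal.ofReal (G (T z)) ≤ ENNReal.ofReal δ * volume K := by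
    rw [fub h _ hFc.measurable.ennreal_ofReal]
    have hm1 : MeasurableSet {t | Rv K (ts + (1 + γ) • (t - ts)) < ε * S} :=
      ((R_meas h).comp (by fun_prop : Measurable fun t : E d => ts + (1 + γ) • (t - ts)))
        measurableSet_Iio
    calc ∫⁻ t, ∫⁻ x in sl K t, ENNReal.ofReal (G (T (x, t)))
        ≤ ∫⁻ t, ENNReal.ofReal (δ / 2) * volume (sl K t) +
          {t | Rv K (ts + (1 + γ) • (t - ts)) < ε * S}.indicator
            (fun t => 4 * volume (sl K t)) t := lintegral_mono hpt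
      _ = ENNReal.ofReal (δ / 2) * volume K +
          4 * ∫⁻ t in {t | Rv K (ts + (1 + γ) • (t - ts)) < ε * S}, volume (sl K t) := by
          rw [lintegral_add_left ((vol_meas h).const_mul _), lintegral_const_mul _ (vol_meas h),
            ← vol_fub h, lintegral_indicator hm1, lintegral_const_mul _ (vol_meas h)]
      _ ≤ ENNReal.ofReal (δ / 2) * volume K + 4 * (ENNReal.ofReal (δ / 16) * volume K) := by
          gcongr
          exact H1 N K h S ts hSp hS hts1
      _ = ENNReal.ofReal (δ / 2 + 4 * (δ / 16)) * volume K := by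
          rw [ENNReal.ofReal_add (by positivity) (by positivity),
            ENNReal.ofReal_mul (show (0 : ℝ) ≤ 4 by norm_num),
            show ENNReal.ofReal 4 = (4 : ℝ≥0∞) by norm_num]
          ring
      _ ≤ _ := by
          refine mul_le_mul_left (ENNReal.ofReal_le_ofReal ?_) _
          linarith
  rw [Pool.Agent.R754.KG.un_lint_ofReal h.pos.ne' (bdd h) hFc (fun z => hG0 _), mul_comm] at hmain
  have h2 := (ENNReal.mul_le_mul_iff_left h.pos.ne' (kfin h)).1 hmain
  exact (ENNReal.ofReal_le_ofReal_iff hδ.le).1 h2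

end Maux

/-- from concentration to a weak Poincaré inequality -/
def S_KWC : Prop := ∀ κ δ : ℝ, 0 < κ → 0 < δ → ∃ A0 : ℝ, 0 < A0 ∧ ∀ (N : ℕ) (C : Set (E N)),
  IsCompact C → Convex ℝ C → (interior C).Nonempty → CcW κ δ (ind C) → KW A0 (17 * δ) C

theorem int_of_vol {N : ℕ} {C : Set (E N)} (hC : Convex ℝ C) (hv : volume C ≠ 0) :
    (interior C).Nonempty := by
  by_contra hne
  rw [not_nonempty_iff_eq_empty] at hne
  have h1 := hC.addHaar_frontier (volume : Measure (E N))
  have h2 : C ⊆ frontier C := by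
    intro x hx
    rw [frontier, hne, sdiff_empty]
    exact subset_closure hx
  exact hv (measure_mono_null h2 h1)

open Maux in
theorem sl_comp {N d : ℕ} {K : Set (E N × E d)} (h : CB K) (t : E d) : IsCompact (sl K t) := by
  refine Metric.isCompact_of_isClosed_isBounded ?_ (sl_bd h t)
  exact h.comp.isClosed.preimage (by fun_prop : Continuous fun x : E N => (x, t))

theorem sl_conv {N d : ℕ} {K : Set (E N × E d)} (h : CB K) (t : E d) : Convex ℝ (sl K t) := by
  intro x hx y hy a b ha hb hab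
  have h1 := h.conv (show (x, t) ∈ K from hx) (show (y, t) ∈ K from hy) ha hb hab
  have h2 : a • (x, t) + b • (y, t) = (a • x + b • y, t) := by
    refine Prod.ext rfl ?_
    change a • t + b • t = t
    rw [← add_smul, hab, one_smul]
  rw [h2] at h1
  exact h1

open Maux in
/-- **Concentration for fibred bodies.** -/
theorem cc (hW : S_WH) (hP : S_PX) (hT : S_TAIL) (hC : S_CHNW) (hK : S_KWC) (d : ℕ)
    (δ : ℝ) (hδ : 0 < δ) : ∃ δ' : ℝ, 0 < δ' ∧ ∀ κ' : ℝ, 0 < κ' → ∃ κ : ℝ, 0 < κ ∧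
    ∀ (N n : ℕ) (e : (E N × E d) ≃ₗ[ℝ] E n)
    (K : Set (E N × E d)), CB K → (∀ t, volume (sl K t) ≠ 0 → CcW κ' δ' (ind (sl K t))) →
    CcW κ δ (ind (e '' K)) := by
  obtain ⟨δ1, hδ1, H0⟩ := ylev hT hC d (δ / 2) (by positivity)
  refine ⟨δ1 / 17, by positivity, fun κ' hκ' => ?_⟩
  obtain ⟨A0, hA0, HK⟩ := hK κ' (δ1 / 17) hκ' (by positivity)
  obtain ⟨C, κ, hCp, hκ, H⟩ := H0 A0 hA0
  obtain ⟨κ1, hκ1⟩ : ∃ κ1, κ1 = min (κ / 2) (Real.sqrt (δ / (4 * C))) := ⟨_, rfl⟩
  have hκ1p : 0 < κ1 := by rw [hκ1]; exact lt_min (by positivity) (Real.sqrt_pos.2 (by positivity))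
  have hκ1a : κ1 ≤ κ / 2 := by rw [hκ1]; exact min_le_left _ _
  have hκ1b : 2 * C * κ1 ^ 2 ≤ δ / 2 := by
    have h1 : κ1 ^ 2 ≤ δ / (4 * C) := by
      rw [← Real.sq_sqrt (show 0 ≤ δ / (4 * C) by positivity)]
      refine pow_le_pow_left₀ hκ1p.le ?_ 2
      rw [hκ1]
      exact min_le_right _ _
    calc 2 * C * κ1 ^ 2 ≤ 2 * C * (δ / (4 * C)) := by gcongr
      _ = δ / 2 := by
          field_simp
          norm_num
  refine ⟨κ1, hκ1p, fun N n e K h hfib0 k hk T s hs hvar v hv hvb hvd => ?_⟩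
  have hfib : ∀ t, volume (sl K t) ≠ 0 → KW A0 δ1 (sl K t) := by
    intro t ht
    have h1 := HK N (sl K t) (sl_comp h t) (sl_conv h t) (int_of_vol (sl_conv h t) ht) (hfib0 t ht)
    rwa [mul_div_cancel₀ _ (by norm_num : (17 : ℝ) ≠ 0)] at h1
  let e' : (E N × E d) ≃L[ℝ] E n := e.toContinuousLinearEquiv
  have hme : MeasurableSet (e '' K) :=
    e'.toHomeomorph.measurableEmbedding.measurableSet_image.2 (meas h)
  have hcp : IsCompact (e '' K) := h.comp.image e'.continuous
  have hcv : Convex ℝ (e '' K) := h.conv.linear_image e.toLinearMap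
  have hvp : 0 < volume (e '' K) := by
    rw [pos_iff_ne_zero]
    intro h0
    have hv0 : (volume : Measure (E N × E d)).IsAddHaarMeasure :=
      inferInstanceAs
        (Measure.prod (volume : Measure (E N)) (volume : Measure (E d))).IsAddHaarMeasure
    have hh : (Measure.map e' (volume : Measure (E N × E d))).IsAddHaarMeasure :=
      e'.isAddHaarMeasure_map volume
    obtain ⟨c, hc⟩ : ∃ c : NNReal, Measure.map e' (volume : Measure (E N × E d)) =
        c • (volume : Measure (E n)) := ⟨_, Measure.isAddLeftInvariant_eq_smul _ _⟩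
    have hme' : MeasurableEmbedding e' := e'.toHomeomorph.measurableEmbedding
    have hKe : e' ⁻¹' (e '' K) = K := preimage_image_eq K e.injective
    have h2 : (Measure.map e' (volume : Measure (E N × E d))) (e '' K) = volume K := by
      rw [hme'.map_apply, hKe]
    rw [hc] at h2
    have h3 : (c • (volume : Measure (E n))) (e '' K) = c * volume (e '' K) := rfl
    rw [h3, h0, mul_zero] at h2
    exact h.pos.ne h2
  have hTc : Continuous T := T.continuous_of_finiteDimensional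
  have hprob : IsProbabilityMeasure (un (e '' K)) :=
    Pool.Agent.R754.KG.un_prob hvp.ne' hcp.measure_lt_top.ne
  obtain ⟨ν, hν⟩ : ∃ ν, ν = Measure.map T (un (e '' K)) := ⟨_, rfl⟩
  have hint : ∀ F : E k → ℝ, Continuous F → ∫ x, F x ∂ν = ∫ x, F (T x) ∂(un (e '' K)) := by
    intro F hF
    rw [hν, integral_map hTc.measurable.aemeasurable hF.aestronglyMeasurable]
  obtain ⟨B, hB⟩ := (hcp.image hTc).isBounded.exists_norm_le
  have hPB : PB (max B 0) ν := by
    refine ⟨?_, ?_⟩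
    · rw [hν]
      exact Measure.isProbabilityMeasure_map hTc.measurable.aemeasurable
    · rw [hν, ae_map_iff hTc.measurable.aemeasurable
        (measurableSet_le (by fun_prop) (by fun_prop))]
      unfold un
      refine Measure.ae_smul_measure ?_ _
      refine (ae_restrict_iff' hme).2 (Eventually.of_forall fun x hx => ?_)
      exact (hB _ (mem_image_of_mem _ hx)).trans (le_max_left _ _)
  have hhp : 0 < C * s := by positivity
  have hPL := hW n k (e '' K) T hcv hcp hvp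
  rw [← hν] at hPL
  obtain ⟨f, hf, hfb, hfd, hfin⟩ := hP k (C * s) (max B 0) (κ1 / Real.sqrt s) ν hhp
    (le_max_right _ _) (by positivity) hPB hPL v hv hvb hvd
  have hvc : Continuous v := hv.continuous
  have hfc : Continuous f := hf.continuous
  obtain ⟨c, hc⟩ := H N k K h hfib (T ∘ₗ e.toLinearMap) s hs (fun θ hθ => by
    have h1 := hvar θ hθ
    rw [Pool.Agent.R754.KG.VW_ind hme, Pool.Agent.R754.KG.un_img e h.pos.ne' (kfin h),
      Pool.Agent.R754.KG.un_img e h.pos.ne' (kfin h)] at h1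
    exact h1) f hf hfb (fun y => by
      refine (hfd y).trans ?_
      rw [← mul_div_assoc]
      exact div_le_div_of_nonneg_right (by linarith) (Real.sqrt_nonneg _))
  have hfb2 : ∀ y, |f y ^ 2| ≤ 1 := fun y => by
    rw [abs_pow]
    exact pow_le_one₀ (abs_nonneg _) (hfb y)
  have hqc : Continuous fun y => (f y - c) ^ 2 := by fun_prop
  have hqb : ∀ y, |(f y - c) ^ 2| ≤ (1 + |c|) ^ 2 := fun y => by
    rw [abs_pow]
    refine pow_le_pow_left₀ (abs_nonneg _) ?_ 2
    exact (abs_sub _ _).trans (by linarith [hfb y])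
  have g1 : Continuous (gs (C * s) f) := Pool.Agent.H888R2.KT.N7x.cont_gs _ hhp f hfc 1 hfb
  have g2 : Continuous (gs (C * s) fun y => f y ^ 2) :=
    Pool.Agent.H888R2.KT.N7x.cont_gs _ hhp _ (by fun_prop) 1 hfb2
  have g3 : Continuous (gs (C * s) fun y => (f y - c) ^ 2) :=
    Pool.Agent.H888R2.KT.N7x.cont_gs _ hhp _ hqc _ hqb
  have hlow : ey (C * s) ν (fun y => f y ^ 2) - ey (C * s) ν f ^ 2 ≤ δ / 2 := by
    have hun : ∀ F : E n → ℝ, Continuous F → Integrable F (un (e '' K)) := fun F hF =>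
      Pool.Agent.R754.KG.un_int hvp.ne' hcp.isBounded hF
    have h1 : ∫ x, gs (C * s) (fun y => (f y - c) ^ 2) (T x) ∂(un (e '' K)) ≤ δ / 2 := by
      rw [Pool.Agent.R754.KG.un_img e h.pos.ne' (kfin h)]
      exact hc
    have h2 : ∀ x, gs (C * s) (fun y => (f y - c) ^ 2) x = gs (C * s) (fun y => f y ^ 2) x +
        (-(2 * c) * gs (C * s) f x + c ^ 2) := by
      intro x
      rw [gs_sq _ hhp f hfc 1 hfb c x]
      ring
    simp only [h2] at h1
    have j2 : Integrable (fun x => gs (C * s) (fun y => f y ^ 2) (T x)) (un (e '' K)) :=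
      hun _ (g2.comp hTc)
    have j1 : Integrable (fun x => -(2 * c) * gs (C * s) f (T x)) (un (e '' K)) :=
      (hun _ (g1.comp hTc)).const_mul _
    have j3 : Integrable (fun x => -(2 * c) * gs (C * s) f (T x) + c ^ 2) (un (e '' K)) :=
      j1.add (integrable_const _)
    rw [integral_add j2 j3, integral_add j1 (integrable_const _), integral_const_mul] at h1
    unfold ey
    rw [hint _ g1, hint _ g2]
    simp only [integral_const, probReal_univ, smul_eq_mul, one_mul] at h1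
    nlinarith [sq_nonneg ((∫ x, gs (C * s) f (T x) ∂(un (e '' K))) - c)]
  rw [hint _ (by fun_prop), hint _ hvc] at hfin
  rw [Pool.Agent.R754.KG.VW_ind hme]
  have h5 : 2 * (C * s) * (κ1 / Real.sqrt s) ^ 2 = 2 * C * κ1 ^ 2 := by
    rw [div_pow, Real.sq_sqrt hs.le]
    field_simp
  rw [h5] at hfin
  linarith

end Pool.Agent.R755.KF
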